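import Pool.Agent.Work.MP_936a99_bb.Interface

/-!
# Block EMB: `ℤ_p` embeds in `ℂ`
-/

namespace Pool.Agent.Work.MP_936a99_bb

open Cardinal

theorem card_padic_le (p : ℕ) [Fact p.Prime] : #ℚ_[p] ≤ 𝔠 := by
  have h1 : #ℚ_[p] ≤ #(CauSeq ℚ (padicNorm p)) := Cardinal.mk_quotient_le
  have h2 : #(CauSeq ℚ (padicNorm p)) ≤ #(ℕ → ℚ) := Cardinal.mk_subtype_le _
  have h3 : #(ℕ → ℚ) = 𝔠 := by
    simp
  exact h1.trans (h2.trans h3.le)

theorem card_algebraicClosure_padic (p : ℕ) [Fact p.Prime] :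
    #(AlgebraicClosure ℚ_[p]) = 𝔠 := by
  apply le_antisymm
  · have h := Algebra.IsAlgebraic.cardinalMk_le_max ℚ_[p] (AlgebraicClosure ℚ_[p])
    refine h.trans (max_le (card_padic_le p) Cardinal.aleph0_le_continuum)
  · have h := continuum_le_cardinal_of_nontriviallyNormedField ℚ_[p]
    exact h.trans (Cardinal.mk_le_of_injective (algebraMap ℚ_[p] (AlgebraicClosure ℚ_[p])).injective)

theorem emb : Stmt_EMB := by
  intro p _
  have hc : #(AlgebraicClosure ℚ_[p]) = #ℂ := by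
    rw [card_algebraicClosure_padic p, Cardinal.mk_complex]
  have hu : ℵ₀ < #(AlgebraicClosure ℚ_[p]) := by
    rw [card_algebraicClosure_padic p]
    exact Cardinal.aleph0_lt_continuum
  have : CharZero (AlgebraicClosure ℚ_[p]) :=
    charZero_of_injective_algebraMap (algebraMap ℚ_[p] (AlgebraicClosure ℚ_[p])).injective
  obtain ⟨e⟩ := IsAlgClosed.ringEquiv_of_equiv_of_charZero hu (Cardinal.eq.1 hc)
  refine ⟨(e : AlgebraicClosure ℚ_[p] →+* ℂ).comp
    ((algebraMap ℚ_[p] (AlgebraicClosure ℚ_[p])).comp PadicInt.Coe.ringHom), ?_⟩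
  intro a b hab
  simp only [RingHom.coe_comp, Function.comp_apply, RingHom.coe_coe] at hab
  have h1 := (algebraMap ℚ_[p] (AlgebraicClosure ℚ_[p])).injective (e.injective hab)
  exact Subtype.ext h1

end Pool.Agent.Work.MP_936a99_bb
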