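import Pool.Agent.Work.MP_936a99_bb.Interface

/-! # Block JORC: Jordan's theorem over the complex numbers (Frobenius' proof) -/

set_option autoImplicit false

namespace Pool.Agent.Work.MP_936a99_bb.JORC

open scoped ComplexInnerProductSpace commutatorElement

section Core

variable {E : Type} [NormedAddCommGroup E] [InnerProductSpace ℂ E] [FiniteDimensional ℂ E]
  {G : Type} [Group G] (Ψ : G →* (E →L[ℂ] E))

theorem map_inv_mul (g : G) : Ψ g⁻¹ * Ψ g = 1 := by rw [← map_mul, inv_mul_cancel, map_one]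

theorem map_mul_inv (g : G) : Ψ g * Ψ g⁻¹ = 1 := by rw [← map_mul, mul_inv_cancel, map_one]

variable {Ψ}

theorem norm_map (hU : ∀ g, Ψ g ∈ unitary (E →L[ℂ] E)) (g : G) (v : E) : ‖Ψ g v‖ = ‖v‖ := by
  have h := (Unitary.mem_iff.1 (hU g)).1
  rw [ContinuousLinearMap.star_eq_adjoint] at h
  exact ((Ψ g).norm_map_iff_adjoint_comp_self).2 h v

theorem inner_map (hU : ∀ g, Ψ g ∈ unitary (E →L[ℂ] E)) (g : G) (v w : E) :
    ⟪Ψ g v, Ψ g w⟫ = ⟪v, w⟫ := by
  have h := (Unitary.mem_iff.1 (hU g)).1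
  rw [ContinuousLinearMap.star_eq_adjoint] at h
  exact ((Ψ g).inner_map_map_iff_adjoint_comp_self).2 h v w

theorem norm_conj (hU : ∀ g, Ψ g ∈ unitary (E →L[ℂ] E)) (x g : G) :
    ‖Ψ (x * g * x⁻¹) - 1‖ = ‖Ψ g - 1‖ := by
  have h : Ψ (x * g * x⁻¹) - 1 = Ψ x * (Ψ g - 1) * Ψ x⁻¹ := by
    rw [mul_sub, sub_mul, mul_one, map_mul_inv, map_mul, map_mul]
  rw [h, CStarRing.norm_mul_mem_unitary _ (hU _), CStarRing.norm_mem_unitary_mul _ (hU _)]

theorem norm_diff (hU : ∀ g, Ψ g ∈ unitary (E →L[ℂ] E)) (g h : G) :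
    ‖Ψ (g⁻¹ * h) - 1‖ = ‖Ψ h - Ψ g‖ := by
  have e : Ψ (g⁻¹ * h) - 1 = Ψ g⁻¹ * (Ψ h - Ψ g) := by
    rw [mul_sub, map_inv_mul, map_mul]
  rw [e, CStarRing.norm_mem_unitary_mul _ (hU _)]

theorem norm_inv (hU : ∀ g, Ψ g ∈ unitary (E →L[ℂ] E)) (g : G) : ‖Ψ g⁻¹ - 1‖ = ‖Ψ g - 1‖ := by
  have h := norm_diff hU g 1
  rw [mul_one, map_one] at h
  rw [h, norm_sub_rev]

theorem norm_comm (hU : ∀ g, Ψ g ∈ unitary (E →L[ℂ] E)) (a b : G) :
    ‖Ψ ⁅a, b⁆ - 1‖ ≤ 2 * ‖Ψ a - 1‖ * ‖Ψ b - 1‖ := by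
  have h : Ψ ⁅a, b⁆ - 1 = ((Ψ a - 1) * (Ψ b - 1) - (Ψ b - 1) * (Ψ a - 1)) * Ψ (b * a)⁻¹ := by
    have e1 : (Ψ a - 1) * (Ψ b - 1) - (Ψ b - 1) * (Ψ a - 1) = Ψ (a * b) - Ψ (b * a) := by
      rw [map_mul, map_mul]; noncomm_ring
    rw [e1, sub_mul, map_mul_inv, ← map_mul]
    congr 2
    rw [commutatorElement_def]; group
  rw [h, CStarRing.norm_mul_mem_unitary _ (hU _)]
  calc ‖(Ψ a - 1) * (Ψ b - 1) - (Ψ b - 1) * (Ψ a - 1)‖
      ≤ ‖(Ψ a - 1) * (Ψ b - 1)‖ + ‖(Ψ b - 1) * (Ψ a - 1)‖ := norm_sub_le _ _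
    _ ≤ ‖Ψ a - 1‖ * ‖Ψ b - 1‖ + ‖Ψ b - 1‖ * ‖Ψ a - 1‖ :=
        add_le_add (norm_mul_le _ _) (norm_mul_le _ _)
    _ = 2 * ‖Ψ a - 1‖ * ‖Ψ b - 1‖ := by ring

/-- a nontrivial element of finite order has an eigenvalue different from 1 -/
theorem exists_eig (hinj : Function.Injective Ψ) [Finite G] (c : G) (hc : c ≠ 1) :
    ∃ (z : ℂ) (v : E), z ≠ 1 ∧ v ≠ 0 ∧ Ψ c v = z • v := by
  set T : Module.End ℂ E := (Ψ c : E →L[ℂ] E).toLinearMap with hT
  let V : Submodule ℂ E := LinearMap.range (T - 1)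
  have hTpow : ∀ (n : ℕ) (v : E), (T ^ n) v = Ψ (c ^ n) v := by
    intro n
    induction n with
    | zero => intro v; simp
    | succ n ih =>
      intro v
      rw [pow_succ', Module.End.mul_apply, ih, pow_succ', map_mul]
      rfl
  have hne : V ≠ ⊥ := by
    intro h
    apply hc
    apply hinj
    rw [map_one]
    ext v
    have h1 : (T - 1) v ∈ V := LinearMap.mem_range_self _ v
    rw [h, Submodule.mem_bot, LinearMap.sub_apply, sub_eq_zero] at h1
    exact h1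
  have hmaps : ∀ v ∈ V, T v ∈ V := by
    rintro _ ⟨w, rfl⟩
    refine ⟨T w, ?_⟩
    simp [LinearMap.sub_apply, map_sub]
  have : Nontrivial V := Submodule.nontrivial_iff_ne_bot.2 hne
  obtain ⟨z, hz⟩ := Module.End.exists_eigenvalue (T.restrict hmaps)
  obtain ⟨v, hv⟩ := hz.exists_hasEigenvector
  have hv0 : (v : E) ≠ 0 := by
    intro h
    exact hv.2 (Subtype.ext h)
  have hvz : T v = z • (v : E) := by
    have := congrArg (Subtype.val) hv.apply_eq_smul
    simpa using this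
  refine ⟨z, v, ?_, hv0, hvz⟩
  intro hz1
  rw [hz1, one_smul] at hvz
  apply hv0
  obtain ⟨w, hw⟩ := v.2
  set n := orderOf c with hn
  have hnpos : 0 < n := orderOf_pos c
  have h1 : ∀ i : ℕ, (T ^ i) (v : E) = v := by
    intro i
    induction i with
    | zero => simp
    | succ i ih => rw [pow_succ, Module.End.mul_apply, hvz, ih]
  have h2 : ∑ i ∈ Finset.range n, (T ^ i) (v : E) = 0 := by
    have h3 : ∀ i : ℕ, (T ^ i) (v : E) = (T ^ (i + 1)) w - (T ^ i) w := by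
      intro i
      rw [← hw, LinearMap.sub_apply, map_sub, pow_succ, Module.End.mul_apply]
      rfl
    rw [Finset.sum_congr rfl (fun i _ => h3 i), Finset.sum_range_sub (fun i => (T ^ i) w)]
    rw [hTpow, hn, pow_orderOf_eq_one]
    simp
  rw [Finset.sum_congr rfl (fun i _ => h1 i), Finset.sum_const, Finset.card_range] at h2
  rw [← Nat.cast_smul_eq_nsmul ℂ] at h2
  rcases smul_eq_zero.1 h2 with h4 | h4
  · have h5 : n = 0 := by exact_mod_cast h4
    omega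
  · exact h4

theorem key2 (hU : ∀ g, Ψ g ∈ unitary (E →L[ℂ] E)) (hinj : Function.Injective Ψ) [Finite G]
    (a b : G) (hc : a * ⁅a, b⁆ = ⁅a, b⁆ * a) (hb : ‖Ψ b - 1‖ < 1) : ⁅a, b⁆ = 1 := by
  by_contra hne
  set c := ⁅a, b⁆⁻¹ with hcdef
  have hc1 : c ≠ 1 := by
    intro h
    exact hne (inv_eq_one.1 h)
  have hca : a * c = c * a := by
    rw [hcdef]
    have h1 : Commute a ⁅a, b⁆ := hc
    exact h1.inv_right
  have hbab : b * a * b⁻¹ = c * a := by
    rw [hcdef, commutatorElement_def]; group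
  obtain ⟨z, v0, hz, hv0, hv0z⟩ := exists_eig hinj c hc1
  set T : Module.End ℂ E := (Ψ c : E →L[ℂ] E).toLinearMap with hT
  set A : Module.End ℂ E := (Ψ a : E →L[ℂ] E).toLinearMap with hA
  let V : Submodule ℂ E := Module.End.eigenspace T z
  have hmaps : ∀ v ∈ V, A v ∈ V := by
    intro v hv
    have h1 : T v = z • v := Module.End.mem_eigenspace_iff.1 hv
    apply Module.End.mem_eigenspace_iff.2
    have h2 : T (A v) = A (T v) := by
      have := congrArg (fun X : E →L[ℂ] E => X v) (congrArg Ψ hca)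
      simp only [map_mul] at this
      exact this.symm
    rw [h2, h1, map_smul]
  have hmem : v0 ∈ V := Module.End.mem_eigenspace_iff.2 hv0z
  have : Nontrivial V := ⟨⟨⟨v0, hmem⟩, 0, fun h => hv0 (congrArg Subtype.val h)⟩⟩
  obtain ⟨x, hx⟩ := Module.End.exists_eigenvalue (A.restrict hmaps)
  obtain ⟨w, hw⟩ := hx.exists_hasEigenvector
  set v : E := (w : E) with hv
  have hvne : v ≠ 0 := by
    intro h
    exact hw.2 (Subtype.ext h)
  have hAv : Ψ a v = x • v := by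
    have h1 : A (w : E) = x • (w : E) := by
      have := congrArg (Subtype.val) hw.apply_eq_smul
      simpa using this
    exact h1
  have hTv : Ψ c v = z • v := Module.End.mem_eigenspace_iff.1 w.2
  set u : E := Ψ b⁻¹ v with hu
  have hAu : Ψ a u = (z * x) • u := by
    have h1 : Ψ (b * a * b⁻¹) v = Ψ (c * a) v := by rw [hbab]
    have h2 : Ψ (c * a) v = (z * x) • v := by
      rw [map_mul]
      change Ψ c (Ψ a v) = _
      rw [hAv, map_smul, hTv, smul_smul, mul_comm]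
    have h3 : Ψ (b * a * b⁻¹) v = Ψ b (Ψ a u) := by
      rw [map_mul, map_mul]; rfl
    have h4 : Ψ b (Ψ a u) = (z * x) • v := by rw [← h3, h1, h2]
    have h5 : Ψ b⁻¹ (Ψ b (Ψ a u)) = Ψ a u := by
      have := congrArg (fun X : E →L[ℂ] E => X (Ψ a u)) (map_inv_mul Ψ b)
      exact this
    rw [← h5, h4, map_smul]
  have horth : ⟪v, u⟫ = 0 := by
    have h1 := inner_map hU a v u
    rw [hAv, hAu, inner_smul_left, inner_smul_right] at h1
    have h2 : (starRingEnd ℂ) x * x = 1 := by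
      have h3 := norm_map hU a v
      rw [hAv, norm_smul] at h3
      have h4 : ‖x‖ = 1 := by
        have h5 : ‖v‖ ≠ 0 := norm_ne_zero_iff.2 hvne
        exact mul_right_cancel₀ h5 (by rw [h3, one_mul])
      rw [Complex.conj_mul', h4]
      simp
    have h6 : (starRingEnd ℂ) x * (z * x * ⟪v, u⟫) = z * ⟪v, u⟫ := by
      calc (starRingEnd ℂ) x * (z * x * ⟪v, u⟫) = ((starRingEnd ℂ) x * x) * (z * ⟪v, u⟫) := by ring
        _ = z * ⟪v, u⟫ := by rw [h2, one_mul]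
    rw [h6] at h1
    have h7 : (z - 1) * ⟪v, u⟫ = 0 := by rw [sub_mul, one_mul, h1, sub_self]
    rcases mul_eq_zero.1 h7 with h8 | h8
    · exact absurd (sub_eq_zero.1 h8) hz
    · exact h8
  have hnu : ‖u‖ = ‖v‖ := norm_map hU _ _
  have hle : ‖u - v‖ ≤ ‖Ψ b - 1‖ * ‖v‖ := by
    have h1 : u - v = (Ψ b⁻¹ - 1) v := by
      rw [_root_.sub_apply]; rfl
    rw [h1, ← norm_inv hU b]
    exact ContinuousLinearMap.le_opNorm _ _
  have hvpos : 0 < ‖v‖ := norm_pos_iff.2 hvne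
  have hlt : ‖u - v‖ < ‖v‖ := by
    calc ‖u - v‖ ≤ ‖Ψ b - 1‖ * ‖v‖ := hle
      _ < 1 * ‖v‖ := mul_lt_mul_of_pos_right hb hvpos
      _ = ‖v‖ := one_mul _
  have hsq : ‖u - v‖ ^ 2 = ‖u‖ ^ 2 + ‖v‖ ^ 2 := by
    have h1 : ⟪u, v⟫ = 0 := by
      rw [← inner_conj_symm, horth, map_zero]
    have h2 := @norm_sub_sq ℂ E _ _ _ u v
    rw [h1] at h2
    simpa using h2
  rw [hnu] at hsq
  nlinarith [norm_nonneg (u - v)]

theorem key3 (hU : ∀ g, Ψ g ∈ unitary (E →L[ℂ] E)) (hinj : Function.Injective Ψ) [Finite G]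
    (a b : G) (ha : ‖Ψ a - 1‖ < 1 / 2) (hb : ‖Ψ b - 1‖ < 1 / 2) : a * b = b * a := by
  let s : ℕ → G := fun i => (fun x => ⁅a, x⁆)^[i] b
  have hs : ∀ i, s (i + 1) = ⁅a, s i⁆ := fun i => Function.iterate_succ_apply' _ _ _
  set r : ℝ := 2 * ‖Ψ a - 1‖ with hr
  have hr0 : 0 ≤ r := by positivity
  have hr1 : r < 1 := by linarith
  have hbound : ∀ i, ‖Ψ (s i) - 1‖ ≤ r ^ i * (1 / 2) := by
    intro i
    induction i with
    | zero => simpa [s] using hb.le
    | succ i ih =>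
      rw [hs]
      calc ‖Ψ ⁅a, s i⁆ - 1‖ ≤ 2 * ‖Ψ a - 1‖ * ‖Ψ (s i) - 1‖ := norm_comm hU a (s i)
        _ ≤ r * (r ^ i * (1 / 2)) := mul_le_mul_of_nonneg_left ih hr0
        _ = r ^ (i + 1) * (1 / 2) := by ring
  have hlt1 : ∀ i, ‖Ψ (s i) - 1‖ < 1 := by
    intro i
    have h1 : r ^ i ≤ 1 := pow_le_one₀ hr0 hr1.le
    have := hbound i
    linarith
  have hex : ∃ i, s i = 1 := by
    by_contra hcon
    push Not at hcon
    have hfin : (Set.range fun g : {g : G // g ≠ 1} => ‖Ψ g.1 - 1‖).Finite := Set.finite_range _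
    have hne : ∃ g : G, g ≠ 1 := ⟨s 0, hcon 0⟩
    obtain ⟨g0, hg0⟩ := hne
    have : Nonempty {g : G // g ≠ 1} := ⟨⟨g0, hg0⟩⟩
    obtain ⟨g1, hg1⟩ := Finite.exists_min (fun g : {g : G // g ≠ 1} => ‖Ψ g.1 - 1‖)
    have hpos : 0 < ‖Ψ g1.1 - 1‖ := by
      rw [norm_pos_iff, sub_ne_zero]
      intro h
      exact g1.2 (hinj (by rw [h, map_one]))
    obtain ⟨i, hi⟩ := exists_pow_lt_of_lt_one hpos hr1
    have h1 := hg1 ⟨s i, hcon i⟩
    have h2 := hbound i
    have h3 : 0 ≤ r ^ i := pow_nonneg hr0 i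
    simp only at h1
    linarith
  obtain ⟨i, hi⟩ := hex
  have hdown : ∀ i, s i = 1 → s 1 = 1 := by
    intro i
    induction i with
    | zero =>
      intro h
      rw [hs, h]
      exact commutatorElement_one_right a
    | succ i ih =>
      intro h
      rcases Nat.eq_zero_or_pos i with h0 | h0
      · rw [h0] at h; exact h
      obtain ⟨j, rfl⟩ := Nat.exists_eq_succ_of_ne_zero h0.ne'
      apply ih
      have h1 : s (j + 1) = ⁅a, s j⁆ := hs j
      have h2 : ⁅a, s (j + 1)⁆ = 1 := by rw [← hs]; exact h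
      have h3 : a * s (j + 1) = s (j + 1) * a := commutatorElement_eq_one_iff_mul_comm.1 h2
      rw [h1] at h3
      rw [Nat.succ_eq_add_one, h1]
      exact key2 hU hinj a (s j) h3 (hlt1 j)
  have h1 := hdown i hi
  rw [hs] at h1
  exact commutatorElement_eq_one_iff_mul_comm.1 h1

/-- the core: bounded index -/
theorem core (E : Type) [NormedAddCommGroup E] [InnerProductSpace ℂ E] [FiniteDimensional ℂ E] :
    ∃ J : ℕ, ∀ (G : Type) [Group G] [Finite G] (Ψ : G →* (E →L[ℂ] E)),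
      (∀ g, Ψ g ∈ unitary (E →L[ℂ] E)) → Function.Injective Ψ →
      ∃ N : Subgroup G, N.Normal ∧ (∀ a ∈ N, ∀ b ∈ N, a * b = b * a) ∧ N.index ≤ J := by
  have : ProperSpace (E →L[ℂ] E) := FiniteDimensional.proper ℂ _
  have hcomp : IsCompact (Metric.closedBall (0 : E →L[ℂ] E) 1) := isCompact_closedBall _ _
  obtain ⟨t, -, htfin, htc⟩ := hcomp.finite_cover_balls (show (0 : ℝ) < 1 / 4 by norm_num)
  refine ⟨t.ncard, ?_⟩
  intro G _ _ Ψ hU hinj
  let S : Set G := {g | ‖Ψ g - 1‖ < 1 / 2}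
  have hconj : ∀ x g : G, g ∈ S → x * g * x⁻¹ ∈ S := by
    intro x g hg
    change ‖Ψ (x * g * x⁻¹) - 1‖ < 1 / 2
    rw [norm_conj hU]
    exact hg
  refine ⟨Subgroup.closure S, ?_, ?_, ?_⟩
  · refine ⟨fun n hn g => ?_⟩
    induction hn using Subgroup.closure_induction with
    | mem x hx => exact Subgroup.subset_closure (hconj g x hx)
    | one => simp
    | mul x y _ _ hx hy =>
      have : g * (x * y) * g⁻¹ = (g * x * g⁻¹) * (g * y * g⁻¹) := by group
      rw [this]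
      exact mul_mem hx hy
    | inv x _ hx =>
      have : g * x⁻¹ * g⁻¹ = (g * x * g⁻¹)⁻¹ := by group
      rw [this]
      exact inv_mem hx
  · intro a ha b hb
    have h1 : ∀ x ∈ S, ∀ y ∈ S, x * y = y * x := fun x hx y hy => key3 hU hinj x y hx hy
    have h2 : Subgroup.closure S ≤ Subgroup.centralizer (Subgroup.closure S : Set G) := by
      apply (Subgroup.closure_le _).2
      intro x hx
      rw [SetLike.mem_coe, Subgroup.mem_centralizer_iff]
      intro y hy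
      have h3 : Subgroup.closure S ≤ Subgroup.centralizer {x} := by
        apply (Subgroup.closure_le _).2
        intro y hy
        rw [SetLike.mem_coe, Subgroup.mem_centralizer_iff]
        intro z hz
        rw [Set.mem_singleton_iff.1 hz]
        exact h1 x hx y hy
      have h4 := Subgroup.mem_centralizer_iff.1 (h3 hy) x rfl
      exact h4.symm
    have h5 := Subgroup.mem_centralizer_iff.1 (h2 hb) a ha
    exact h5
  · classical
    have hball : ∀ g : G, Ψ g ∈ Metric.closedBall (0 : E →L[ℂ] E) 1 := by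
      intro g
      rw [mem_closedBall_zero_iff]
      refine ContinuousLinearMap.opNorm_le_bound _ (by norm_num) ?_
      intro v
      rw [norm_map hU, one_mul]
    have hex : ∀ g : G, ∃ x ∈ t, dist (Ψ g) x < 1 / 4 := by
      intro g
      have := htc (hball g)
      simp only [Set.mem_iUnion, Metric.mem_ball] at this
      obtain ⟨x, hx, h⟩ := this
      exact ⟨x, hx, h⟩
    choose f hf1 hf2 using hex
    have : Finite t := htfin.to_subtype
    rw [Subgroup.index, ← Nat.card_coe_set_eq]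
    refine Nat.card_le_card_of_injective
      (fun q : G ⧸ Subgroup.closure S => (⟨f q.out, hf1 _⟩ : t)) ?_
    intro q q' h
    have h1 : f q.out = f q'.out := congrArg Subtype.val h
    have h2 : dist (Ψ q.out) (Ψ q'.out) < 1 / 2 := by
      calc dist (Ψ q.out) (Ψ q'.out) ≤ dist (Ψ q.out) (f q.out) + dist (f q.out) (Ψ q'.out) :=
            dist_triangle _ _ _
        _ < 1 / 4 + 1 / 4 := by
            refine add_lt_add (hf2 _) ?_
            rw [h1, dist_comm]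
            exact hf2 _
        _ = 1 / 2 := by norm_num
    have h3 : q.out⁻¹ * q'.out ∈ Subgroup.closure S := by
      apply Subgroup.subset_closure
      change ‖Ψ (q.out⁻¹ * q'.out) - 1‖ < 1 / 2
      rw [norm_diff hU, ← dist_eq_norm, dist_comm]
      exact h2
    have h4 := (QuotientGroup.eq (s := Subgroup.closure S) (a := q.out) (b := q'.out)).2 h3
    rwa [QuotientGroup.out_eq', QuotientGroup.out_eq'] at h4

end Core

section Unitarise

open Matrix
open scoped MatrixOrder ComplexOrder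

variable {ι : Type} [Fintype ι] [DecidableEq ι]

/-- a finite matrix group is conjugate to a unitary one -/
theorem unitarise (G : Type) [Group G] [Finite G] (φ : G →* Matrix.GeneralLinearGroup ι ℂ) :
    ∃ Q : Matrix ι ι ℂ, IsUnit Q.det ∧ ∀ g : G,
      (Q * (φ g : Matrix ι ι ℂ) * Q⁻¹)ᴴ * (Q * (φ g : Matrix ι ι ℂ) * Q⁻¹) = 1 := by
  classical
  cases nonempty_fintype G
  set P : Matrix ι ι ℂ := ∑ g : G, (φ g : Matrix ι ι ℂ)ᴴ * (φ g : Matrix ι ι ℂ) with hP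
  have hpos : P.PosDef := by
    rw [hP, ← Finset.add_sum_erase _ _ (Finset.mem_univ (1 : G))]
    apply Matrix.PosDef.add_posSemidef
    · rw [map_one]
      simp only [Units.val_one, conjTranspose_one, one_mul]
      exact Matrix.PosDef.one
    · exact Matrix.posSemidef_sum _ (fun g _ => Matrix.posSemidef_conjTranspose_mul_self _)
  have hinv : ∀ g : G, (φ g : Matrix ι ι ℂ)ᴴ * P * (φ g : Matrix ι ι ℂ) = P := by
    intro g
    rw [hP, Finset.mul_sum, Finset.sum_mul]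
    refine Fintype.sum_equiv (Equiv.mulRight g) _ _ ?_
    intro x
    rw [Equiv.coe_mulRight, map_mul, Units.val_mul, conjTranspose_mul]
    simp only [Matrix.mul_assoc]
  obtain ⟨Q, hQ⟩ := CStarAlgebra.nonneg_iff_eq_star_mul_self.mp hpos.posSemidef.nonneg
  have hQ' : P = Qᴴ * Q := hQ
  have hdetP : IsUnit P.det := by
    have := hpos.det_pos
    exact (ne_of_gt this).isUnit
  have hdetQ : IsUnit Q.det := by
    rw [hQ', Matrix.det_mul] at hdetP
    exact isUnit_of_mul_isUnit_right hdetP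
  refine ⟨Q, hdetQ, ?_⟩
  intro g
  have h1 : Q * Q⁻¹ = 1 := Matrix.mul_nonsing_inv _ hdetQ
  have h2 : (Q⁻¹)ᴴ * Qᴴ = 1 := by
    rw [← conjTranspose_mul, h1, conjTranspose_one]
  have h3 := hinv g
  rw [hQ'] at h3
  calc (Q * (φ g : Matrix ι ι ℂ) * Q⁻¹)ᴴ * (Q * (φ g : Matrix ι ι ℂ) * Q⁻¹)
      = (Q⁻¹)ᴴ * ((φ g : Matrix ι ι ℂ)ᴴ * (Qᴴ * Q) * (φ g : Matrix ι ι ℂ)) * Q⁻¹ := by
        simp only [conjTranspose_mul, Matrix.mul_assoc]
    _ = (Q⁻¹)ᴴ * (Qᴴ * Q) * Q⁻¹ := by rw [h3]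
    _ = ((Q⁻¹)ᴴ * Qᴴ) * (Q * Q⁻¹) := by simp only [Matrix.mul_assoc]
    _ = 1 := by rw [h1, h2, one_mul]

end Unitarise

end Pool.Agent.Work.MP_936a99_bb.JORC

namespace Pool.Agent.Work.MP_936a99_bb

open Matrix JORC

theorem jorc : Stmt_JORC := by
  intro ι _ _
  obtain ⟨J, hJ⟩ := core (EuclideanSpace ℂ ι)
  refine ⟨J, ?_⟩
  intro G _ _ φ hφ
  obtain ⟨Q, hQ, hun⟩ := unitarise G φ
  have hQ1 : Q⁻¹ * Q = 1 := Matrix.nonsing_inv_mul _ hQ
  have hQ2 : Q * Q⁻¹ = 1 := Matrix.mul_nonsing_inv _ hQ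
  let χ : G →* Matrix ι ι ℂ :=
    { toFun := fun g => Q * (φ g : Matrix ι ι ℂ) * Q⁻¹
      map_one' := by
        rw [map_one, Units.val_one, Matrix.mul_one, hQ2]
      map_mul' := by
        intro g h
        rw [map_mul, Units.val_mul]
        calc Q * ((φ g : Matrix ι ι ℂ) * (φ h : Matrix ι ι ℂ)) * Q⁻¹
            = Q * (φ g : Matrix ι ι ℂ) * 1 * (φ h : Matrix ι ι ℂ) * Q⁻¹ := by
              rw [Matrix.mul_one]; simp only [Matrix.mul_assoc]
          _ = Q * (φ g : Matrix ι ι ℂ) * Q⁻¹ * (Q * (φ h : Matrix ι ι ℂ) * Q⁻¹) := by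
              rw [← hQ1]; simp only [Matrix.mul_assoc] }
  let T := Matrix.toEuclideanCLM (n := ι) (𝕜 := ℂ)
  let Ψ : G →* (EuclideanSpace ℂ ι →L[ℂ] EuclideanSpace ℂ ι) :=
    (T : Matrix ι ι ℂ →* (EuclideanSpace ℂ ι →L[ℂ] EuclideanSpace ℂ ι)).comp χ
  have hΨ : ∀ g, Ψ g = T (χ g) := fun g => rfl
  have hstar : ∀ g, star (χ g) * χ g = 1 := fun g => hun g
  have hstar' : ∀ g, χ g * star (χ g) = 1 := fun g => mul_eq_one_comm.1 (hstar g)
  refine hJ G Ψ ?_ ?_
  · intro g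
    rw [Unitary.mem_iff, hΨ, ← map_star T, ← map_mul, ← map_mul, hstar, hstar', map_one]
    exact ⟨rfl, rfl⟩
  · intro g h e
    rw [hΨ, hΨ] at e
    have e1 : χ g = χ h := T.injective e
    have e2 : Q * (φ g : Matrix ι ι ℂ) * Q⁻¹ = Q * (φ h : Matrix ι ι ℂ) * Q⁻¹ := e1
    apply hφ
    apply Units.ext
    calc (φ g : Matrix ι ι ℂ) = (Q⁻¹ * Q) * (φ g : Matrix ι ι ℂ) * (Q⁻¹ * Q) := by
          rw [hQ1, Matrix.one_mul, Matrix.mul_one]
      _ = Q⁻¹ * (Q * (φ g : Matrix ι ι ℂ) * Q⁻¹) * Q := by simp only [Matrix.mul_assoc]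
      _ = Q⁻¹ * (Q * (φ h : Matrix ι ι ℂ) * Q⁻¹) * Q := by rw [e2]
      _ = (Q⁻¹ * Q) * (φ h : Matrix ι ι ℂ) * (Q⁻¹ * Q) := by simp only [Matrix.mul_assoc]
      _ = (φ h : Matrix ι ι ℂ) := by rw [hQ1, Matrix.one_mul, Matrix.mul_one]

end Pool.Agent.Work.MP_936a99_bb
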