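import Pool.Agent.Work.MP_936a99_bb.Interface

/-!
# Block LIFTP (helper83)

Representations of groups of order prime to `p` lift from `F_p` to `ℤ_p`.
-/

set_option autoImplicit false

namespace Pool.Agent.Work.MP_936a99_bb

namespace LIFTP

/-! ### The averaging step in an algebra -/

section step

variable {R A G : Type} [CommRing R] [Ring A] [Algebra R A] [Group G] [Fintype G]

/-- the average -/
def avg (n : R) (σ s : G → A) (g : G) : A := n • ∑ x, σ (g * x) * s x

lemma avg_eq {n q : R} (hn : n * (Fintype.card G : R) = 1) {σ s : G → A} {e : G → G → A}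
    (he : ∀ g x, σ (g * x) * s x = σ g + q • e g x) (g : G) :
    avg n σ s g = σ g + q • (n • ∑ x, e g x) := by
  unfold avg
  rw [Finset.sum_congr rfl fun x _ => he g x, Finset.sum_add_distrib, Finset.sum_const,
    Finset.card_univ, ← Finset.smul_sum, smul_add]
  congr 1
  · rw [← Nat.cast_smul_eq_nsmul R, smul_smul, hn, one_smul]
  · rw [smul_comm]

lemma avg_mul {n q : R} (hn : n * (Fintype.card G : R) = 1) {σ s : G → A}
    (hs : ∀ x, s x * σ x = 1) {e : G → G → A}
    (he : ∀ g x, σ (g * x) * s x = σ g + q • e g x) (g h : G) :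
    avg n σ s (g * h) - avg n σ s g * avg n σ s h =
      (q * q) • (n • (∑ x, e g (h * x) * e h x) - (n • ∑ x, e g x) * (n • ∑ x, e h x)) := by
  have h1 : ∀ x, σ (g * h * x) * s x = σ g * σ h + q • (e g (h * x) * σ h) +
      q • (σ g * e h x) + (q * q) • (e g (h * x) * e h x) := by
    intro x
    have h2 : σ (g * h * x) * s x = (σ (g * (h * x)) * s (h * x)) * (σ (h * x) * s x) := by
      rw [mul_assoc g h x, mul_assoc (σ (g * (h * x))), ← mul_assoc (s (h * x)), hs, one_mul]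
    rw [h2, he, he]
    simp only [add_mul, mul_add, smul_mul_assoc, mul_smul_comm]
    module
  have h3 : ∑ x, e g (h * x) = ∑ x, e g x :=
    Fintype.sum_equiv (Equiv.mulLeft h) _ _ fun x => rfl
  have h4 : avg n σ s (g * h) = σ g * σ h + q • ((n • ∑ x, e g x) * σ h) +
      q • (σ g * (n • ∑ x, e h x)) + (q * q) • (n • ∑ x, e g (h * x) * e h x) := by
    unfold avg
    rw [Finset.sum_congr rfl fun x _ => h1 x, Finset.sum_add_distrib, Finset.sum_add_distrib,
      Finset.sum_add_distrib, Finset.sum_const, Finset.card_univ, ← Finset.smul_sum,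
      ← Finset.smul_sum, ← Finset.smul_sum, ← Finset.sum_mul, ← Finset.mul_sum, h3]
    simp only [smul_add, smul_mul_assoc, mul_smul_comm]
    rw [← Nat.cast_smul_eq_nsmul R, smul_smul, hn, one_smul, smul_comm n q, smul_comm n q,
      smul_comm n (q * q)]
  rw [h4, avg_eq hn he g, avg_eq hn he h]
  simp only [add_mul, mul_add, smul_mul_assoc, mul_smul_comm]
  module

end step

/-! ### The `p`-adic integers -/

variable {p : ℕ} [Fact p.Prime]

lemma isUnit_of_toZMod {x : ℤ_[p]} (hx : IsUnit (PadicInt.toZMod x)) : IsUnit x := by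
  by_contra h
  have h1 : x ∈ IsLocalRing.maximalIdeal ℤ_[p] := (IsLocalRing.mem_maximalIdeal x).mpr h
  rw [← PadicInt.ker_toZMod, RingHom.mem_ker] at h1
  rw [h1] at hx
  exact not_isUnit_zero hx

variable {ι : Type} [Fintype ι] [DecidableEq ι]

lemma isUnit_of_map {M : Matrix ι ι ℤ_[p]}
    (hM : IsUnit (M.map (PadicInt.toZMod : ℤ_[p] →+* ZMod p))) : IsUnit M := by
  rw [Matrix.isUnit_iff_isUnit_det] at hM ⊢
  apply isUnit_of_toZMod
  rw [RingHom.map_det]
  exact hM

lemma toZMod_eq_iff (x y : ℤ_[p]) :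
    PadicInt.toZMod x = PadicInt.toZMod y ↔ ‖x - y‖ ≤ (p : ℝ) ^ (-(1 : ℕ) : ℤ) := by
  rw [PadicInt.norm_le_pow_iff_mem_span_pow, pow_one, ← PadicInt.maximalIdeal_eq_span_p,
    ← PadicInt.ker_toZMod, RingHom.mem_ker, map_sub, sub_eq_zero]

lemma card_unit {N : ℕ} (hN : ¬ p ∣ N) : IsUnit (N : ℤ_[p]) := by
  apply isUnit_of_toZMod
  rw [map_natCast, isUnit_iff_ne_zero]
  intro h
  exact hN ((ZMod.natCast_eq_zero_iff _ _).mp h)

variable {G : Type} [Group G] [Fintype G]

/-- the approximate lifts -/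
def F (φ : G → Matrix ι ι (ZMod p)) (k : ℕ) : Set (G → Matrix ι ι ℤ_[p]) :=
  {σ | (∀ g i j, PadicInt.toZMod (σ g i j) = φ g i j) ∧
    ∀ g h i j, ‖(σ (g * h) - σ g * σ h) i j‖ ≤ (p : ℝ) ^ (-k : ℤ)}

lemma F_closed (φ : G → Matrix ι ι (ZMod p)) (k : ℕ) : IsClosed (F φ k) := by
  have h0 : ∀ g i j, ∃ x : ℤ_[p], PadicInt.toZMod x = φ g i j := fun g i j =>
    ZMod.ringHom_surjective PadicInt.toZMod _
  choose y hy using h0
  have h1 : F φ k = (⋂ g, ⋂ i, ⋂ j, {σ : G → Matrix ι ι ℤ_[p] |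
      ‖σ g i j - y g i j‖ ≤ (p : ℝ) ^ (-(1 : ℕ) : ℤ)}) ∩ ⋂ g, ⋂ h, ⋂ i, ⋂ j,
      {σ : G → Matrix ι ι ℤ_[p] | ‖(σ (g * h) - σ g * σ h) i j‖ ≤ (p : ℝ) ^ (-k : ℤ)} := by
    ext σ
    simp only [F, Set.mem_ofPred_eq, Set.mem_inter_iff, Set.mem_iInter]
    refine and_congr (forall_congr' fun g => forall_congr' fun i => forall_congr' fun j => ?_)
      Iff.rfl
    rw [← hy, toZMod_eq_iff]
  rw [h1]
  refine IsClosed.inter (isClosed_iInter fun g => isClosed_iInter fun i => isClosed_iInter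
    fun j => ?_) (isClosed_iInter fun g => isClosed_iInter fun h => isClosed_iInter fun i =>
      isClosed_iInter fun j => ?_)
  · refine isClosed_le ?_ continuous_const
    have h2 : Continuous fun σ : G → Matrix ι ι ℤ_[p] => σ g i j :=
      (continuous_apply_apply i j).comp (continuous_apply g)
    exact (h2.sub continuous_const).norm
  · refine isClosed_le ?_ continuous_const
    refine Continuous.norm ?_
    refine (continuous_apply_apply i j).comp ?_
    exact (continuous_apply (g * h)).sub ((continuous_apply g).matrix_mul (continuous_apply h))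

lemma F_anti (φ : G → Matrix ι ι (ZMod p)) (k : ℕ) : F φ (k + 1) ⊆ F φ k := by
  rintro σ ⟨h1, h2⟩
  refine ⟨h1, fun g h i j => (h2 g h i j).trans ?_⟩
  refine zpow_le_zpow_right₀ ?_ ?_
  · exact_mod_cast (Fact.out : p.Prime).one_lt.le
  · push_cast
    omega

lemma F_step (φ : G →* Matrix.GeneralLinearGroup ι (ZMod p)) (hG : ¬ p ∣ Fintype.card G)
    {k : ℕ} (hk : 1 ≤ k) (hne : (F (fun g => ((φ g : Matrix.GeneralLinearGroup ι (ZMod p)) :
      Matrix ι ι (ZMod p))) k).Nonempty) :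
    (F (fun g => ((φ g : Matrix.GeneralLinearGroup ι (ZMod p)) :
      Matrix ι ι (ZMod p))) (k + 1)).Nonempty := by
  obtain ⟨σ, hσ1, hσ2⟩ := hne
  obtain ⟨u, hu⟩ := card_unit (p := p) hG
  set n : ℤ_[p] := ((u⁻¹ : ℤ_[p]ˣ) : ℤ_[p]) with hn
  have hn1 : n * (Fintype.card G : ℤ_[p]) = 1 := by
    rw [hn, ← hu]
    exact Units.inv_mul u
  set q : ℤ_[p] := (p : ℤ_[p]) ^ k with hq
  have hmap : ∀ g, (σ g).map (PadicInt.toZMod : ℤ_[p] →+* ZMod p) =
      ((φ g : Matrix.GeneralLinearGroup ι (ZMod p)) : Matrix ι ι (ZMod p)) := by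
    intro g
    ext i j
    exact hσ1 g i j
  have hunit : ∀ g, IsUnit (σ g) := by
    intro g
    apply isUnit_of_map
    rw [hmap]
    exact (φ g).isUnit
  choose U hU using hunit
  set s : G → Matrix ι ι ℤ_[p] := fun g => ((U g)⁻¹ : (Matrix ι ι ℤ_[p])ˣ) with hs
  have hs1 : ∀ x, s x * σ x = 1 := by
    intro x
    rw [← hU x]
    exact Units.inv_mul (U x)
  have hs2 : ∀ x, σ x * s x = 1 := by
    intro x
    rw [← hU x]
    exact Units.mul_inv (U x)
  have hc : ∀ g h i j, ∃ c : ℤ_[p], (σ (g * h) - σ g * σ h) i j = q * c := by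
    intro g h i j
    have := (PadicInt.norm_le_pow_iff_mem_span_pow _ _).mp (hσ2 g h i j)
    rw [Ideal.mem_span_singleton'] at this
    obtain ⟨a, ha⟩ := this
    exact ⟨a, by rw [← ha, mul_comm]⟩
  choose c hc using hc
  set e : G → G → Matrix ι ι ℤ_[p] := fun g x => (Matrix.of (c g x)) * s x with hedef
  have he : ∀ g x, σ (g * x) * s x = σ g + q • e g x := by
    intro g x
    have h1 : σ (g * x) = σ g * σ x + q • Matrix.of (c g x) := by
      ext i j
      have := hc g x i j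
      rw [Matrix.sub_apply] at this
      rw [Matrix.add_apply, Matrix.smul_apply, Matrix.of_apply, smul_eq_mul, ← this]
      ring
    rw [h1, add_mul, mul_assoc, hs2, mul_one, smul_mul_assoc]
  refine ⟨avg n σ s, ?_, ?_⟩
  · intro g i j
    rw [avg_eq hn1 he g, Matrix.add_apply, Matrix.smul_apply, map_add, smul_eq_mul, map_mul,
      hσ1 g i j, hq, map_pow, map_natCast]
    rw [ZMod.natCast_self, zero_pow (by omega), zero_mul, add_zero]
  · intro g h i j
    rw [PadicInt.norm_le_pow_iff_mem_span_pow, avg_mul hn1 hs1 he g h, Matrix.smul_apply,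
      smul_eq_mul, Ideal.mem_span_singleton, hq, ← pow_add]
    refine dvd_mul_of_dvd_left (pow_dvd_pow _ (by omega)) _

lemma F_one (φ : G →* Matrix.GeneralLinearGroup ι (ZMod p)) :
    (F (fun g => ((φ g : Matrix.GeneralLinearGroup ι (ZMod p)) :
      Matrix ι ι (ZMod p))) 1).Nonempty := by
  have h0 : ∀ g i j, ∃ x : ℤ_[p], PadicInt.toZMod x =
      ((φ g : Matrix.GeneralLinearGroup ι (ZMod p)) : Matrix ι ι (ZMod p)) i j := fun g i j =>
    ZMod.ringHom_surjective PadicInt.toZMod _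
  choose y hy using h0
  refine ⟨fun g => Matrix.of (y g), fun g i j => hy g i j, fun g h i j => ?_⟩
  have hmap : ∀ g, (Matrix.of (y g)).map (PadicInt.toZMod : ℤ_[p] →+* ZMod p) =
      ((φ g : Matrix.GeneralLinearGroup ι (ZMod p)) : Matrix ι ι (ZMod p)) := by
    intro g
    ext i j
    exact hy g i j
  have h1 := (toZMod_eq_iff ((Matrix.of (y (g * h))) i j)
    ((Matrix.of (y g) * Matrix.of (y h)) i j)).mp ?_
  · rw [Matrix.sub_apply]
    exact h1
  · have h2 : PadicInt.toZMod ((Matrix.of (y g) * Matrix.of (y h)) i j) =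
        ((Matrix.of (y g) * Matrix.of (y h)).map (PadicInt.toZMod : ℤ_[p] →+* ZMod p)) i j := rfl
    rw [h2, Matrix.map_mul, hmap, hmap, Matrix.of_apply, hy, map_mul]
    rfl

end LIFTP

open LIFTP in
theorem liftp : Stmt_LIFTP := by
  intro ι _ _ p _ G _ _ φ hp hφ
  have : Fintype G := Fintype.ofFinite G
  rw [Nat.card_eq_fintype_card] at hp
  set Φ : G → Matrix ι ι (ZMod p) := fun g => ((φ g : Matrix.GeneralLinearGroup ι (ZMod p)) :
      Matrix ι ι (ZMod p)) with hΦ
  have hne : ∀ k, (F Φ (k + 1)).Nonempty := by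
    intro k
    induction k with
    | zero => exact F_one φ
    | succ k ih => exact F_step φ hp (by omega) ih
  have : CompactSpace (Matrix ι ι ℤ_[p]) :=
    inferInstanceAs (CompactSpace (ι → ι → ℤ_[p]))
  obtain ⟨ψ, hψ⟩ := IsCompact.nonempty_iInter_of_sequence_nonempty_isCompact_isClosed
    (fun k => F Φ (k + 1)) (fun k => F_anti Φ (k + 1)) hne (F_closed Φ (0 + 1)).isCompact
    (fun k => F_closed Φ (k + 1))
  rw [Set.mem_iInter] at hψ
  have hmul : ∀ g h, ψ (g * h) = ψ g * ψ h := by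
    intro g h
    ext i j
    have h1 : ∀ k : ℕ, ‖(ψ (g * h) - ψ g * ψ h) i j‖ ≤ (p : ℝ) ^ (-((k + 1 : ℕ)) : ℤ) :=
      fun k => (hψ k).2 g h i j
    have h2 : (ψ (g * h) - ψ g * ψ h) i j = 0 := by
      by_contra hne0
      have h3 : 0 < ‖(ψ (g * h) - ψ g * ψ h) i j‖ := norm_pos_iff.mpr hne0
      have hp1 : (1 : ℝ) < p := by exact_mod_cast (Fact.out : p.Prime).one_lt
      obtain ⟨k, hk⟩ := exists_pow_lt_of_lt_one h3 (inv_lt_one_of_one_lt₀ hp1)
      have h4 := h1 k
      have h5 : (p : ℝ) ^ (-((k + 1 : ℕ)) : ℤ) = ((p : ℝ)⁻¹) ^ (k + 1) := by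
        rw [zpow_neg, zpow_natCast, inv_pow]
      rw [h5] at h4
      have h6 : ((p : ℝ)⁻¹) ^ (k + 1) ≤ ((p : ℝ)⁻¹) ^ k :=
        pow_le_pow_of_le_one (by positivity) (inv_lt_one_of_one_lt₀ hp1).le (Nat.le_succ k)
      linarith
    rw [Matrix.sub_apply, sub_eq_zero] at h2
    exact h2
  have hmap : ∀ g, (ψ g).map (PadicInt.toZMod : ℤ_[p] →+* ZMod p) = Φ g := by
    intro g
    ext i j
    exact (hψ 0).1 g i j
  have hone : ψ 1 = 1 := by
    have hu : IsUnit (ψ 1) := by
      apply isUnit_of_map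
      rw [hmap]
      exact (φ 1).isUnit
    have h1 := hmul 1 1
    rw [mul_one] at h1
    have h2 : ψ 1 * 1 = ψ 1 * ψ 1 := by rw [mul_one]; exact h1
    exact (hu.mul_left_cancel h2).symm
  let Ψ : G →* Matrix ι ι ℤ_[p] :=
    { toFun := ψ
      map_one' := hone
      map_mul' := hmul }
  refine ⟨Ψ.toHomUnits, fun g h hgh => ?_⟩
  have h1 : ψ g = ψ h := by
    have := congrArg (fun u : (Matrix ι ι ℤ_[p])ˣ => (u : Matrix ι ι ℤ_[p])) hgh
    simpa [Ψ] using this
  apply hφ
  apply Units.ext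
  have h2 := hmap g
  rw [h1, hmap h] at h2
  exact h2.symm

end Pool.Agent.Work.MP_936a99_bb
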