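import Pool.Agent.Work.MP_936a99_bb.Interface

/-!
# MP_936a99_al, block BIG (helper45)

An irreducible subgroup `H` of `SL_m(F_p)`, `m < p`, whose order is divisible by `p` has at least
`p ^ (m ^ 2 - 1) / B(m)` elements: it contains the image of a polynomial map of bounded degree
whose derivative at the origin is invertible.
-/

set_option autoImplicit false

namespace Pool.Agent.Work.MP_936a99_bb

open Matrix Pool.Agent.Work.MP_936a99_al_h7

namespace BIG

/-- a product with only one factor different from one -/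
theorem prod_ofFn_single {A : Type*} [Monoid A] (a : A) :
    ∀ (k : ℕ) (i : Fin k), (List.ofFn (fun j : Fin k => if j = i then a else 1)).prod = a := by
  intro k
  induction k with
  | zero => intro i; exact i.elim0
  | succ k ih =>
    intro i
    rw [List.ofFn_succ, List.prod_cons]
    refine Fin.cases ?_ (fun i' => ?_) i
    · have h1 : (List.ofFn fun j : Fin k => if j.succ = (0 : Fin (k + 1)) then a else 1) =
          List.replicate k (1 : A) := by
        rw [← List.ofFn_const]
        congr 1
      rw [if_pos rfl, h1, List.prod_replicate, one_pow, mul_one]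
    · rw [if_neg (Fin.succ_ne_zero i').symm, one_mul]
      have h2 : (fun j : Fin k => if j.succ = i'.succ then a else (1 : A)) =
          fun j : Fin k => if j = i' then a else 1 := by
        funext j
        simp only [Fin.succ_inj]
      rw [h2]
      exact ih i'

/-- the polynomial `l (∏ i, ∑ a, X_i ^ a D i a) - l 1` -/
theorem generic {K A : Type*} [Field K] [Ring A] [Algebra K A] (k m : ℕ) (hm : 2 ≤ m)
    (D : Fin k → Fin m → A) (h0 : ∀ i, D i ⟨0, by omega⟩ = 1) (l : A →ₗ[K] K) :
    ∃ f : MvPolynomial (Fin k) K, f.totalDegree ≤ k * m ∧ f.coeff 0 = 0 ∧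
      (∀ i, f.coeff (Finsupp.single i 1) = l (D i ⟨1, by omega⟩)) ∧
      ∀ x : Fin k → K, MvPolynomial.eval x f =
        l ((List.ofFn fun i => ∑ a : Fin m, (x i) ^ (a : ℕ) • D i a).prod) - l 1 := by
  classical
  set M := MultilinearMap.mkPiAlgebraFin K k A with hM
  set E : (Fin k → Fin m) → (Fin k →₀ ℕ) := fun r =>
    Finsupp.equivFunOnFinite.symm (fun i => (r i : ℕ)) with hE
  have hEapp : ∀ r i, E r i = (r i : ℕ) := fun r i => rfl
  set F : MvPolynomial (Fin k) K :=
    ∑ r : Fin k → Fin m, MvPolynomial.monomial (E r) (l (M fun i => D i (r i))) with hF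
  have hone : M (fun _ => (1 : A)) = 1 := by
    rw [hM, MultilinearMap.mkPiAlgebraFin_apply_const, one_pow]
  refine ⟨F - MvPolynomial.C (l 1), ?_, ?_, ?_, ?_⟩
  · refine (MvPolynomial.totalDegree_sub_C_le _ _).trans ?_
    refine MvPolynomial.totalDegree_finsetSum_le (fun r _ => ?_)
    refine (MvPolynomial.totalDegree_monomial_le _ _).trans ?_
    rw [Finsupp.sum_fintype _ _ (fun _ => rfl)]
    calc ∑ i : Fin k, id (E r i) ≤ ∑ _i : Fin k, m :=
          Finset.sum_le_sum (fun i _ => by rw [id, hEapp]; exact (r i).2.le)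
      _ = k * m := by simp
  · rw [MvPolynomial.coeff_sub, hF, MvPolynomial.coeff_sum]
    rw [Finset.sum_eq_single (fun _ => (⟨0, by omega⟩ : Fin m))]
    · rw [MvPolynomial.coeff_monomial, if_pos, MvPolynomial.coeff_C, if_pos rfl]
      · have h1 : (fun i => D i (⟨0, by omega⟩ : Fin m)) = fun _ => (1 : A) := funext h0
        rw [h1, hone, sub_self]
      · ext i
        rw [hEapp]
        rfl
    · intro r _ hr
      rw [MvPolynomial.coeff_monomial, if_neg]
      intro h
      refine hr (funext fun i => Fin.ext ?_)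
      have h2 := DFunLike.congr_fun h i
      rw [hEapp] at h2
      simpa using h2
    · intro h
      exact absurd (Finset.mem_univ _) h
  · intro i
    rw [MvPolynomial.coeff_sub, hF, MvPolynomial.coeff_sum]
    rw [Finset.sum_eq_single (fun j => if j = i then (⟨1, by omega⟩ : Fin m) else ⟨0, by omega⟩)]
    · rw [MvPolynomial.coeff_monomial, if_pos, MvPolynomial.coeff_C, if_neg, sub_zero]
      · congr 1
        have h1 : (fun j => D j (if j = i then (⟨1, by omega⟩ : Fin m) else ⟨0, by omega⟩)) =
            fun j => if j = i then D i ⟨1, by omega⟩ else 1 := by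
          funext j
          by_cases hj : j = i
          · subst hj
            rw [if_pos rfl, if_pos rfl]
          · rw [if_neg hj, if_neg hj, h0]
        rw [h1, hM, MultilinearMap.mkPiAlgebraFin_apply]
        exact prod_ofFn_single _ k i
      · intro h
        have h2 := DFunLike.congr_fun h i
        simp at h2
      · ext j
        rw [hEapp]
        by_cases hj : j = i
        · subst hj
          simp
        · simp only [if_neg hj]
          rw [Finsupp.single_apply, if_neg (fun h => hj h.symm)]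
    · intro r _ hr
      rw [MvPolynomial.coeff_monomial, if_neg]
      intro h
      refine hr (funext fun j => Fin.ext ?_)
      have h2 := DFunLike.congr_fun h j
      rw [hEapp] at h2
      rw [h2]
      by_cases hj : j = i
      · subst hj
        simp
      · simp only [if_neg hj]
        rw [Finsupp.single_apply, if_neg (fun h => hj h.symm)]
    · intro h
      exact absurd (Finset.mem_univ _) h
  · intro x
    rw [map_sub, MvPolynomial.eval_C, hF, map_sum]
    congr 1
    have h1 : (List.ofFn fun i => ∑ a : Fin m, (x i) ^ (a : ℕ) • D i a).prod =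
        ∑ r : Fin k → Fin m, (∏ i, (x i) ^ (r i : ℕ)) • M fun i => D i (r i) := by
      rw [← MultilinearMap.mkPiAlgebraFin_apply (R := K), ← hM, MultilinearMap.map_sum]
      refine Finset.sum_congr rfl (fun r _ => ?_)
      rw [← MultilinearMap.map_smul_univ]
    rw [h1, map_sum]
    refine Finset.sum_congr rfl (fun r _ => ?_)
    rw [MvPolynomial.eval_monomial, map_smul, smul_eq_mul, mul_comm]
    congr 1
    rw [Finsupp.prod_fintype _ _ (fun _ => pow_zero _)]
    exact Finset.prod_congr rfl (fun i _ => by rw [hEapp])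

/-- there are `m ^ 2 - 1` linearly independent conjugates -/
theorem exists_indep {ι : Type} [Fintype ι] [DecidableEq ι] {p : ℕ} [Fact p.Prime]
    (H : Subgroup (SLI ι p)) (hI : Irr H) (X : Matrix ι ι (ZMod p)) (hX : X ≠ 0)
    (ht : X.trace = 0) :
    ∃ g : Fin (Fintype.card ι ^ 2 - 1) → SLI ι p, (∀ i, g i ∈ H) ∧
      LinearIndependent (ZMod p) (fun i => (g i : Matrix ι ι (ZMod p)) * X *
        (((g i)⁻¹ : SLI ι p) : Matrix ι ι (ZMod p))) := by
  set s : Set (Matrix ι ι (ZMod p)) := {Z : Matrix ι ι (ZMod p) | ∃ g ∈ H,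
      Z = (g : Matrix ι ι (ZMod p)) * X * ((g⁻¹ : SLI ι p) : Matrix ι ι (ZMod p))} with hs
  have h1 : LinearMap.ker (Matrix.traceLinearMap ι (ZMod p) (ZMod p)) ≤
      Submodule.span (ZMod p) s := by
    intro Y hY
    exact hI X hX ht Y (by simpa using hY)
  have h2 := Submodule.finrank_mono h1
  have h3 := LinearMap.finrank_range_add_finrank_ker (Matrix.traceLinearMap ι (ZMod p) (ZMod p))
  have h4 : Module.finrank (ZMod p) (LinearMap.range
      (Matrix.traceLinearMap ι (ZMod p) (ZMod p))) ≤ 1 := by
    refine (Submodule.finrank_le _).trans ?_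
    rw [Module.finrank_self]
  have h5 : Module.finrank (ZMod p) (Matrix ι ι (ZMod p)) = Fintype.card ι ^ 2 := by
    rw [Module.finrank_matrix, Module.finrank_self, mul_one, sq]
  have h6 : Fintype.card ι ^ 2 - 1 ≤ Module.finrank (ZMod p) (Submodule.span (ZMod p) s) := by
    omega
  obtain ⟨f, hf, _, hli⟩ := Submodule.exists_fun_fin_finrank_span_eq (ZMod p) s
  have h7 : ∀ i : Fin (Fintype.card ι ^ 2 - 1), ∃ g ∈ H, f (Fin.castLE h6 i) =
      (g : Matrix ι ι (ZMod p)) * X * ((g⁻¹ : SLI ι p) : Matrix ι ι (ZMod p)) :=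
    fun i => hf (Fin.castLE h6 i)
  choose g hg hfg using h7
  refine ⟨g, hg, ?_⟩
  have h8 := hli.comp (Fin.castLE h6) (Fin.castLE_injective h6)
  have h9 : (fun i => (g i : Matrix ι ι (ZMod p)) * X *
        (((g i)⁻¹ : SLI ι p) : Matrix ι ι (ZMod p))) = f ∘ Fin.castLE h6 := by
    funext i
    exact (hfg i).symm
  rw [h9]
  exact h8

/-- dual functionals -/
theorem exists_dual {K V : Type*} [Field K] [AddCommGroup V] [Module K V] {k : ℕ} (N : Fin k → V)
    (h : LinearIndependent K N) :
    ∃ l : Fin k → V →ₗ[K] K, ∀ i j, l j (N i) = if i = j then 1 else 0 := by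
  classical
  obtain ⟨g, hg⟩ := LinearMap.exists_leftInverse_of_injective (Fintype.linearCombination K N)
    (by rw [LinearMap.ker_eq_bot]; exact linearIndependent_iff_injective_fintypeLinearCombination.1 h)
  refine ⟨fun j => (LinearMap.proj j).comp g, ?_⟩
  intro i j
  have h1 : g (N i) = Pi.single i 1 := by
    have h2 := LinearMap.congr_fun hg (Pi.single i 1)
    rw [LinearMap.comp_apply, Fintype.linearCombination_apply_single, one_smul] at h2
    exact h2
  rw [LinearMap.comp_apply, h1, LinearMap.proj_apply, Pi.single_apply]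
  by_cases hij : i = j
  · rw [if_pos hij, if_pos hij.symm]
  · rw [if_neg hij, if_neg (fun h => hij h.symm)]

end BIG

open BIG in
theorem big (hC : Stmt_CNT) (hU : Stmt_UNI) : Stmt_BIG := by
  classical
  intro ι _ _ hι
  set m := Fintype.card ι with hm
  set k := m ^ 2 - 1 with hk
  refine ⟨(k * (k * m)) ^ k, ?_⟩
  intro p _ H hmp hI hp
  obtain ⟨u, hu⟩ := exists_prime_orderOf_dvd_card' p hp
  set U : Matrix ι ι (ZMod p) := ((u : SLI ι p) : Matrix ι ι (ZMod p)) with hUdef
  have hUp : U ^ p = 1 := by
    have h1 : u ^ p = 1 := orderOf_dvd_iff_pow_eq_one.1 (dvd_of_eq hu)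
    have h2 : ((u ^ p : H) : SLI ι p) = 1 := by rw [h1]; rfl
    rw [hUdef, ← Matrix.SpecialLinearGroup.coe_pow]
    rw [SubgroupClass.coe_pow] at h2
    rw [h2, Matrix.SpecialLinearGroup.coe_one]
  have hU1 : U ≠ 1 := by
    intro h
    have h1 : (u : SLI ι p) = 1 := by
      apply Subtype.ext
      rw [Matrix.SpecialLinearGroup.coe_one]
      exact h
    have h2 : u = 1 := Subtype.ext h1
    rw [h2, orderOf_one] at hu
    exact (Fact.out : p.Prime).one_lt.ne hu
  obtain ⟨c, hc, hc0, hc1, hct⟩ := hU ι p U hmp hUp hU1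
  obtain ⟨g, hgH, hli⟩ := exists_indep H hI (c 1) hc1 hct
  obtain ⟨l, hl⟩ := exists_dual _ hli
  have hm0 : 0 < m := by omega
  -- the factors
  set D : Fin k → Fin m → Matrix ι ι (ZMod p) := fun i a =>
    (g i : Matrix ι ι (ZMod p)) * c a * (((g i)⁻¹ : SLI ι p) : Matrix ι ι (ZMod p)) with hD
  have hgg : ∀ i, (g i : Matrix ι ι (ZMod p)) *
      (((g i)⁻¹ : SLI ι p) : Matrix ι ι (ZMod p)) = 1 := by
    intro i
    rw [← Matrix.SpecialLinearGroup.coe_mul, mul_inv_cancel, Matrix.SpecialLinearGroup.coe_one]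
  have hD0 : ∀ i, D i ⟨0, by omega⟩ = 1 := by
    intro i
    simp only [hD]
    rw [hc0, mul_one, hgg]
  choose f hfd hf0 hf1 hfe using fun j => generic k m hι D hD0 (l j)
  have hcnt := hC k (k * m) p f ?_ hfd hf0 ?_
  · refine hcnt.trans (Nat.mul_le_mul_left _ ?_)
    -- the image is in the image of `H`
    have : Fintype H := Fintype.ofFinite H
    rw [Nat.card_eq_fintype_card, ← Finset.card_univ]
    refine (Finset.card_le_card ?_).trans (Finset.card_image_le
      (s := (Finset.univ : Finset H))
      (f := fun h => fun j => l j ((h : SLI ι p) : Matrix ι ι (ZMod p)) - l j 1))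
    intro y hy
    obtain ⟨x, _, rfl⟩ := Finset.mem_image.1 hy
    -- the submonoid of the matrices of the elements of `H`
    let S : Submonoid (Matrix ι ι (ZMod p)) :=
      { carrier := {A | ∃ h : H, ((h : SLI ι p) : Matrix ι ι (ZMod p)) = A}
        one_mem' := ⟨1, by
          rw [OneMemClass.coe_one, Matrix.SpecialLinearGroup.coe_one]⟩
        mul_mem' := by
          rintro _ _ ⟨h1, rfl⟩ ⟨h2, rfl⟩
          exact ⟨h1 * h2, by rw [Subgroup.coe_mul, Matrix.SpecialLinearGroup.coe_mul]⟩ }
    have hfac : ∀ i, ∑ a : Fin m, (x i) ^ (a : ℕ) • D i a ∈ S := by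
      intro i
      have h1 : ∑ a : Fin m, (x i) ^ (a : ℕ) • D i a =
          (g i : Matrix ι ι (ZMod p)) * U ^ (x i).val *
            (((g i)⁻¹ : SLI ι p) : Matrix ι ι (ZMod p)) := by
        rw [hc, Finset.sum_range, Finset.mul_sum, Finset.sum_mul]
        refine Finset.sum_congr rfl (fun a _ => ?_)
        rw [ZMod.natCast_zmod_val, Matrix.mul_smul, Matrix.smul_mul]
      rw [h1]
      refine ⟨(⟨g i, hgH i⟩ : H) * u ^ (x i).val * (⟨g i, hgH i⟩ : H)⁻¹, ?_⟩
      rw [Subgroup.coe_mul, Subgroup.coe_mul, Subgroup.coe_inv, SubgroupClass.coe_pow,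
        Matrix.SpecialLinearGroup.coe_mul, Matrix.SpecialLinearGroup.coe_mul,
        Matrix.SpecialLinearGroup.coe_pow]
    have hprod : (List.ofFn fun i => ∑ a : Fin m, (x i) ^ (a : ℕ) • D i a).prod ∈ S := by
      refine Submonoid.list_prod_mem S (fun y hy => ?_)
      obtain ⟨i, rfl⟩ := (List.mem_ofFn' _ _).1 hy
      exact hfac i
    obtain ⟨h, hh⟩ := hprod
    refine Finset.mem_image.2 ⟨h, Finset.mem_univ h, ?_⟩
    funext j
    rw [hfe j x, hh]
  · -- degree at least one
    have h1 : 1 ≤ k := by
      have : 2 ^ 2 ≤ m ^ 2 := Nat.pow_le_pow_left hι 2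
      omega
    exact Nat.mul_pos h1 hm0
  · intro i j
    rw [hf1 j i]
    exact hl i j

end Pool.Agent.Work.MP_936a99_bb
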