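import Pool.Agent.Work.MP_936a99_bb.Interface

/-!
# Block CERT (helper64): a polynomial of bounded degree certifies irreducibility and many elements
-/

namespace Pool.Agent.Work.MP_936a99_bb

open Matrix Pool.Agent.Work.MP_936a99_al_h7

namespace CERT

open scoped Kronecker

/-! ### degrees of the entries -/

section deg

variable {σ : Type} {K : Type} [CommRing K] {α β γ : Type}

/-- all entries have total degree at most `d` -/
def DL (d : ℕ) (A : Matrix α β (MvPolynomial σ K)) : Prop := ∀ i j, (A i j).totalDegree ≤ d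

lemma DL.mono {d e : ℕ} (h : d ≤ e) {A : Matrix α β (MvPolynomial σ K)} (hA : DL d A) : DL e A :=
  fun i j => (hA i j).trans h

lemma DL.mul [Fintype β] {d e : ℕ} {A : Matrix α β (MvPolynomial σ K)}
    {B : Matrix β γ (MvPolynomial σ K)} (hA : DL d A) (hB : DL e B) : DL (d + e) (A * B) := by
  intro i j
  rw [Matrix.mul_apply]
  refine MvPolynomial.totalDegree_finsetSum_le ?_
  intro k _
  exact (MvPolynomial.totalDegree_mul _ _).trans (Nat.add_le_add (hA i k) (hB k j))

lemma DL.one [DecidableEq α] : DL 0 (1 : Matrix α α (MvPolynomial σ K)) := by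
  intro i j
  by_cases h : i = j
  · subst h; simp
  · simp [Matrix.one_apply_ne h]

lemma DL.pow [Fintype α] [DecidableEq α] {d : ℕ} {A : Matrix α α (MvPolynomial σ K)}
    (hA : DL d A) (s : ℕ) : DL (s * d) (A ^ s) := by
  induction s with
  | zero => simpa using DL.one
  | succ s ih =>
    rw [pow_succ, Nat.succ_mul]
    exact ih.mul hA

lemma DL.list_prod [Fintype α] [DecidableEq α] {d : ℕ}
    (l : List (Matrix α α (MvPolynomial σ K))) (h : ∀ A ∈ l, DL d A) :
    DL (l.length * d) l.prod := by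
  induction l with
  | nil => simpa using DL.one
  | cons A l ih =>
    rw [List.prod_cons, List.length_cons, Nat.succ_mul, Nat.add_comm]
    exact (h A (by simp)).mul (ih fun B hB => h B (by simp [hB]))

lemma det_deg [Fintype α] [DecidableEq α] {d : ℕ} {A : Matrix α α (MvPolynomial σ K)}
    (hA : DL d A) : A.det.totalDegree ≤ Fintype.card α * d := by
  rw [Matrix.det_apply']
  refine MvPolynomial.totalDegree_finsetSum_le ?_
  intro τ _
  have h1 : (∏ i, A (τ i) i).totalDegree ≤ Fintype.card α * d := by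
    refine (MvPolynomial.totalDegree_finsetProd _ _).trans ?_
    calc ∑ i, (A (τ i) i).totalDegree ≤ ∑ _i : α, d := Finset.sum_le_sum fun i _ => hA _ _
      _ = Fintype.card α * d := by simp
  rcases Int.units_eq_one_or (Equiv.Perm.sign τ) with h | h
  · rw [h]; simpa using h1
  · rw [h]; simpa using h1

end deg

/-! ### the generic matrices -/

section gen

variable {t ρ : ℕ}

lemma DL_wh {σ K : Type} [CommRing K] {M : Matrix (Fin t × Fin ρ) (Fin t × Fin ρ) (MvPolynomial σ K)}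
    (hM : DL 1 M) (i : Fin t) : DL 1 (wh M i) := by
  intro x y
  unfold wh
  rw [Matrix.add_apply]
  refine (MvPolynomial.totalDegree_add _ _).trans (max_le ?_ ?_)
  · exact (DL.one.mono (Nat.zero_le 1)) x y
  · simp only [Matrix.of_apply]
    split_ifs with h
    · exact hM x y
    · simp

lemma DL_whi {σ K : Type} [CommRing K] {M : Matrix (Fin t × Fin ρ) (Fin t × Fin ρ) (MvPolynomial σ K)}
    (hM : DL 1 M) (T : Matrix (Fin ρ) (Fin ρ) K) (i : Fin t) :
    DL 1 (whi (T.map MvPolynomial.C) M i) := by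
  intro x y
  unfold whi
  rw [Matrix.sub_apply]
  refine (MvPolynomial.totalDegree_sub _ _).trans (max_le ?_ ?_)
  · exact (DL.one.mono (Nat.zero_le 1)) x y
  · simp only [Matrix.of_apply]
    split_ifs with h
    · refine MvPolynomial.totalDegree_finsetSum_le ?_
      intro a _
      refine (MvPolynomial.totalDegree_mul _ _).trans ?_
      have := hM (i, a) y
      simp only [Matrix.map_apply, MvPolynomial.totalDegree_C]
      omega
    · simp

lemma map_wh {R R' : Type} [CommRing R] [CommRing R'] (f : R →+* R')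
    (M : Matrix (Fin t × Fin ρ) (Fin t × Fin ρ) R) (i : Fin t) :
    (wh M i).map f = wh (M.map f) i := by
  ext x y
  simp only [wh, Matrix.map_apply, Matrix.add_apply, Matrix.of_apply, map_add]
  congr 1
  · by_cases h : x = y
    · subst h; simp
    · simp [Matrix.one_apply_ne h]
  · split_ifs <;> simp

lemma map_whi {R R' : Type} [CommRing R] [CommRing R'] (f : R →+* R')
    (T : Matrix (Fin ρ) (Fin ρ) R)
    (M : Matrix (Fin t × Fin ρ) (Fin t × Fin ρ) R) (i : Fin t) :
    (whi T M i).map f = whi (T.map f) (M.map f) i := by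
  ext x y
  simp only [whi, Matrix.map_apply, Matrix.sub_apply, Matrix.of_apply, map_sub]
  congr 1
  · by_cases h : x = y
    · subst h; simp
    · simp [Matrix.one_apply_ne h]
  · split_ifs <;> simp

/-- the word with index list `l` -/
def wd {R : Type} [CommRing R] (M : Matrix (Fin t × Fin ρ) (Fin t × Fin ρ) R) (l : List (Fin t)) :
    Matrix (Fin t × Fin ρ) (Fin t × Fin ρ) R := (l.map (wh M)).prod

/-- its inverse -/
def wdi {R : Type} [CommRing R] (T : Matrix (Fin ρ) (Fin ρ) R)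
    (M : Matrix (Fin t × Fin ρ) (Fin t × Fin ρ) R) (l : List (Fin t)) :
    Matrix (Fin t × Fin ρ) (Fin t × Fin ρ) R := (l.reverse.map (whi T M)).prod

lemma map_wd {R R' : Type} [CommRing R] [CommRing R'] (f : R →+* R')
    (M : Matrix (Fin t × Fin ρ) (Fin t × Fin ρ) R) (l : List (Fin t)) :
    (wd M l).map f = wd (M.map f) l := by
  unfold wd
  induction l with
  | nil =>
    simp only [List.map_nil, List.prod_nil]
    exact Matrix.map_one f (map_zero f) (map_one f)
  | cons i l ih =>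
    simp only [List.map_cons, List.prod_cons]
    rw [Matrix.map_mul, ih, map_wh]

lemma map_prod_whi {R R' : Type} [CommRing R] [CommRing R'] (f : R →+* R')
    (T : Matrix (Fin ρ) (Fin ρ) R)
    (M : Matrix (Fin t × Fin ρ) (Fin t × Fin ρ) R) (l : List (Fin t)) :
    ((l.map (whi T M)).prod).map f = (l.map (whi (T.map f) (M.map f))).prod := by
  induction l with
  | nil =>
    simp only [List.map_nil, List.prod_nil]
    exact Matrix.map_one f (map_zero f) (map_one f)
  | cons i l ih =>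
    simp only [List.map_cons, List.prod_cons]
    rw [Matrix.map_mul, ih, map_whi]

lemma map_wdi {R R' : Type} [CommRing R] [CommRing R'] (f : R →+* R')
    (T : Matrix (Fin ρ) (Fin ρ) R)
    (M : Matrix (Fin t × Fin ρ) (Fin t × Fin ρ) R) (l : List (Fin t)) :
    (wdi T M l).map f = wdi (T.map f) (M.map f) l :=
  map_prod_whi f T M l.reverse

lemma map_cm {R R' : Type} [CommRing R] [CommRing R'] (f : R →+* R')
    (T : Matrix (Fin ρ) (Fin ρ) R) (M : Matrix (Fin 7 × Fin ρ) (Fin 7 × Fin ρ) R) :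
    (cm T M).map f = cm (T.map f) (M.map f) := by
  unfold cm
  rw [Matrix.map_mul, Matrix.map_mul, Matrix.map_mul, map_wh, map_wh, map_whi, map_whi]

lemma map_pow {α R R' : Type} [Fintype α] [DecidableEq α] [CommRing R] [CommRing R'] (f : R →+* R')
    (A : Matrix α α R) (s : ℕ) : (A ^ s).map f = (A.map f) ^ s :=
  _root_.map_pow f.mapMatrix A s

end gen

/-! ### the adjoint representation -/

section ad

variable {ι : Type} [Fintype ι] [DecidableEq ι] {p : ℕ}

/-- the adjoint representation -/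
def Ad : SLI ι p →* Matrix (ι × ι) (ι × ι) (ZMod p) where
  toFun g := (g : Matrix ι ι (ZMod p)) ⊗ₖ ((g⁻¹ : SLI ι p) : Matrix ι ι (ZMod p))ᵀ
  map_one' := by
    simp
  map_mul' g h := by
    rw [_root_.mul_inv_rev, Matrix.SpecialLinearGroup.coe_mul, Matrix.SpecialLinearGroup.coe_mul,
      Matrix.transpose_mul, Matrix.mul_kronecker_mul]

lemma Ad_apply (g : SLI ι p) (x y : ι × ι) :
    Ad g x y = (g : Matrix ι ι (ZMod p)) x.1 y.1 * ((g⁻¹ : SLI ι p) : Matrix ι ι (ZMod p)) y.2 x.2 :=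
  rfl

/-- the linear map `A ↦ A X` -/
def actX (X : Matrix ι ι (ZMod p)) :
    Matrix (ι × ι) (ι × ι) (ZMod p) →ₗ[ZMod p] Matrix ι ι (ZMod p) where
  toFun A := Matrix.of fun a b => ∑ z : ι × ι, A (a, b) z * X z.1 z.2
  map_add' A B := by
    ext a b
    simp [add_mul, Finset.sum_add_distrib]
  map_smul' c A := by
    ext a b
    simp [Finset.mul_sum, mul_assoc]

lemma actX_Ad (X : Matrix ι ι (ZMod p)) (g : SLI ι p) :
    actX X (Ad g) = (g : Matrix ι ι (ZMod p)) * X * ((g⁻¹ : SLI ι p) : Matrix ι ι (ZMod p)) := by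
  ext a b
  simp only [actX, LinearMap.coe_mk, AddHom.coe_mk, Matrix.of_apply, Ad_apply]
  rw [Matrix.mul_apply, Fintype.sum_prod_type, Finset.sum_comm]
  refine Finset.sum_congr rfl fun d _ => ?_
  rw [Matrix.mul_apply, Finset.sum_mul]
  refine Finset.sum_congr rfl fun c _ => ?_
  ring

lemma irr_of_span (H : Subgroup (SLI ι p))
    (hs : Submodule.span (ZMod p) (Set.range (Ad : SLI ι p →* _)) ≤
      Submodule.span (ZMod p) ((fun g => Ad g) '' (H : Set (SLI ι p))))
    (hI : Irr (⊤ : Subgroup (SLI ι p))) : Irr H := by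
  intro X hX0 hX Y hY
  have h1 := hI X hX0 hX Y hY
  refine (Submodule.span_le.2 ?_) h1
  rintro Z ⟨g, -, rfl⟩
  have h2 : Ad g ∈ Submodule.span (ZMod p) ((fun g => Ad g) '' (H : Set (SLI ι p))) :=
    hs (Submodule.subset_span ⟨g, rfl⟩)
  have h3 : actX X (Ad g) ∈ (Submodule.span (ZMod p) ((fun g => Ad g) '' (H : Set (SLI ι p)))).map
      (actX X) := ⟨_, h2, rfl⟩
  rw [Submodule.map_span, actX_Ad] at h3
  refine (Submodule.span_mono ?_) h3
  rintro _ ⟨_, ⟨h, hh, rfl⟩, rfl⟩
  exact ⟨h, hh, by rw [actX_Ad]⟩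

end ad

/-! ### elements of the group given by a matrix with diagonal blocks `S` -/

section grp

variable {t ρ p : ℕ} [Fact p.Prime]

lemma mul_inv_T {S : Matrix (Fin ρ) (Fin ρ) (ZMod p)} (hS : (1 + S).det = 1) :
    (1 + S) * (1 + S)⁻¹ = 1 := by
  apply Matrix.mul_nonsing_inv
  rw [hS]
  exact isUnit_one

/-- the generator as an element of the group -/
def gg (hW : Stmt_WHL) {S : Matrix (Fin ρ) (Fin ρ) (ZMod p)} (hS : (1 + S).det = 1)
    {M : Matrix (Fin t × Fin ρ) (Fin t × Fin ρ) (ZMod p)} (hM : DiagS S M) (i : Fin t) :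
    SLI (Fin t × Fin ρ) p :=
  ⟨wh M i, by rw [(hW t ρ (ZMod p) S 0 M i hM).1, hS]⟩

lemma gg_inv (hW : Stmt_WHL) {S : Matrix (Fin ρ) (Fin ρ) (ZMod p)} (hS : (1 + S).det = 1)
    {M : Matrix (Fin t × Fin ρ) (Fin t × Fin ρ) (ZMod p)} (hM : DiagS S M) (i : Fin t) :
    (((gg hW hS hM i)⁻¹ : SLI (Fin t × Fin ρ) p) : Matrix (Fin t × Fin ρ) (Fin t × Fin ρ) (ZMod p))
      = whi (1 + S)⁻¹ M i := by
  have h1 : wh M i * whi (1 + S)⁻¹ M i = 1 :=
    (hW t ρ (ZMod p) S (1 + S)⁻¹ M i hM).2 (mul_inv_T hS)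
  have h2 : (((gg hW hS hM i)⁻¹ : SLI (Fin t × Fin ρ) p) :
      Matrix (Fin t × Fin ρ) (Fin t × Fin ρ) (ZMod p)) * wh M i = 1 := by
    have h3 : (((gg hW hS hM i)⁻¹ * gg hW hS hM i : SLI (Fin t × Fin ρ) p) :
        Matrix (Fin t × Fin ρ) (Fin t × Fin ρ) (ZMod p)) = 1 := by
      rw [inv_mul_cancel]; rfl
    rw [Matrix.SpecialLinearGroup.coe_mul] at h3
    exact h3
  calc (((gg hW hS hM i)⁻¹ : SLI (Fin t × Fin ρ) p) :
        Matrix (Fin t × Fin ρ) (Fin t × Fin ρ) (ZMod p))
      = (((gg hW hS hM i)⁻¹ : SLI (Fin t × Fin ρ) p) :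
        Matrix (Fin t × Fin ρ) (Fin t × Fin ρ) (ZMod p)) * (wh M i * whi (1 + S)⁻¹ M i) := by
        rw [h1, Matrix.mul_one]
    _ = whi (1 + S)⁻¹ M i := by rw [← Matrix.mul_assoc, h2, Matrix.one_mul]

lemma word_coe (hW : Stmt_WHL) {S : Matrix (Fin ρ) (Fin ρ) (ZMod p)} (hS : (1 + S).det = 1)
    {M : Matrix (Fin t × Fin ρ) (Fin t × Fin ρ) (ZMod p)} (hM : DiagS S M) (l : List (Fin t)) :
    (((l.map (gg hW hS hM)).prod : SLI (Fin t × Fin ρ) p) :
      Matrix (Fin t × Fin ρ) (Fin t × Fin ρ) (ZMod p)) = wd M l := by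
  unfold wd
  induction l with
  | nil => simp
  | cons i l ih =>
    simp only [List.map_cons, List.prod_cons, Matrix.SpecialLinearGroup.coe_mul, ih]
    rfl

lemma word_inv_coe (hW : Stmt_WHL) {S : Matrix (Fin ρ) (Fin ρ) (ZMod p)} (hS : (1 + S).det = 1)
    {M : Matrix (Fin t × Fin ρ) (Fin t × Fin ρ) (ZMod p)} (hM : DiagS S M) (l : List (Fin t)) :
    ((((l.map (gg hW hS hM)).prod)⁻¹ : SLI (Fin t × Fin ρ) p) :
      Matrix (Fin t × Fin ρ) (Fin t × Fin ρ) (ZMod p)) = wdi (1 + S)⁻¹ M l := by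
  unfold wdi
  induction l with
  | nil => simp
  | cons i l ih =>
    simp only [List.map_cons, List.prod_cons, _root_.mul_inv_rev,
      Matrix.SpecialLinearGroup.coe_mul, ih, gg_inv, List.reverse_cons, List.map_append,
      List.map_nil, List.prod_append, List.prod_nil, Matrix.mul_one]

lemma gg_mem (hW : Stmt_WHL) {S : Matrix (Fin ρ) (Fin ρ) (ZMod p)} (hS : (1 + S).det = 1)
    {M : Matrix (Fin t × Fin ρ) (Fin t × Fin ρ) (ZMod p)} (hM : DiagS S M) (i : Fin t) :
    gg hW hS hM i ∈ Subgroup.closure (gens M) :=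
  Subgroup.subset_closure ⟨i, rfl⟩

lemma word_mem (hW : Stmt_WHL) {S : Matrix (Fin ρ) (Fin ρ) (ZMod p)} (hS : (1 + S).det = 1)
    {M : Matrix (Fin t × Fin ρ) (Fin t × Fin ρ) (ZMod p)} (hM : DiagS S M) (l : List (Fin t)) :
    (l.map (gg hW hS hM)).prod ∈ Subgroup.closure (gens M) := by
  apply Subgroup.list_prod_mem
  intro x hx
  obtain ⟨i, _, rfl⟩ := List.mem_map.1 hx
  exact gg_mem hW hS hM i

lemma gens_word (hW : Stmt_WHL) {S : Matrix (Fin ρ) (Fin ρ) (ZMod p)} (hS : (1 + S).det = 1)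
    {M : Matrix (Fin t × Fin ρ) (Fin t × Fin ρ) (ZMod p)} (hM : DiagS S M)
    (l : List (SLI (Fin t × Fin ρ) p)) (hl : ∀ x ∈ l, x ∈ gens M) :
    ∃ l' : List (Fin t), l'.length = l.length ∧ l'.map (gg hW hS hM) = l := by
  induction l with
  | nil => exact ⟨[], rfl, rfl⟩
  | cons x l ih =>
    obtain ⟨l', h1, h2⟩ := ih fun y hy => hl y (by simp [hy])
    obtain ⟨i, hi⟩ := hl x (by simp)
    refine ⟨i :: l', by simp [h1], ?_⟩
    rw [List.map_cons, h2]
    congr 1
    apply Matrix.SpecialLinearGroup.ext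
    intro a b
    rw [hi]
    rfl

end grp

/-- short words with independent images, as index words -/
lemma words {ρ p : ℕ} [Fact p.Prime] (hW : Stmt_WHL) (hP : Stmt_WSP)
    {S : Matrix (Fin ρ) (Fin ρ) (ZMod p)} (hS : (1 + S).det = 1)
    {M1 : Matrix (Fin 7 × Fin ρ) (Fin 7 × Fin ρ) (ZMod p)} (hM1 : DiagS S M1)
    (hcl : Subgroup.closure (gens M1) = ⊤) :
    ∃ q : ℕ, Module.finrank (ZMod p) (Submodule.span (ZMod p)
        (Set.range (Ad : SLI (Fin 7 × Fin ρ) p →* _))) = q ∧ q ≤ ((7 * ρ) * (7 * ρ)) ^ 2 ∧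
      ∃ l : Fin q → List (Fin 7), (∀ j, (l j).length ≤ q) ∧
        LinearIndependent (ZMod p) (fun j => Ad (((l j).map (gg hW hS hM1)).prod)) := by
  obtain ⟨w, hw1, hw2, hw3⟩ := hP (ZMod p) (SLI (Fin 7 × Fin ρ) p) (gens M1)
    (Matrix ((Fin 7 × Fin ρ) × (Fin 7 × Fin ρ)) ((Fin 7 × Fin ρ) × (Fin 7 × Fin ρ)) (ZMod p)) Ad hcl
  choose l hl1 hl2 using fun j => gens_word hW hS hM1 (w j) (hw1 j)
  refine ⟨_, rfl, ?_, l, ?_, ?_⟩
  · refine (Submodule.finrank_le _).trans ?_
    rw [Module.finrank_matrix]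
    simp [Fintype.card_prod, sq]
  · intro j
    rw [hl1]
    exact hw2 j
  · simpa only [hl2] using hw3

/-- the flattening of matrices -/
def flat {α K : Type} [CommRing K] : Matrix α α K →ₗ[K] (α × α → K) where
  toFun A := fun x => A x.1 x.2
  map_add' _ _ := rfl
  map_smul' _ _ := rfl

lemma flat_ker {α K : Type} [CommRing K] : LinearMap.ker (flat : Matrix α α K →ₗ[K] _) = ⊥ := by
  rw [LinearMap.ker_eq_bot']
  intro A hA
  ext i j
  exact congrFun hA (i, j)

theorem main (hW : Stmt_WHL) (hP : Stmt_WSP) (hMin : Stmt_MIN) : Stmt_CERT := by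
  classical
  intro ρ J hρ
  refine ⟨7 * ρ + ((7 * ρ) * (7 * ρ)) ^ 2 * (2 * ((7 * ρ) * (7 * ρ)) ^ 2) + J * (J * 4), J, ?_⟩
  intro p _ hp hI S M1 hS hM1 hdet hcl hab
  obtain ⟨a, b, hab, hc⟩ := hab
  obtain ⟨q, hq, hqle, l, hl, hli⟩ := words hW hP hS hM1 hcl
  have hv := hli.map' flat flat_ker
  obtain ⟨e, he⟩ := hMin (ZMod p) _ q _ hv
  let XX : Matrix (Fin 7 × Fin ρ) (Fin 7 × Fin ρ)
    (MvPolynomial ((Fin 7 × Fin ρ) × (Fin 7 × Fin ρ)) (ZMod p)) :=
    Matrix.of fun x y => MvPolynomial.X (x, y)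
  let TT : Matrix (Fin ρ) (Fin ρ) (MvPolynomial ((Fin 7 × Fin ρ) × (Fin 7 × Fin ρ)) (ZMod p)) :=
    ((1 + S)⁻¹).map MvPolynomial.C
  have hXX : DL 1 XX := by
    intro x y
    simp only [XX, Matrix.of_apply]
    exact (MvPolynomial.totalDegree_X (R := ZMod p) (x, y)).le
  let AG : Matrix (Fin q) (Fin q) (MvPolynomial ((Fin 7 × Fin ρ) × (Fin 7 × Fin ρ)) (ZMod p)) :=
    Matrix.of fun i j => wd XX (l j) (e i).1.1 (e i).2.1 * wdi TT XX (l j) (e i).2.2 (e i).1.2
  let CC : MvPolynomial ((Fin 7 × Fin ρ) × (Fin 7 × Fin ρ)) (ZMod p) :=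
    ∏ s ∈ Finset.range J, (cm TT XX ^ (s + 1)) a b
  -- degrees
  have hwd : ∀ j, DL q (wd XX (l j)) := by
    intro j
    have := DL.list_prod ((l j).map (wh XX)) (d := 1) (by
      intro A hA
      obtain ⟨i, _, rfl⟩ := List.mem_map.1 hA
      exact DL_wh hXX i)
    exact this.mono (by simpa using hl j)
  have hwdi : ∀ j, DL q (wdi TT XX (l j)) := by
    intro j
    have := DL.list_prod ((l j).reverse.map (whi TT XX)) (d := 1) (by
      intro A hA
      obtain ⟨i, _, rfl⟩ := List.mem_map.1 hA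
      exact DL_whi hXX _ i)
    exact this.mono (by simpa using hl j)
  have hAG : DL (q + q) AG := by
    intro i j
    exact (MvPolynomial.totalDegree_mul _ _).trans (Nat.add_le_add (hwd j _ _) (hwdi j _ _))
  have hcm : DL 4 (cm TT XX) := by
    have h0 : DL (1 + 1 + 1 + 1) (cm TT XX) :=
      (((DL_wh hXX 0).mul (DL_wh hXX 1)).mul (DL_whi hXX _ 0)).mul (DL_whi hXX _ 1)
    exact h0
  have hdeg1 : XX.det.totalDegree ≤ 7 * ρ := by
    have := det_deg hXX
    simpa using this
  have hdeg2 : AG.det.totalDegree ≤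
      ((7 * ρ) * (7 * ρ)) ^ 2 * (2 * ((7 * ρ) * (7 * ρ)) ^ 2) := by
    have := det_deg hAG
    rw [Fintype.card_fin] at this
    refine this.trans (Nat.mul_le_mul hqle ?_)
    omega
  have hdeg3 : CC.totalDegree ≤ J * (J * 4) := by
    refine (MvPolynomial.totalDegree_finsetProd _ _).trans ?_
    calc ∑ s ∈ Finset.range J, ((cm TT XX ^ (s + 1)) a b).totalDegree
        ≤ ∑ _s ∈ Finset.range J, J * 4 := by
          refine Finset.sum_le_sum fun s hs => ?_
          have h1 := hcm.pow (s + 1) a b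
          have h2 : s + 1 ≤ J := Finset.mem_range.1 hs
          exact h1.trans (Nat.mul_le_mul_right 4 h2)
      _ = J * (J * 4) := by simp
  -- evaluation
  have hXM : ∀ M : Matrix (Fin 7 × Fin ρ) (Fin 7 × Fin ρ) (ZMod p),
      XX.map (MvPolynomial.eval (fun x => M x.1 x.2)) = M := by
    intro M
    ext x y
    simp [XX]
  have hTM : ∀ M : Matrix (Fin 7 × Fin ρ) (Fin 7 × Fin ρ) (ZMod p),
      TT.map (MvPolynomial.eval (fun x => M x.1 x.2)) = (1 + S)⁻¹ := by
    intro M
    ext x y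
    simp [TT]
  have hev1 : ∀ M : Matrix (Fin 7 × Fin ρ) (Fin 7 × Fin ρ) (ZMod p),
      MvPolynomial.eval (fun x => M x.1 x.2) XX.det = M.det := by
    intro M
    rw [RingHom.map_det, RingHom.mapMatrix_apply, hXM]
  have hev2 : ∀ M : Matrix (Fin 7 × Fin ρ) (Fin 7 × Fin ρ) (ZMod p), ∀ hM : DiagS S M,
      MvPolynomial.eval (fun x => M x.1 x.2) AG.det =
        (Matrix.of fun i j => Ad (((l j).map (gg hW hS hM)).prod) (e i).1 (e i).2).det := by
    intro M hM
    rw [RingHom.map_det, RingHom.mapMatrix_apply]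
    congr 1
    ext i j
    have h1 := congrFun (congrFun (map_wd (MvPolynomial.eval (fun x => M x.1 x.2)) XX (l j))
      (e i).1.1) (e i).2.1
    have h2 := congrFun (congrFun (map_wdi (MvPolynomial.eval (fun x => M x.1 x.2)) TT XX (l j))
      (e i).2.2) (e i).1.2
    rw [Matrix.map_apply, hXM] at h1
    rw [Matrix.map_apply, hXM, hTM] at h2
    simp only [AG, Matrix.map_apply, Matrix.of_apply, map_mul, Ad_apply]
    rw [h1, h2, word_coe, word_inv_coe]
  have hev3 : ∀ M : Matrix (Fin 7 × Fin ρ) (Fin 7 × Fin ρ) (ZMod p),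
      MvPolynomial.eval (fun x => M x.1 x.2) CC =
        ∏ s ∈ Finset.range J, (cm (1 + S)⁻¹ M ^ (s + 1)) a b := by
    intro M
    rw [map_prod]
    refine Finset.prod_congr rfl fun s _ => ?_
    have h1 := congrFun (congrFun (map_pow (MvPolynomial.eval (fun x => M x.1 x.2))
      (cm TT XX) (s + 1)) a) b
    rw [Matrix.map_apply, map_cm, hXM, hTM] at h1
    exact h1
  refine ⟨XX.det * AG.det * CC, ?_, ?_, ?_⟩
  · refine (MvPolynomial.totalDegree_mul _ _).trans (Nat.add_le_add ?_ hdeg3)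
    exact (MvPolynomial.totalDegree_mul _ _).trans (Nat.add_le_add hdeg1 hdeg2)
  · rw [map_mul, map_mul, hev1, hev2 M1 hM1, hev3]
    refine mul_ne_zero (mul_ne_zero hdet he) ?_
    refine Finset.prod_ne_zero_iff.2 fun s hs => ?_
    have h2 : s + 1 ≤ J := Finset.mem_range.1 hs
    exact hc (s + 1) (by omega) (by omega)
  · intro M hM hne
    rw [map_mul, map_mul, hev1, hev2 M hM, hev3] at hne
    have hn1 := left_ne_zero_of_mul (left_ne_zero_of_mul hne)
    have hn2 := right_ne_zero_of_mul (left_ne_zero_of_mul hne)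
    have hn3 := right_ne_zero_of_mul hne
    refine ⟨hn1, ?_, ?_⟩
    · apply irr_of_span _ _ hI
      have hind : LinearIndependent (ZMod p)
          (fun j => Ad (((l j).map (gg hW hS hM)).prod)) := by
        rw [Fintype.linearIndependent_iff]
        intro c hc0
        have h0 : (Matrix.of fun i j => Ad (((l j).map (gg hW hS hM)).prod) (e i).1 (e i).2)
            *ᵥ c = 0 := by
          ext i
          have := congrFun (congrFun hc0 (e i).1) (e i).2
          rw [Matrix.sum_apply] at this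
          simp only [Matrix.smul_apply, smul_eq_mul, Matrix.zero_apply] at this
          rw [Matrix.mulVec, dotProduct, Pi.zero_apply, ← this]
          refine Finset.sum_congr rfl fun j _ => ?_
          rw [Matrix.of_apply, mul_comm]
        have h1 := Matrix.eq_zero_of_mulVec_eq_zero hn2 h0
        intro j
        exact congrFun h1 j
      have hle1 : Submodule.span (ZMod p)
          (Set.range fun j => Ad (((l j).map (gg hW hS hM)).prod)) ≤
          Submodule.span (ZMod p) ((fun g => Ad g) ''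
            (Subgroup.closure (gens M) : Set (SLI (Fin 7 × Fin ρ) p))) := by
        apply Submodule.span_mono
        rintro _ ⟨j, rfl⟩
        exact ⟨_, word_mem hW hS hM (l j), rfl⟩
      have hle2 : Submodule.span (ZMod p)
          (Set.range fun j => Ad (((l j).map (gg hW hS hM)).prod)) ≤
          Submodule.span (ZMod p) (Set.range (Ad : SLI (Fin 7 × Fin ρ) p →* _)) := by
        apply Submodule.span_mono
        rintro _ ⟨j, rfl⟩
        exact ⟨_, rfl⟩
      have heq := Submodule.eq_of_le_of_finrank_eq hle2 (by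
        rw [finrank_span_eq_card hind, hq, Fintype.card_fin])
      rw [← heq]
      exact hle1
    · refine ⟨gg hW hS hM 0 * gg hW hS hM 1 * (gg hW hS hM 0)⁻¹ * (gg hW hS hM 1)⁻¹, ?_, ?_⟩
      · exact mul_mem (mul_mem (mul_mem (gg_mem hW hS hM 0) (gg_mem hW hS hM 1))
          (inv_mem (gg_mem hW hS hM 0))) (inv_mem (gg_mem hW hS hM 1))
      · intro s hs1 hsJ d hd
        have hcoe : ((gg hW hS hM 0 * gg hW hS hM 1 * (gg hW hS hM 0)⁻¹ * (gg hW hS hM 1)⁻¹ :
            SLI (Fin 7 × Fin ρ) p) : Matrix (Fin 7 × Fin ρ) (Fin 7 × Fin ρ) (ZMod p)) =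
            cm (1 + S)⁻¹ M := by
          rw [Matrix.SpecialLinearGroup.coe_mul, Matrix.SpecialLinearGroup.coe_mul,
            Matrix.SpecialLinearGroup.coe_mul, gg_inv, gg_inv]
          rfl
        rw [Matrix.SpecialLinearGroup.coe_pow, hcoe] at hd
        obtain ⟨s', rfl⟩ : ∃ s', s = s' + 1 := ⟨s - 1, by omega⟩
        have h3 := Finset.prod_ne_zero_iff.1 hn3 s' (Finset.mem_range.2 (by omega))
        apply h3
        rw [hd, Matrix.smul_apply, Matrix.one_apply_ne hab, smul_zero]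

end CERT

theorem cert (hW : Stmt_WHL) (hP : Stmt_WSP) (hMin : Stmt_MIN) : Stmt_CERT :=
  CERT.main hW hP hMin

end Pool.Agent.Work.MP_936a99_bb
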