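import Pool.Agent.Work.MP_936a99_bb.Interface

/-! # Block CLO: the special configuration generates (helper44) -/

namespace Pool.Agent.Work.MP_936a99_bb

open Matrix

namespace CLO

variable {ρ p : ℕ} [Fact p.Prime]

/-- square matrices of the big size -/
abbrev Big (ρ p : ℕ) := Matrix (Fin 7 × Fin ρ) (Fin 7 × Fin ρ) (ZMod p)

/-- inclusion of the `k`-th block -/
def eb (ρ p : ℕ) (k : Fin 7) : Matrix (Fin 7 × Fin ρ) (Fin ρ) (ZMod p) :=
  Matrix.of fun x a => if x = (k, a) then 1 else 0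

/-- the `i`-th block row -/
def rb (M : Big ρ p) (i : Fin 7) : Matrix (Fin ρ) (Fin 7 × Fin ρ) (ZMod p) :=
  Matrix.of fun a y => M (i, a) y

theorem eb_mul_apply {n : Type} (k : Fin 7) (N : Matrix (Fin ρ) n (ZMod p))
    (x : Fin 7 × Fin ρ) (y : n) :
    (eb ρ p k * N) x y = if x.1 = k then N x.2 y else 0 := by
  rw [Matrix.mul_apply]
  by_cases h : x.1 = k
  · rw [if_pos h, Finset.sum_eq_single x.2]
    · simp [eb, ← h]
    · intro b _ hb
      have : x ≠ (k, b) := fun e => hb (by rw [e])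
      simp [eb, this]
    · intro h'; exact absurd (Finset.mem_univ _) h'
  · rw [if_neg h]
    apply Finset.sum_eq_zero
    intro b _
    have : x ≠ (k, b) := fun e => h (by rw [e])
    simp [eb, this]

theorem mul_eb_apply {n : Type} (k : Fin 7) (N : Matrix n (Fin 7 × Fin ρ) (ZMod p))
    (x : n) (b : Fin ρ) : (N * eb ρ p k) x b = N x (k, b) := by
  rw [Matrix.mul_apply, Finset.sum_eq_single (k, b)]
  · simp [eb]
  · intro y _ hy
    simp [eb, hy]
  · intro h'; exact absurd (Finset.mem_univ _) h'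

theorem wh_eq (M : Big ρ p) (i : Fin 7) : wh M i = 1 + eb ρ p i * rb M i := by
  unfold wh
  congr 1
  ext x y
  rw [eb_mul_apply]
  by_cases h : x.1 = i
  · simp [rb, ← h]
  · simp [h]

theorem whi_eq (T : Matrix (Fin ρ) (Fin ρ) (ZMod p)) (M : Big ρ p) (i : Fin 7) :
    whi T M i = 1 - eb ρ p i * (T * rb M i) := by
  unfold whi
  congr 1
  ext x y
  rw [eb_mul_apply]
  rfl

/-- matrices of the elements of `G` -/
def InG (G : Subgroup (SLI (Fin 7 × Fin ρ) p)) (N : Big ρ p) : Prop :=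
  ∃ g ∈ G, (g : Big ρ p) = N

variable {G : Subgroup (SLI (Fin 7 × Fin ρ) p)}

theorem InG.one : InG G (1 : Big ρ p) := ⟨1, G.one_mem, by simp⟩

theorem InG.mul {N N' : Big ρ p} (h : InG G N) (h' : InG G N') : InG G (N * N') := by
  obtain ⟨g, hg, rfl⟩ := h
  obtain ⟨g', hg', rfl⟩ := h'
  exact ⟨g * g', G.mul_mem hg hg', by simp⟩

theorem InG.inv {N N' : Big ρ p} (h : InG G N) (h' : N * N' = 1) : InG G N' := by
  obtain ⟨g, hg, rfl⟩ := h
  refine ⟨g⁻¹, G.inv_mem hg, ?_⟩
  have e : ((g⁻¹ : SLI (Fin 7 × Fin ρ) p) : Big ρ p) * (g : Big ρ p) = 1 := by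
    rw [← Matrix.SpecialLinearGroup.coe_mul, inv_mul_cancel, Matrix.SpecialLinearGroup.coe_one]
  calc ((g⁻¹ : SLI (Fin 7 × Fin ρ) p) : Big ρ p)
      = ((g⁻¹ : SLI (Fin 7 × Fin ρ) p) : Big ρ p) * ((g : Big ρ p) * N') := by rw [h', mul_one]
    _ = N' := by rw [← mul_assoc, e, one_mul]

theorem ring_comm {R : Type} [Ring R] (a b : R) (ha : a * a = 0) (hb : b * b = 0)
    (hba : b * a = 0) : (1 + a) * (1 + b) * ((1 - a) * (1 - b)) = 1 + a * b := by
  have e1 : (1 + a) * (1 + b) * ((1 - a) * (1 - b)) =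
      1 + a * b - a * a + (a * a) * b - b * a - b * b + (b * a) * b - a * (b * a)
        - a * (b * b) + a * (b * a) * b := by noncomm_ring
  rw [e1, ha, hb, hba]
  simp

theorem InG.comm {a b : Big ρ p} (ha : a * a = 0) (hb : b * b = 0) (hba : b * a = 0)
    (h1 : InG G (1 + a)) (h2 : InG G (1 + b)) : InG G (1 + a * b) := by
  rw [← ring_comm a b ha hb hba]
  refine (h1.mul h2).mul ((h1.inv ?_).mul (h2.inv ?_))
  · have : (1 + a) * (1 - a) = 1 - a * a := by noncomm_ring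
    rw [this, ha, sub_zero]
  · have : (1 + b) * (1 - b) = 1 - b * b := by noncomm_ring
    rw [this, hb, sub_zero]

/-- rows `χ` for which `1 + e_k χ` is a unipotent element of `G` -/
def C (G : Subgroup (SLI (Fin 7 × Fin ρ) p)) (k : Fin 7)
    (χ : Matrix (Fin ρ) (Fin 7 × Fin ρ) (ZMod p)) : Prop :=
  χ * eb ρ p k = 0 ∧ InG G (1 + eb ρ p k * χ)

theorem C_zero (k : Fin 7) : C G k 0 := by
  refine ⟨by simp, ?_⟩
  rw [Matrix.mul_zero, add_zero]
  exact InG.one

theorem C_add {k : Fin 7} {χ χ' : Matrix (Fin ρ) (Fin 7 × Fin ρ) (ZMod p)}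
    (h : C G k χ) (h' : C G k χ') : C G k (χ + χ') := by
  refine ⟨by rw [Matrix.add_mul, h.1, h'.1, add_zero], ?_⟩
  have e : (1 : Big ρ p) + eb ρ p k * (χ + χ') = (1 + eb ρ p k * χ) * (1 + eb ρ p k * χ') := by
    have e1 : (eb ρ p k * χ) * (eb ρ p k * χ') = 0 := by
      rw [Matrix.mul_assoc, ← Matrix.mul_assoc χ, h.1]
      simp
    rw [add_mul, one_mul, mul_add, mul_one, e1, Matrix.mul_add]
    abel
  rw [e]
  exact h.2.mul h'.2

theorem C_nsmul {k : Fin 7} {χ : Matrix (Fin ρ) (Fin 7 × Fin ρ) (ZMod p)}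
    (h : C G k χ) (n : ℕ) : C G k (n • χ) := by
  induction n with
  | zero => rw [zero_smul]; exact C_zero k
  | succ n ih => rw [succ_nsmul]; exact C_add ih h

theorem C_smul {k : Fin 7} {χ : Matrix (Fin ρ) (Fin 7 × Fin ρ) (ZMod p)}
    (h : C G k χ) (c : ZMod p) : C G k (c • χ) := by
  have := C_nsmul h c.val
  have e : c.val • χ = c • χ := by
    rw [← Nat.cast_smul_eq_nsmul (ZMod p), ZMod.natCast_val, ZMod.cast_id', id]
  rwa [e] at this

theorem C_sum {k : Fin 7} {α : Type} (s : Finset α)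
    (f : α → Matrix (Fin ρ) (Fin 7 × Fin ρ) (ZMod p)) (h : ∀ i ∈ s, C G k (f i)) :
    C G k (∑ i ∈ s, f i) :=
  Finset.sum_induction f (C G k) (fun _ _ => C_add) (C_zero k) h

theorem C_comm {k l : Fin 7} {α β : Matrix (Fin ρ) (Fin 7 × Fin ρ) (ZMod p)}
    (h : C G k α) (h' : C G l β) (hβ : β * eb ρ p k = 0) :
    C G k ((α * eb ρ p l) * β) := by
  refine ⟨by rw [Matrix.mul_assoc, hβ, Matrix.mul_zero], ?_⟩
  have e : eb ρ p k * (α * eb ρ p l * β) = (eb ρ p k * α) * (eb ρ p l * β) := by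
    simp only [Matrix.mul_assoc]
  rw [e]
  refine InG.comm ?_ ?_ ?_ h.2 h'.2
  · rw [Matrix.mul_assoc, ← Matrix.mul_assoc α, h.1]; simp
  · rw [Matrix.mul_assoc, ← Matrix.mul_assoc β, h'.1]; simp
  · rw [Matrix.mul_assoc, ← Matrix.mul_assoc β, hβ]; simp

/-- the base case -/
theorem C_base {M : Big ρ p} {T : Matrix (Fin ρ) (Fin ρ) (ZMod p)}
    (hG : ∀ i, InG G (wh M i)) (hT : ∀ i, wh M i * whi T M i = 1) {i k : Fin 7}
    (hik : rb M i * eb ρ p k = 0) : C G k ((rb M k * eb ρ p i) * rb M i) := by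
  have h0 : C G k (-((rb M k * eb ρ p i) * rb M i)) := by
    refine ⟨by rw [Matrix.neg_mul, Matrix.mul_assoc, hik, Matrix.mul_zero, neg_zero], ?_⟩
    have hi := hT i
    have hk := hT k
    rw [wh_eq, whi_eq] at hi hk
    have hi' := mul_eq_one_comm.1 hi
    set V := eb ρ p k * rb M k with hV
    set U := eb ρ p i * rb M i with hU
    set V' := eb ρ p k * (T * rb M k) with hV'
    set U' := eb ρ p i * (T * rb M i) with hU'
    have e0 : U' * V' = 0 := by
      rw [hU', hV', Matrix.mul_assoc, Matrix.mul_assoc T, ← Matrix.mul_assoc (rb M i), hik]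
      simp
    have e1 : U' * (1 + U) = U := by
      have : (1 - U') * (1 + U) = 1 + U - U' * (1 + U) := by noncomm_ring
      rw [this] at hi'
      have h2 : U - U' * (1 + U) = 0 := by
        have h3 : (1 : Big ρ p) + (U - U' * (1 + U)) = 1 + 0 := by
          rw [add_zero, ← add_sub_assoc]; exact hi'
        exact add_left_cancel h3
      exact (sub_eq_zero.1 h2).symm
    have e2 : (1 + V) * (1 - U') * (1 - V') * (1 + U) = 1 + -(V * U) := by
      have a1 : (1 + V) * (1 - U') * (1 - V') * (1 + U) =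
          ((1 + V) * (1 - V')) * (1 + U) - (1 + V) * (U' * (1 + U))
            + (1 + V) * (U' * V') * (1 + U) := by noncomm_ring
      rw [a1, hk, e1, e0]
      noncomm_ring
    have e3 : eb ρ p k * -((rb M k * eb ρ p i) * rb M i) = -(V * U) := by
      rw [hV, hU, Matrix.mul_neg]
      simp only [Matrix.mul_assoc]
    rw [e3, ← e2]
    have gi : InG G (1 + U) := by rw [hU, ← wh_eq]; exact hG i
    have gk : InG G (1 + V) := by rw [hV, ← wh_eq]; exact hG k
    exact ((gk.mul (gi.inv hi)).mul (gk.inv hk)).mul gi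
  have := C_smul h0 (-1)
  simpa using this

/-! ### The combinatorics of the pairs -/

/-- the pairs `(k, i)` with `M_ik = 0` -/
def al (k i : Fin 7) : Prop := i ≠ k ∧ i ≠ k + 1 ∧ ¬ (k = 2 ∧ i = 0) ∧ ¬ (k = 4 ∧ i = 0)

instance (k i : Fin 7) : Decidable (al k i) :=
  inferInstanceAs (Decidable (i ≠ k ∧ i ≠ k + 1 ∧ ¬ (k = 2 ∧ i = 0) ∧ ¬ (k = 4 ∧ i = 0)))

/-- one step of the closure -/
def stp (S : Fin 7 → Fin 7 → Bool) (k j : Fin 7) : Bool :=
  S k j || decide (al k j ∧ ∃ l : Fin 7, al k (l + 1) ∧ al l j ∧ S k (l + 1) = true ∧ S l j = true)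

theorem stp_le {P : Fin 7 → Fin 7 → Prop}
    (hr : ∀ k l j, al k (l + 1) → al l j → al k j → P k (l + 1) → P l j → P k j)
    {S : Fin 7 → Fin 7 → Bool} (hS : ∀ k j, S k j = true → P k j) :
    ∀ k j, stp S k j = true → P k j := by
  intro k j h
  unfold stp at h
  rw [Bool.or_eq_true, decide_eq_true_eq] at h
  rcases h with h | ⟨h1, l, h2, h3, h4, h5⟩
  · exact hS k j h
  · exact hr k l j h2 h3 h1 (hS _ _ h4) (hS _ _ h5)

/-- the base -/
def bs (k j : Fin 7) : Bool := decide (k = j + 1)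

theorem all_of_rule {P : Fin 7 → Fin 7 → Prop} (hb : ∀ j, P (j + 1) j)
    (hr : ∀ k l j, al k (l + 1) → al l j → al k j → P k (l + 1) → P l j → P k j) :
    ∀ k j, al k j → P k j := by
  have h0 : ∀ k j, bs k j = true → P k j := by
    intro k j h
    rw [bs, decide_eq_true_eq] at h
    rw [h]; exact hb j
  have h6 := stp_le hr (stp_le hr (stp_le hr (stp_le hr (stp_le hr (stp_le hr h0)))))
  have hall : ∀ k j, al k j → stp (stp (stp (stp (stp (stp bs))))) k j = true := by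
    decide +kernel
  exact fun k j h => h6 k j (hall k j h)

/-- one step of the second closure -/
def stq (S : Fin 7 → Fin 7 → Bool) (k j : Fin 7) : Bool :=
  S k j || decide (al k j ∧ ∃ l : Fin 7, al k (l + 1) ∧ al l j ∧
    (S k (l + 1) = true ∨ S l j = true))

theorem stq_le {P : Fin 7 → Fin 7 → Prop}
    (hr : ∀ k l j, al k (l + 1) → al l j → al k j → P k (l + 1) → P k j)
    (hl : ∀ k l j, al k (l + 1) → al l j → al k j → P l j → P k j)
    {S : Fin 7 → Fin 7 → Bool} (hS : ∀ k j, S k j = true → P k j) :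
    ∀ k j, stq S k j = true → P k j := by
  intro k j h
  unfold stq at h
  rw [Bool.or_eq_true, decide_eq_true_eq] at h
  rcases h with h | ⟨h1, l, h2, h3, h4 | h4⟩
  · exact hS k j h
  · exact hr k l j h2 h3 h1 (hS _ _ h4)
  · exact hl k l j h2 h3 h1 (hS _ _ h4)

/-- the base -/
def bt (i : Fin 7) (k j : Fin 7) : Bool := decide (k = 0 ∧ j = i)

theorem all_of_one {P : Fin 7 → Fin 7 → Prop} (i : Fin 7) (hi : i = 2 ∨ i = 4) (hb : P 0 i)
    (hr : ∀ k l j, al k (l + 1) → al l j → al k j → P k (l + 1) → P k j)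
    (hl : ∀ k l j, al k (l + 1) → al l j → al k j → P l j → P k j) :
    ∀ k j, al k j → P k j := by
  have h0 : ∀ k j, bt i k j = true → P k j := by
    intro k j h
    rw [bt, decide_eq_true_eq] at h
    rw [h.1, h.2]; exact hb
  have h6 := stq_le hr hl (stq_le hr hl (stq_le hr hl (stq_le hr hl
    (stq_le hr hl (stq_le hr hl h0)))))
  have hall : ∀ i : Fin 7, (i = 2 ∨ i = 4) → ∀ k j, al k j →
      stq (stq (stq (stq (stq (stq (bt i)))))) k j = true := by
    decide +kernel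
  exact fun k j h => h6 k j (hall i hi k j h)

theorem ex_link : ∀ k j : Fin 7, al k j → ∃ l, al k (l + 1) ∧ al l j := by decide +kernel

theorem ex_last : ∀ k i : Fin 7, i ≠ k + 1 → ¬ al k i →
    ∃ l, al l i ∧ al l (k + 1) ∧ al k (l + 1) := by decide +kernel

/-! ### Blocks of the special configuration -/

section Blocks

variable (S : Matrix (Fin ρ) (Fin ρ) (ZMod p)) (c : ZMod p)

/-- the entries on the cyclic subdiagonal -/
def mm (c : ZMod p) (l : Fin 7) : ZMod p := if l = 6 then c else 1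

theorem mm_ne {c : ZMod p} (hc : c ≠ 0) (l : Fin 7) : mm c l ≠ 0 := by
  unfold mm
  split_ifs
  · exact hc
  · exact one_ne_zero

/-- the block at `(0, 2)` -/
def X0 (ρ p : ℕ) : Matrix (Fin ρ) (Fin ρ) (ZMod p) :=
  Matrix.of fun a b => if a.val = 0 ∧ b.val = 0 then 1 else 0

/-- the block at `(0, 4)` -/
def Y0 (ρ p : ℕ) : Matrix (Fin ρ) (Fin ρ) (ZMod p) :=
  Matrix.of fun a b => if a.val = (b.val + 1) % ρ then 1 else 0

theorem bl_zero {k i : Fin 7} (h : al k i) : rb (M0 S c) i * eb ρ p k = 0 := by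
  ext a b
  rw [mul_eb_apply]
  obtain ⟨h1, h2, h3, h4⟩ := h
  have h5 : ¬ (i = 0 ∧ k = 6) := by
    rintro ⟨rfl, rfl⟩
    exact h2 (by decide)
  have h3' : ¬ (i = 0 ∧ k = 2) := fun h => h3 ⟨h.2, h.1⟩
  have h4' : ¬ (i = 0 ∧ k = 4) := fun h => h4 ⟨h.2, h.1⟩
  simp only [rb, M0, Matrix.of_apply, Matrix.zero_apply]
  rw [if_neg h1, if_neg h5, if_neg h2, if_neg h3', if_neg h4']

theorem bl_link (l : Fin 7) : rb (M0 S c) (l + 1) * eb ρ p l = mm c l • 1 := by
  ext a b
  rw [mul_eb_apply]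
  have h1 : l + 1 ≠ l := by revert l; decide
  simp only [rb, M0, Matrix.of_apply, Matrix.smul_apply, smul_eq_mul, Matrix.one_apply]
  rw [if_neg h1]
  by_cases h : l = 6
  · subst h
    rw [if_pos (by decide)]
    simp [mm]
  · have h2 : ¬ (l + 1 = 0 ∧ l = 6) := fun h' => h h'.2
    rw [if_neg h2, if_pos trivial]
    simp [mm, h]

theorem bl_X : rb (M0 S c) 0 * eb ρ p 2 = X0 ρ p := by
  ext a b
  rw [mul_eb_apply]
  simp only [rb, M0, X0, Matrix.of_apply]
  rw [if_neg (by decide), if_neg (by decide), if_neg (by decide), if_pos (by decide)]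

theorem bl_Y : rb (M0 S c) 0 * eb ρ p 4 = Y0 ρ p := by
  ext a b
  rw [mul_eb_apply]
  simp only [rb, M0, Y0, Matrix.of_apply]
  rw [if_neg (by decide), if_neg (by decide), if_neg (by decide), if_neg (by decide),
    if_pos (by decide)]

omit [Fact p.Prime] in
theorem diagS_M0 : DiagS S (M0 S c) := by
  intro i a b
  simp [M0]

end Blocks

/-! ### The Boolean combinations -/

section Alg

variable {S : Matrix (Fin ρ) (Fin ρ) (ZMod p)} {c : ZMod p}

/-- `z` lies in `Z(k, i)` -/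
def Z (G : Subgroup (SLI (Fin 7 × Fin ρ) p)) (M : Big ρ p) (k i : Fin 7)
    (z : Matrix (Fin ρ) (Fin ρ) (ZMod p)) : Prop := C G k (z * rb M i)

theorem Z_mul (hc : c ≠ 0) {k l j : Fin 7} (h3 : al k j)
    {z z' : Matrix (Fin ρ) (Fin ρ) (ZMod p)} (hz : Z G (M0 S c) k (l + 1) z)
    (hz' : Z G (M0 S c) l j z') : Z G (M0 S c) k j (z * z') := by
  have hβ : (z' * rb (M0 S c) j) * eb ρ p k = 0 := by
    rw [Matrix.mul_assoc, bl_zero S c h3, Matrix.mul_zero]
  have h := C_smul (C_comm hz hz' hβ) (mm c l)⁻¹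
  have e : (mm c l)⁻¹ • (z * rb (M0 S c) (l + 1) * eb ρ p l * (z' * rb (M0 S c) j)) =
      z * z' * rb (M0 S c) j := by
    rw [Matrix.mul_assoc z, bl_link, Matrix.mul_smul, Matrix.mul_one, Matrix.smul_mul, smul_smul,
      inv_mul_cancel₀ (mm_ne hc l), one_smul, Matrix.mul_assoc]
  rw [e] at h
  exact h

/-- `z` lies in all the `Z(k, i)` -/
def Wp (G : Subgroup (SLI (Fin 7 × Fin ρ) p)) (M : Big ρ p)
    (z : Matrix (Fin ρ) (Fin ρ) (ZMod p)) : Prop := ∀ k i, al k i → Z G M k i z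

theorem Wp_one (hc : c ≠ 0) {T : Matrix (Fin ρ) (Fin ρ) (ZMod p)}
    (hG : ∀ i, InG G (wh (M0 S c) i)) (hT : ∀ i, wh (M0 S c) i * whi T (M0 S c) i = 1) :
    Wp G (M0 S c) 1 := by
  apply all_of_rule
  · intro j
    have ha : al (j + 1) j := by revert j; decide
    have h := C_smul (C_base hG hT (bl_zero S c ha)) (mm c j)⁻¹
    rw [bl_link, Matrix.smul_mul, smul_smul, inv_mul_cancel₀ (mm_ne hc j), one_smul] at h
    exact h
  · intro k l j _ _ h3 h4 h5
    have := Z_mul hc h3 h4 h5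
    rwa [Matrix.mul_one] at this

theorem Wp_of (hc : c ≠ 0) (h1 : Wp G (M0 S c) 1) {z : Matrix (Fin ρ) (Fin ρ) (ZMod p)}
    {i : Fin 7} (hi : i = 2 ∨ i = 4) (hz : Z G (M0 S c) 0 i z) : Wp G (M0 S c) z := by
  refine all_of_one (P := fun k j => Z G (M0 S c) k j z) i hi hz ?_ ?_
  · intro k l j a1 a2 a3 a4
    have := Z_mul hc a3 a4 (h1 l j a2)
    rwa [Matrix.mul_one] at this
  · intro k l j a1 a2 a3 a4
    have := Z_mul hc a3 (h1 k (l + 1) a1) a4
    rwa [Matrix.one_mul] at this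

theorem Wp_X (hc : c ≠ 0) {T : Matrix (Fin ρ) (Fin ρ) (ZMod p)}
    (hG : ∀ i, InG G (wh (M0 S c) i)) (hT : ∀ i, wh (M0 S c) i * whi T (M0 S c) i = 1) :
    Wp G (M0 S c) (X0 ρ p) := by
  refine Wp_of hc (Wp_one hc hG hT) (i := 2) (Or.inl rfl) ?_
  have h := C_base hG hT (bl_zero S c (show al 0 2 by decide))
  rw [bl_X] at h
  exact h

theorem Wp_Y (hc : c ≠ 0) {T : Matrix (Fin ρ) (Fin ρ) (ZMod p)}
    (hG : ∀ i, InG G (wh (M0 S c) i)) (hT : ∀ i, wh (M0 S c) i * whi T (M0 S c) i = 1) :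
    Wp G (M0 S c) (Y0 ρ p) := by
  refine Wp_of hc (Wp_one hc hG hT) (i := 4) (Or.inr rfl) ?_
  have h := C_base hG hT (bl_zero S c (show al 0 4 by decide))
  rw [bl_Y] at h
  exact h

theorem Wp_mul (hc : c ≠ 0) {z z' : Matrix (Fin ρ) (Fin ρ) (ZMod p)}
    (h : Wp G (M0 S c) z) (h' : Wp G (M0 S c) z') : Wp G (M0 S c) (z * z') := by
  intro k j hkj
  obtain ⟨l, h1, h2⟩ := ex_link k j hkj
  exact Z_mul hc hkj (h k (l + 1) h1) (h' l j h2)

theorem Wp_smul {z : Matrix (Fin ρ) (Fin ρ) (ZMod p)}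
    (h : Wp G (M0 S c) z) (x : ZMod p) : Wp G (M0 S c) (x • z) := by
  intro k j hkj
  have := C_smul (h k j hkj) x
  rw [← Matrix.smul_mul] at this
  exact this

theorem Wp_sum {α : Type} (s : Finset α) (f : α → Matrix (Fin ρ) (Fin ρ) (ZMod p))
    (h : ∀ i ∈ s, Wp G (M0 S c) (f i)) : Wp G (M0 S c) (∑ i ∈ s, f i) := by
  intro k j hkj
  have := C_sum (G := G) (k := k) s (fun i => f i * rb (M0 S c) j) (fun i hi => h i hi k j hkj)
  rw [← Matrix.sum_mul] at this
  exact this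

theorem Wp_pow (hc : c ≠ 0) (h1 : Wp G (M0 S c) 1) {z : Matrix (Fin ρ) (Fin ρ) (ZMod p)}
    (h : Wp G (M0 S c) z) (n : ℕ) : Wp G (M0 S c) (z ^ n) := by
  induction n with
  | zero => rw [pow_zero]; exact h1
  | succ n ih => rw [pow_succ]; exact Wp_mul hc ih h

theorem Y0_pow (hρ : 1 ≤ ρ) (n : ℕ) (x y : Fin ρ) :
    (Y0 ρ p ^ n) x y = if x.val = (y.val + n) % ρ then 1 else 0 := by
  induction n generalizing y with
  | zero =>
    rw [pow_zero, Matrix.one_apply, add_zero, Nat.mod_eq_of_lt y.2]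
    by_cases h : x = y
    · rw [if_pos h, if_pos (by rw [h])]
    · rw [if_neg h, if_neg (fun e => h (Fin.ext e))]
  | succ n ih =>
    rw [pow_succ, Matrix.mul_apply]
    have hw : (y.val + 1) % ρ < ρ := Nat.mod_lt _ (by omega)
    rw [Finset.sum_eq_single (⟨(y.val + 1) % ρ, hw⟩ : Fin ρ)]
    · rw [ih]
      have e1 : ((y.val + 1) % ρ + n) % ρ = (y.val + (n + 1)) % ρ := by
        rw [Nat.mod_add_mod, add_assoc, add_comm 1 n]
      simp only [e1, Y0, Matrix.of_apply, if_true, mul_one]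
    · intro w _ hw'
      have : ¬ (w.val = (y.val + 1) % ρ) := fun e => hw' (Fin.ext e)
      simp only [Y0, Matrix.of_apply, if_neg this, mul_zero]
    · intro h'; exact absurd (Finset.mem_univ _) h'

theorem single_eq (hρ : 1 ≤ ρ) (a b : Fin ρ) :
    Matrix.single a b (1 : ZMod p) = Y0 ρ p ^ a.val * X0 ρ p * Y0 ρ p ^ (ρ - b.val) := by
  ext x y
  rw [Matrix.mul_apply, Finset.sum_eq_single (⟨0, by omega⟩ : Fin ρ)]
  · rw [Matrix.mul_apply, Finset.sum_eq_single (⟨0, by omega⟩ : Fin ρ)]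
    · rw [Y0_pow hρ, Y0_pow hρ]
      have e1 : (0 + a.val) % ρ = a.val := by rw [zero_add, Nat.mod_eq_of_lt a.2]
      have e2 : (0 = (y.val + (ρ - b.val)) % ρ) ↔ y = b := by
        have hb := b.2
        have hy := y.2
        constructor
        · intro h
          have hd : ρ ∣ y.val + (ρ - b.val) := Nat.dvd_of_mod_eq_zero h.symm
          obtain ⟨q, hq⟩ := hd
          have hq1 : q < 2 := by
            by_contra h2
            have : ρ * 2 ≤ ρ * q := Nat.mul_le_mul_left _ (by omega)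
            omega
          have hq0 : q ≠ 0 := by
            rintro rfl
            omega
          have : q = 1 := by omega
          subst this
          apply Fin.ext
          omega
        · rintro rfl
          have : y.val + (ρ - y.val) = ρ := by omega
          rw [this, Nat.mod_self]
      simp only [e1, e2, X0, Matrix.of_apply, and_self, if_true, mul_one, Matrix.single_apply]
      by_cases hx : a = x
      · by_cases hy : b = y
        · simp [hx, hy]
        · have : ¬ y = b := fun e => hy e.symm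
          simp [hy, this]
      · have : ¬ x.val = a.val := fun e => hx (Fin.ext e.symm)
        simp [hx, this]
    · intro w _ hw
      have : ¬ (w.val = 0) := fun e => hw (Fin.ext e)
      simp only [X0, Matrix.of_apply, this, false_and, if_false, mul_zero]
    · intro h'; exact absurd (Finset.mem_univ _) h'
  · intro w _ hw
    have hw0 : ¬ (w.val = 0) := fun e => hw (Fin.ext e)
    have : (Y0 ρ p ^ a.val * X0 ρ p) x w = 0 := by
      rw [Matrix.mul_apply]
      apply Finset.sum_eq_zero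
      intro u _
      simp only [X0, Matrix.of_apply, hw0, and_false, if_false, mul_zero]
    rw [this, zero_mul]
  · intro h'; exact absurd (Finset.mem_univ _) h'

theorem Wp_all (hρ : 1 ≤ ρ) (hc : c ≠ 0) {T : Matrix (Fin ρ) (Fin ρ) (ZMod p)}
    (hG : ∀ i, InG G (wh (M0 S c) i)) (hT : ∀ i, wh (M0 S c) i * whi T (M0 S c) i = 1)
    (z : Matrix (Fin ρ) (Fin ρ) (ZMod p)) : Wp G (M0 S c) z := by
  rw [Matrix.matrix_eq_sum_single z]
  apply Wp_sum
  intro a _
  apply Wp_sum
  intro b _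
  have e : Matrix.single a b (z a b) = z a b • Matrix.single a b (1 : ZMod p) := by
    rw [Matrix.smul_single, smul_eq_mul, mul_one]
  rw [e, single_eq hρ]
  have h1 := Wp_one hc hG hT
  exact Wp_smul (Wp_mul hc (Wp_mul hc (Wp_pow hc h1 (Wp_Y hc hG hT) _) (Wp_X hc hG hT))
    (Wp_pow hc h1 (Wp_Y hc hG hT) _)) _

/-- the rows modulo row `k + 1` -/
theorem C_mod (hρ : 1 ≤ ρ) (hc : c ≠ 0) {T : Matrix (Fin ρ) (Fin ρ) (ZMod p)}
    (hG : ∀ i, InG G (wh (M0 S c) i)) (hT : ∀ i, wh (M0 S c) i * whi T (M0 S c) i = 1)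
    (k i : Fin 7) (z : Matrix (Fin ρ) (Fin ρ) (ZMod p)) :
    C G k (z * (rb (M0 S c) i -
      ((mm c k)⁻¹ • (rb (M0 S c) i * eb ρ p k)) * rb (M0 S c) (k + 1))) := by
  have hW := Wp_all (S := S) (G := G) hρ hc hG hT
  by_cases hi : i = k + 1
  · subst hi
    have e : z * (rb (M0 S c) (k + 1) -
        ((mm c k)⁻¹ • (rb (M0 S c) (k + 1) * eb ρ p k)) * rb (M0 S c) (k + 1)) = 0 := by
      rw [bl_link, smul_smul, inv_mul_cancel₀ (mm_ne hc k), one_smul, Matrix.one_mul, sub_self,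
        Matrix.mul_zero]
    rw [e]
    exact C_zero k
  by_cases ha : al k i
  · rw [bl_zero S c ha, smul_zero, Matrix.zero_mul, sub_zero]
    exact hW z k i ha
  obtain ⟨l, h1, h2, h3⟩ := ex_last k i hi ha
  set χ := rb (M0 S c) i -
      ((mm c k)⁻¹ • (rb (M0 S c) i * eb ρ p k)) * rb (M0 S c) (k + 1) with hχ
  have hχk : χ * eb ρ p k = 0 := by
    rw [hχ, Matrix.sub_mul, Matrix.mul_assoc, bl_link, Matrix.mul_smul, Matrix.mul_one, smul_smul,
      mul_inv_cancel₀ (mm_ne hc k), one_smul, sub_self]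
  have hCl : C G l χ := by
    have c1 := hW 1 l i h1
    have c2 := hW (-((mm c k)⁻¹ • (rb (M0 S c) i * eb ρ p k))) l (k + 1) h2
    have := C_add c1 c2
    rw [Matrix.one_mul, Matrix.neg_mul, ← sub_eq_add_neg] at this
    exact this
  have hCk := hW z k (l + 1) h3
  have h := C_smul (C_comm hCk hCl hχk) (mm c l)⁻¹
  have e : (mm c l)⁻¹ • (z * rb (M0 S c) (l + 1) * eb ρ p l * χ) = z * χ := by
    rw [Matrix.mul_assoc z, bl_link, Matrix.mul_smul, Matrix.mul_one, Matrix.smul_mul, smul_smul,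
      inv_mul_cancel₀ (mm_ne hc l), one_smul]
  rw [e] at h
  exact h

theorem sum_eb_rb (M : Big ρ p) : ∑ i, eb ρ p i * rb M i = M := by
  ext x y
  rw [Matrix.sum_apply, Finset.sum_eq_single x.1]
  · rw [eb_mul_apply, if_pos rfl]; rfl
  · intro i _ hi
    rw [eb_mul_apply, if_neg (fun h => hi h.symm)]
  · intro h'; exact absurd (Finset.mem_univ _) h'

theorem C_all (hρ : 1 ≤ ρ) (hc : c ≠ 0) {T : Matrix (Fin ρ) (Fin ρ) (ZMod p)}
    (hG : ∀ i, InG G (wh (M0 S c) i)) (hT : ∀ i, wh (M0 S c) i * whi T (M0 S c) i = 1)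
    (hM : (M0 S c).det ≠ 0) (k : Fin 7) (χ : Matrix (Fin ρ) (Fin 7 × Fin ρ) (ZMod p))
    (hχ : χ * eb ρ p k = 0) : C G k χ := by
  set a := χ * (M0 S c)⁻¹ with ha
  have h1 : a * M0 S c = χ := by
    rw [ha, Matrix.mul_assoc, Matrix.nonsing_inv_mul _ (Ne.isUnit hM), Matrix.mul_one]
  have h2 : χ = ∑ i, (a * eb ρ p i) * rb (M0 S c) i := by
    rw [← h1]
    conv_lhs => rw [← sum_eb_rb (M0 S c)]
    rw [Matrix.mul_sum]
    apply Finset.sum_congr rfl
    intro i _
    exact (Matrix.mul_assoc _ _ _).symm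
  have h3 : ∑ i, (a * eb ρ p i) * (rb (M0 S c) i * eb ρ p k) = 0 := by
    rw [← hχ]
    conv_rhs => rw [h2]
    rw [Matrix.sum_mul]
    apply Finset.sum_congr rfl
    intro i _
    exact (Matrix.mul_assoc _ _ _).symm
  have h4 : χ = ∑ i, (a * eb ρ p i) * (rb (M0 S c) i -
      ((mm c k)⁻¹ • (rb (M0 S c) i * eb ρ p k)) * rb (M0 S c) (k + 1)) := by
    have e : ∑ i, (a * eb ρ p i) * (((mm c k)⁻¹ • (rb (M0 S c) i * eb ρ p k)) *
        rb (M0 S c) (k + 1)) = 0 := by
      have e1 : ∀ i, (a * eb ρ p i) * (((mm c k)⁻¹ • (rb (M0 S c) i * eb ρ p k)) *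
          rb (M0 S c) (k + 1)) = ((mm c k)⁻¹ • ((a * eb ρ p i) * (rb (M0 S c) i * eb ρ p k))) *
          rb (M0 S c) (k + 1) := by
        intro i
        rw [Matrix.smul_mul, Matrix.mul_smul, Matrix.smul_mul, ← Matrix.mul_assoc (a * eb ρ p i)]
      rw [Finset.sum_congr rfl (fun i _ => e1 i), ← Matrix.sum_mul, ← Finset.smul_sum, h3,
        smul_zero, Matrix.zero_mul]
    conv_lhs => rw [h2]
    simp only [Matrix.mul_sub, Finset.sum_sub_distrib]
    rw [e, sub_zero]
  rw [h4]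
  apply C_sum
  intro i _
  exact C_mod hρ hc hG hT k i _

end Alg

end CLO

/-- block CLO -/
theorem clo (hWHL : Stmt_WHL) (hTG : Stmt_TGEN) : Stmt_CLO := by
  intro ρ p _ S c hρ hS hc hM
  set G := Subgroup.closure (gens (M0 S c)) with hGdef
  have hD : DiagS S (M0 S c) := CLO.diagS_M0 S c
  have hu : IsUnit (1 + S).det := by rw [hS]; exact isUnit_one
  have hT : ∀ i, wh (M0 S c) i * whi (1 + S)⁻¹ (M0 S c) i = 1 := fun i =>
    (hWHL 7 ρ (ZMod p) S (1 + S)⁻¹ (M0 S c) i hD).2 (Matrix.mul_nonsing_inv _ hu)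
  have hG : ∀ i, CLO.InG G (wh (M0 S c) i) := by
    intro i
    have hd : (wh (M0 S c) i).det = 1 := by
      rw [(hWHL 7 ρ (ZMod p) S (1 + S)⁻¹ (M0 S c) i hD).1, hS]
    exact ⟨⟨wh (M0 S c) i, hd⟩, Subgroup.subset_closure ⟨i, rfl⟩, rfl⟩
  have hC := fun k χ h => CLO.C_all (G := G) hρ hc hG hT hM k χ h
  -- transvections between different blocks
  have hd : ∀ (x y : Fin 7 × Fin ρ), x.1 ≠ y.1 → ∀ t : ZMod p,
      CLO.InG G (1 + Matrix.single x y t) := by
    intro x y hxy t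
    have h := (hC x.1 (Matrix.single x.2 y t) (by
      ext a b
      rw [CLO.mul_eb_apply, Matrix.zero_apply, Matrix.single_apply_of_col_ne]
      intro e
      exact hxy (by rw [e]))).2
    have e : CLO.eb ρ p x.1 * Matrix.single x.2 y t = Matrix.single x y t := by
      ext u v
      rw [CLO.eb_mul_apply]
      by_cases h1 : u.1 = x.1
      · rw [if_pos h1]
        simp only [Matrix.single_apply]
        by_cases h2 : x.2 = u.2
        · have : x = u := Prod.ext h1.symm h2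
          simp [this]
        · have : x ≠ u := fun e => h2 (by rw [e])
          simp [h2, this]
      · rw [if_neg h1]
        have : x ≠ u := fun e => h1 (by rw [e])
        simp [this]
    rw [e] at h
    exact h
  apply hTG
  intro x y hxy t
  have key : CLO.InG G (1 + Matrix.single x y t) := by
    by_cases h1 : x.1 = y.1
    · set w : Fin 7 × Fin ρ := (x.1 + 1, x.2) with hw
      have hxw : x.1 ≠ w.1 := by
        rw [hw]
        have : ∀ k : Fin 7, k ≠ k + 1 := by decide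
        exact this _
      have hwy : w.1 ≠ y.1 := by rw [← h1]; exact hxw.symm
      have hxw' : x ≠ w := fun e => hxw (by rw [← e])
      have hwy' : w ≠ y := fun e => hwy (by rw [e])
      have e : Matrix.single x w t * Matrix.single w y (1 : ZMod p) = Matrix.single x y t := by
        rw [Matrix.single_mul_single_same, mul_one]
      rw [← e]
      refine CLO.InG.comm ?_ ?_ ?_ (hd x w hxw t) (hd w y hwy 1)
      · exact Matrix.single_mul_single_of_ne _ _ _ _ hxw'.symm _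
      · exact Matrix.single_mul_single_of_ne _ _ _ _ hwy'.symm _
      · exact Matrix.single_mul_single_of_ne _ _ _ _ hxy.symm _
    · exact hd x y h1 t
  obtain ⟨g, hg, hge⟩ := key
  have : g = Matrix.SpecialLinearGroup.transvection hxy t := by
    apply Subtype.ext
    rw [Matrix.SpecialLinearGroup.transvection_coe]
    exact hge
  rw [← this]
  exact hg

end Pool.Agent.Work.MP_936a99_bb
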