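import Pool.Agent.Work.MP_936a99_bb.Interface

/-!
# Block COM (helper93): the commutator in the special configuration
-/

namespace Pool.Agent.Work.MP_936a99_bb

open Matrix Pool.Agent.Work.MP_936a99_al_h7

namespace COM

variable {t ρ : ℕ} {R : Type} [CommRing R]

/-- embedding of the block `i` -/
def em (t ρ : ℕ) (R : Type) [CommRing R] (i : Fin t) : Matrix (Fin t × Fin ρ) (Fin ρ) R :=
  Matrix.of fun x a => if x.1 = i ∧ x.2 = a then 1 else 0

/-- the `i`-th block row -/
def brow (M : Matrix (Fin t × Fin ρ) (Fin t × Fin ρ) R) (i : Fin t) :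
    Matrix (Fin ρ) (Fin t × Fin ρ) R :=
  Matrix.of fun a y => M (i, a) y

lemma em_mul (i : Fin t) {n : Type} (B : Matrix (Fin ρ) n R) (x : Fin t × Fin ρ) (y : n) :
    (em t ρ R i * B) x y = if x.1 = i then B x.2 y else 0 := by
  classical
  rw [Matrix.mul_apply]
  unfold em
  simp only [Matrix.of_apply, ite_mul, one_mul, zero_mul]
  by_cases h : x.1 = i
  · simp [h]
  · simp [h]

lemma mul_em (i : Fin t) {n : Type} (B : Matrix n (Fin t × Fin ρ) R) (x : n) (b : Fin ρ) :
    (B * em t ρ R i) x b = B x (i, b) := by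
  classical
  rw [Matrix.mul_apply]
  unfold em
  rw [Finset.sum_eq_single (i, b)]
  · simp
  · rintro ⟨j, c⟩ _ hne
    have : ¬ (j = i ∧ c = b) := by
      rintro ⟨rfl, rfl⟩; exact hne rfl
    simp [this]
  · intro h; exact absurd (Finset.mem_univ _) h

lemma wh_eq (M : Matrix (Fin t × Fin ρ) (Fin t × Fin ρ) R) (i : Fin t) :
    wh M i = 1 + em t ρ R i * brow M i := by
  unfold wh
  congr 1
  ext x y
  rw [em_mul, Matrix.of_apply]
  by_cases h : x.1 = i
  · rw [if_pos h, if_pos h]
    unfold brow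
    rw [Matrix.of_apply, ← h]
  · rw [if_neg h, if_neg h]

lemma whi_eq (T : Matrix (Fin ρ) (Fin ρ) R) (M : Matrix (Fin t × Fin ρ) (Fin t × Fin ρ) R)
    (i : Fin t) : whi T M i = 1 - em t ρ R i * (T * brow M i) := by
  unfold whi
  congr 1
  ext x y
  rw [em_mul, Matrix.of_apply]
  by_cases h : x.1 = i
  · rw [if_pos h, if_pos h, Matrix.mul_apply]
    rfl
  · rw [if_neg h, if_neg h]

end COM

open COM in
theorem com : Stmt_COM := by
  intro ρ p _ S c hρ hS hc
  set M := M0 S c with hM
  set T := (1 + S)⁻¹ with hT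
  have hTS : (1 + S) * T = 1 := Matrix.mul_nonsing_inv _ (by rw [hS]; exact isUnit_one)
  have hTS' : T + S * T = 1 := by rw [← hTS, add_mul, one_mul]
  set e0 := em 7 ρ (ZMod p) 0 with he0
  set e1 := em 7 ρ (ZMod p) 1 with he1
  set r0 := COM.brow M 0 with hr0
  set r1 := COM.brow M 1 with hr1
  have h00 : r0 * e0 = S := by
    ext a b
    rw [mul_em, hr0]
    simp [COM.brow, hM, M0]
  have h11 : r1 * e1 = S := by
    ext a b
    rw [mul_em, hr1]
    simp [COM.brow, hM, M0]
  have h01 : r0 * e1 = 0 := by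
    ext a b
    rw [mul_em, hr0]
    simp [COM.brow, hM, M0]
  have h10 : r1 * e0 = 1 := by
    ext a b
    rw [mul_em, hr1, Matrix.one_apply]
    simp [COM.brow, hM, M0]
  set N := e1 * (T * r0) with hN
  have hcm : cm T M = 1 - N := by
    unfold cm
    rw [wh_eq, wh_eq, whi_eq, whi_eq, ← he0, ← he1, ← hr0, ← hr1]
    have hA : (1 + e0 * r0) * (1 + e1 * r1) = 1 + e0 * r0 + e1 * r1 := by
      have : (e0 * r0) * (e1 * r1) = 0 := by
        rw [Matrix.mul_assoc, ← Matrix.mul_assoc r0, h01, Matrix.zero_mul, Matrix.mul_zero]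
      have h2 : (1 + e0 * r0) * (1 + e1 * r1) = 1 + e0 * r0 + e1 * r1 + (e0 * r0) * (e1 * r1) := by
        noncomm_ring
      rw [h2, this, add_zero]
    rw [hA, Matrix.mul_assoc]
    have hB : (1 - e0 * (T * r0)) * (1 - e1 * (T * r1)) = 1 - e0 * (T * r0) - e1 * (T * r1) := by
      have : (e0 * (T * r0)) * (e1 * (T * r1)) = 0 := by
        rw [Matrix.mul_assoc, Matrix.mul_assoc T, ← Matrix.mul_assoc r0, h01, Matrix.zero_mul,
          Matrix.mul_zero, Matrix.mul_zero]
      have h2 : (1 - e0 * (T * r0)) * (1 - e1 * (T * r1)) =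
          1 - e0 * (T * r0) - e1 * (T * r1) + (e0 * (T * r0)) * (e1 * (T * r1)) := by
        noncomm_ring
      rw [h2, this, add_zero]
    rw [hB]
    have k00 : (e0 * r0) * (e0 * (T * r0)) = e0 * (S * T * r0) := by
      rw [Matrix.mul_assoc, ← Matrix.mul_assoc r0, h00, Matrix.mul_assoc S]
    have k01 : (e0 * r0) * (e1 * (T * r1)) = 0 := by
      rw [Matrix.mul_assoc, ← Matrix.mul_assoc r0, h01, Matrix.zero_mul, Matrix.mul_zero]
    have k10 : (e1 * r1) * (e0 * (T * r0)) = N := by
      rw [Matrix.mul_assoc, ← Matrix.mul_assoc r1, h10, Matrix.one_mul]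
    have k11 : (e1 * r1) * (e1 * (T * r1)) = e1 * (S * T * r1) := by
      rw [Matrix.mul_assoc, ← Matrix.mul_assoc r1, h11, Matrix.mul_assoc S]
    have t0 : e0 * (T * r0) + e0 * (S * T * r0) = e0 * r0 := by
      rw [← Matrix.mul_add, ← Matrix.add_mul, hTS', Matrix.one_mul]
    have t1 : e1 * (T * r1) + e1 * (S * T * r1) = e1 * r1 := by
      rw [← Matrix.mul_add, ← Matrix.add_mul, hTS', Matrix.one_mul]
    have expand : (1 + e0 * r0 + e1 * r1) * (1 - e0 * (T * r0) - e1 * (T * r1)) =
        1 + (e0 * r0 - (e0 * (T * r0) + (e0 * r0) * (e0 * (T * r0)))) +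
          (e1 * r1 - (e1 * (T * r1) + (e1 * r1) * (e1 * (T * r1)))) -
          (e0 * r0) * (e1 * (T * r1)) - (e1 * r1) * (e0 * (T * r0)) := by
      noncomm_ring
    rw [expand, k00, k01, k10, k11, t0, t1]
    simp
  have hNN : N * N = 0 := by
    rw [hN, Matrix.mul_assoc, Matrix.mul_assoc T, ← Matrix.mul_assoc r0, h01, Matrix.zero_mul,
      Matrix.mul_zero, Matrix.mul_zero]
  have hpow : ∀ s : ℕ, (1 - N) ^ s = 1 - (s : ZMod p) • N := by
    intro s
    induction s with
    | zero => simp
    | succ s ih =>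
      rw [pow_succ, ih, sub_mul, one_mul, mul_sub, mul_one, Matrix.smul_mul, hNN,
        smul_zero, sub_zero]
      push_cast
      rw [add_smul, one_smul]
      abel
  -- an entry of `T` which is not zero
  obtain ⟨a, b, hab⟩ : ∃ a b, T a b ≠ 0 := by
    by_contra hcon
    push Not at hcon
    have hT0 : T = 0 := by
      ext a b
      exact hcon a b
    rw [hT0, Matrix.mul_zero] at hTS
    have := congrFun (congrFun hTS ⟨0, hρ⟩) ⟨0, hρ⟩
    rw [Matrix.one_apply_eq] at this
    exact zero_ne_one this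
  refine ⟨(1, a), (6, b), ?_, ?_⟩
  · intro h
    have := congrArg Prod.fst h
    simp only at this
    exact absurd this (by decide)
  · intro s hs1 hs2
    rw [hcm, hpow, Matrix.sub_apply, Matrix.smul_apply, Matrix.one_apply_ne
      (show ((1 : Fin 7), a) ≠ ((6 : Fin 7), b) by
        intro h
        have := congrArg Prod.fst h
        simp only at this
        exact absurd this (by decide)), zero_sub, neg_ne_zero, smul_eq_mul]
    have hNe : N (1, a) (6, b) = T a b * c := by
      rw [hN, he1, em_mul, if_pos rfl, Matrix.mul_apply]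
      have hr : ∀ j : Fin ρ, r0 j (6, b) = if j = b then c else 0 := by
        intro j
        rw [hr0]
        have h6 : ¬ ((0 : Fin 7) = 6) := by decide
        simp [COM.brow, hM, M0, h6]
      simp only [hr]
      simp
    rw [hNe]
    refine mul_ne_zero ?_ (mul_ne_zero hab hc)
    intro h0
    rw [ZMod.natCast_eq_zero_iff] at h0
    exact absurd (Nat.le_of_dvd (by omega) h0) (by omega)

end Pool.Agent.Work.MP_936a99_bb
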