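import Pool.Agent.Work.MP_936a99_bb.Interface

/-!
# MP_936a99_al, uniform bounded rank theorem: block CNT (helper53)

A polynomial map tangent to the identity has a large image.
-/

namespace Pool.Agent.Work.MP_936a99_bb

namespace CNT

open MvPolynomial

variable {k p : ℕ}

/-- the degree of a monomial -/
def dg (m : Fin k →₀ ℕ) : ℕ := ∑ i, m i

lemma dg_add (m n : Fin k →₀ ℕ) : dg (m + n) = dg m + dg n := by
  simp [dg, Finset.sum_add_distrib]

/-- no monomials of degree less than `n` -/
def Ord (n : ℕ) (F : MvPolynomial (Fin k) (ZMod p)) : Prop := ∀ m, dg m < n → F.coeff m = 0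

lemma Ord.mul {n n' : ℕ} {F F' : MvPolynomial (Fin k) (ZMod p)} (h : Ord n F) (h' : Ord n' F') :
    Ord (n + n') (F * F') := by
  intro m hm
  rw [coeff_mul]
  apply Finset.sum_eq_zero
  intro x hx
  rw [Finset.HasAntidiagonal.mem_antidiagonal] at hx
  rw [← hx, dg_add] at hm
  by_cases h1 : dg x.1 < n
  · rw [h _ h1, zero_mul]
  · rw [h' _ (by omega), mul_zero]

lemma Ord.add {n : ℕ} {F F' : MvPolynomial (Fin k) (ZMod p)} (h : Ord n F) (h' : Ord n F') :
    Ord n (F + F') := by
  intro m hm
  rw [coeff_add, h m hm, h' m hm, add_zero]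

/-- same terms of degree `n`, no smaller terms -/
def Rel (n : ℕ) (F F' : MvPolynomial (Fin k) (ZMod p)) : Prop :=
  Ord n F ∧ Ord n F' ∧ Ord (n + 1) (F - F')

lemma Rel.mul {n m : ℕ} {F F' G G' : MvPolynomial (Fin k) (ZMod p)} (h : Rel n F F')
    (h' : Rel m G G') : Rel (n + m) (F * G) (F' * G') := by
  refine ⟨h.1.mul h'.1, h.2.1.mul h'.2.1, ?_⟩
  have e : F * G - F' * G' = (F - F') * G + F' * (G - G') := by ring
  rw [e]
  have h1 := h.2.2.mul h'.1
  have h2 := h.2.1.mul h'.2.2
  have e1 : n + 1 + m = n + m + 1 := by omega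
  rw [e1] at h1
  exact h1.add h2

lemma Rel.one : Rel (k := k) (p := p) 0 1 1 := by
  refine ⟨fun m hm => by omega, fun m hm => by omega, ?_⟩
  intro m _
  simp

lemma Rel.pow {n : ℕ} {F F' : MvPolynomial (Fin k) (ZMod p)} (h : Rel n F F') (a : ℕ) :
    Rel (a * n) (F ^ a) (F' ^ a) := by
  induction a with
  | zero => simpa using Rel.one
  | succ a ih =>
    have := ih.mul h
    rw [pow_succ, pow_succ, Nat.succ_mul]
    exact this

lemma Rel.prod (s : Finset (Fin k)) (n : Fin k → ℕ) (F F' : Fin k → MvPolynomial (Fin k) (ZMod p))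
    (h : ∀ i, Rel (n i) (F i) (F' i)) : Rel (∑ i ∈ s, n i) (∏ i ∈ s, F i) (∏ i ∈ s, F' i) := by
  classical
  induction s using Finset.induction_on with
  | empty => simpa using Rel.one
  | insert a s ha ih =>
    rw [Finset.sum_insert ha, Finset.prod_insert ha, Finset.prod_insert ha]
    exact (h a).mul ih

lemma dg_eq_zero {m : Fin k →₀ ℕ} (h : dg m = 0) : m = 0 := by
  ext i
  have := (Finset.sum_eq_zero_iff).1 h i (Finset.mem_univ i)
  simpa using this

lemma dg_eq_one {m : Fin k →₀ ℕ} (h : dg m = 1) : ∃ i, m = Finsupp.single i 1 := by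
  classical
  have h0 : ∃ i, m i ≠ 0 := by
    by_contra hcon
    push Not at hcon
    have : dg m = 0 := by unfold dg; exact Finset.sum_eq_zero (fun i _ => hcon i)
    omega
  obtain ⟨i, hi⟩ := h0
  refine ⟨i, ?_⟩
  have hsum : dg m = m i + ∑ j ∈ Finset.univ.erase i, m j := by
    unfold dg; rw [Finset.add_sum_erase _ _ (Finset.mem_univ i)]
  have h1 : m i = 1 := by omega
  have h2 : ∑ j ∈ Finset.univ.erase i, m j = 0 := by omega
  ext j
  by_cases hj : j = i
  · subst hj; simp [h1]
  · have := (Finset.sum_eq_zero_iff).1 h2 j (Finset.mem_erase.2 ⟨hj, Finset.mem_univ j⟩)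
    rw [this, Finsupp.single_apply, if_neg (fun e => hj e.symm)]

lemma rel_f (f : MvPolynomial (Fin k) (ZMod p)) (j : Fin k) (h0 : f.coeff 0 = 0)
    (h1 : ∀ i, f.coeff (Finsupp.single i 1) = if i = j then 1 else 0) : Rel 1 f (X j) := by
  classical
  have hX : ∀ i : Fin k, coeff (Finsupp.single i 1) (X j : MvPolynomial (Fin k) (ZMod p)) =
      if i = j then 1 else 0 := by
    intro i
    rw [coeff_X]
    have : Finsupp.single j 1 = (Finsupp.single i 1 : Fin k →₀ ℕ) ↔ i = j := by
      constructor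
      · intro h
        exact ((Finsupp.single_left_inj one_ne_zero).1 h).symm
      · rintro rfl; rfl
    simp only [this]
  refine ⟨?_, ?_, ?_⟩
  · intro m hm
    rw [dg_eq_zero (m := m) (by omega)]; exact h0
  · intro m hm
    rw [dg_eq_zero (m := m) (by omega)]; simp
  · intro m hm
    by_cases h : dg m = 0
    · rw [dg_eq_zero h, coeff_sub, h0]; simp
    · obtain ⟨i, rfl⟩ := dg_eq_one (m := m) (by omega)
      rw [coeff_sub, h1, hX, sub_self]

/-- the exponent vector -/
noncomputable def ex {e : ℕ} (a : Fin k → Fin (e + 1)) : Fin k →₀ ℕ :=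
  Finsupp.equivFunOnFinite.symm (fun i => (a i : ℕ))

lemma ex_apply {e : ℕ} (a : Fin k → Fin (e + 1)) (i : Fin k) : ex a i = (a i : ℕ) := rfl

lemma dg_ex {e : ℕ} (a : Fin k → Fin (e + 1)) : dg (ex a) = ∑ i, (a i : ℕ) := rfl

lemma ex_inj {e : ℕ} {a b : Fin k → Fin (e + 1)} (h : ex a = ex b) : a = b := by
  funext i
  have := DFunLike.congr_fun h i
  rw [ex_apply, ex_apply] at this
  exact Fin.ext this

/-- the coefficients of products of powers -/
lemma coeff_prod {e : ℕ} (f : Fin k → MvPolynomial (Fin k) (ZMod p))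
    (h0 : ∀ j, (f j).coeff 0 = 0)
    (h1 : ∀ i j, (f j).coeff (Finsupp.single i 1) = if i = j then 1 else 0)
    (a b : Fin k → Fin (e + 1)) (hab : dg (ex b) ≤ dg (ex a)) :
    coeff (ex b) (∏ j, (f j) ^ (a j : ℕ)) = if a = b then 1 else 0 := by
  classical
  have hR : Rel (∑ i, (a i : ℕ)) (∏ j, (f j) ^ (a j : ℕ))
      (∏ j, (X j : MvPolynomial (Fin k) (ZMod p)) ^ (a j : ℕ)) := by
    apply Rel.prod
    intro i
    have := (rel_f (f i) i (h0 i) (fun j => h1 j i)).pow (a i : ℕ)
    rwa [mul_one] at this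
  have h2 := hR.2.2 (ex b) (by rw [dg_ex, dg_ex] at hab; rw [dg_ex]; omega)
  rw [coeff_sub, sub_eq_zero] at h2
  rw [h2]
  have e1 : (∏ j, (X j : MvPolynomial (Fin k) (ZMod p)) ^ (a j : ℕ)) = monomial (ex a) 1 := by
    rw [monomial_eq, Finsupp.prod_fintype _ _ (fun i => pow_zero _)]
    simp [ex_apply]
  rw [e1, coeff_monomial]
  by_cases hab' : a = b
  · rw [if_pos (by rw [hab']), if_pos hab']
  · rw [if_neg (fun h => hab' (ex_inj h)), if_neg hab']

/-- the main step -/
lemma main (k d p e : ℕ) [Fact p.Prime] (f : Fin k → MvPolynomial (Fin k) (ZMod p))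
    (hd : ∀ j, (f j).totalDegree ≤ d) (h0 : ∀ j, (f j).coeff 0 = 0)
    (h1 : ∀ i j, (f j).coeff (Finsupp.single i 1) = if i = j then 1 else 0)
    (he : k * (e * d) ≤ p - 1) :
    (e + 1) ^ k ≤
      (Finset.univ.image (fun x : Fin k → ZMod p => fun j => MvPolynomial.eval x (f j))).card := by
  classical
  by_contra hcon
  push Not at hcon
  set I := Finset.univ.image (fun x : Fin k → ZMod p => fun j => MvPolynomial.eval x (f j)) with hI
  let L : ((Fin k → Fin (e + 1)) → ZMod p) →ₗ[ZMod p] (I → ZMod p) :=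
    { toFun := fun c y => ∑ a, c a * ∏ j, (y.1 j) ^ (a j : ℕ)
      map_add' := by
        intro c c'
        funext y
        simp [add_mul, Finset.sum_add_distrib]
      map_smul' := by
        intro r c
        funext y
        simp [mul_assoc, Finset.mul_sum] }
  have hker : LinearMap.ker L ≠ ⊥ := by
    apply LinearMap.ker_ne_bot_of_finrank_lt
    rw [Module.finrank_fintype_fun_eq_card, Module.finrank_fintype_fun_eq_card]
    simpa using hcon
  obtain ⟨c, hc, hc0⟩ := Submodule.exists_mem_ne_zero_of_ne_bot hker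
  have hLc : ∀ y : I, ∑ a, c a * ∏ j, (y.1 j) ^ (a j : ℕ) = 0 := by
    intro y
    have := congrFun (LinearMap.mem_ker.1 hc) y
    exact this
  set G : MvPolynomial (Fin k) (ZMod p) := ∑ a : Fin k → Fin (e + 1),
    C (c a) * ∏ j, (f j) ^ (a j : ℕ) with hG
  have hG0 : G = 0 := by
    apply MvPolynomial.eq_zero_of_eval_eq_zero
    · intro v
      rw [hG, map_sum]
      have hv := hLc ⟨fun j => MvPolynomial.eval v (f j), by
        rw [hI]; exact Finset.mem_image_of_mem _ (Finset.mem_univ v)⟩
      rw [← hv]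
      apply Finset.sum_congr rfl
      intro a _
      simp [map_prod]
    · apply restrictTotalDegree_le_restrictDegree
      rw [mem_restrictTotalDegree, ZMod.card]
      refine le_trans ?_ he
      rw [hG]
      apply totalDegree_finsetSum_le
      intro a _
      refine (totalDegree_mul _ _).trans ?_
      rw [totalDegree_C, zero_add]
      refine (totalDegree_finsetProd _ _).trans ?_
      calc ∑ j, (f j ^ (a j : ℕ)).totalDegree ≤ ∑ _j : Fin k, e * d := by
            apply Finset.sum_le_sum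
            intro j _
            refine (totalDegree_pow _ _).trans ?_
            exact Nat.mul_le_mul (Nat.lt_succ_iff.1 (a j).2) (hd j)
        _ = k * (e * d) := by simp
  -- a monomial of least degree
  have hne : (Finset.univ.filter (fun a : Fin k → Fin (e + 1) => c a ≠ 0)).Nonempty := by
    by_contra hem
    rw [Finset.not_nonempty_iff_eq_empty] at hem
    apply hc0
    funext a
    by_contra ha
    have : a ∈ Finset.univ.filter (fun a : Fin k → Fin (e + 1) => c a ≠ 0) :=
      Finset.mem_filter.2 ⟨Finset.mem_univ a, ha⟩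
    rw [hem] at this
    simp at this
  obtain ⟨b, hb, hmin⟩ := Finset.exists_min_image _ (fun a => dg (ex a)) hne
  have hcoef : coeff (ex b) G = c b := by
    rw [hG, coeff_sum]
    rw [Finset.sum_eq_single b]
    · rw [coeff_C_mul, coeff_prod f h0 h1 b b le_rfl, if_pos rfl, mul_one]
    · intro a _ hab
      rw [coeff_C_mul]
      by_cases ha : c a = 0
      · rw [ha, zero_mul]
      · rw [coeff_prod f h0 h1 a b (hmin a (Finset.mem_filter.2 ⟨Finset.mem_univ a, ha⟩)),
          if_neg hab, mul_zero]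
    · intro h; exact absurd (Finset.mem_univ b) h
  rw [hG0, coeff_zero] at hcoef
  exact (Finset.mem_filter.1 hb).2 hcoef.symm

end CNT

theorem cnt : Stmt_CNT := by
  intro k d p _ f hd hdeg h0 h1
  have hp : 0 < p := (Fact.out : p.Prime).pos
  rcases Nat.eq_zero_or_pos k with hk | hk
  · subst hk
    simp
  · have hkd : 0 < k * d := Nat.mul_pos hk hd
    set e := (p - 1) / (k * d) with he
    have h2 : k * (e * d) ≤ p - 1 := by
      calc k * (e * d) = (k * d) * e := by ring
        _ ≤ p - 1 := Nat.mul_div_le _ _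
    have h3 : p ≤ (k * d) * (e + 1) := by
      have := Nat.lt_mul_div_succ (p - 1) hkd
      rw [← he] at this
      omega
    calc p ^ k ≤ ((k * d) * (e + 1)) ^ k := Nat.pow_le_pow_left h3 k
      _ = (k * d) ^ k * (e + 1) ^ k := mul_pow _ _ _
      _ ≤ _ := Nat.mul_le_mul_left _ (CNT.main k d p e f hdeg h0 h1 h2)

end Pool.Agent.Work.MP_936a99_bb
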