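import Pool.Agent.Work.MP_936a99_bb.Interface

/-!
# MP_936a99_al, project bb: block DET

The special configuration can be made invertible.
-/

set_option autoImplicit false

namespace Pool.Agent.Work.MP_936a99_bb

open Matrix

namespace DETx

variable {ρ p : ℕ} [Fact p.Prime]

/-- the matrix unit -/
def XX (ρ p : ℕ) : Matrix (Fin ρ) (Fin ρ) (ZMod p) :=
  Matrix.of fun a b => if a.val = 0 ∧ b.val = 0 then 1 else 0

/-- the cyclic permutation -/
def YY (ρ p : ℕ) : Matrix (Fin ρ) (Fin ρ) (ZMod p) :=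
  Matrix.of fun a b => if a.val = (b.val + 1) % ρ then 1 else 0

/-- the rows of the special configuration applied to a vector -/
theorem row (S : Matrix (Fin ρ) (Fin ρ) (ZMod p)) (c : ZMod p)
    (v : Fin 7 × Fin ρ → ZMod p) (i : Fin 7) (a : Fin ρ) :
    (M0 S c *ᵥ v) (i, a) = ∑ j : Fin 7, ∑ b : Fin ρ, M0 S c (i, a) (j, b) * v (j, b) := by
  rw [mulVec, dotProduct, Fintype.sum_prod_type]

theorem diag (S : Matrix (Fin ρ) (Fin ρ) (ZMod p)) (c : ZMod p)
    (v : Fin 7 × Fin ρ → ZMod p) (i : Fin 7) (a : Fin ρ) :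
    ∑ b : Fin ρ, M0 S c (i, a) (i, b) * v (i, b) = (S *ᵥ fun b => v (i, b)) a := by
  simp [M0, mulVec, dotProduct]

theorem low1 (S : Matrix (Fin ρ) (Fin ρ) (ZMod p)) (c : ZMod p)
    (v : Fin 7 × Fin ρ → ZMod p) (a : Fin ρ) :
    (M0 S c *ᵥ v) (1, a) = (S *ᵥ fun b => v (1, b)) a + v (0, a) := by
  rw [row, ← diag S c v 1 a, Fin.sum_univ_seven]
  simp [M0, add_comm]

theorem low2 (S : Matrix (Fin ρ) (Fin ρ) (ZMod p)) (c : ZMod p)
    (v : Fin 7 × Fin ρ → ZMod p) (a : Fin ρ) :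
    (M0 S c *ᵥ v) (2, a) = (S *ᵥ fun b => v (2, b)) a + v (1, a) := by
  rw [row, ← diag S c v 2 a, Fin.sum_univ_seven]
  simp [M0, add_comm]

theorem low3 (S : Matrix (Fin ρ) (Fin ρ) (ZMod p)) (c : ZMod p)
    (v : Fin 7 × Fin ρ → ZMod p) (a : Fin ρ) :
    (M0 S c *ᵥ v) (3, a) = (S *ᵥ fun b => v (3, b)) a + v (2, a) := by
  rw [row, ← diag S c v 3 a, Fin.sum_univ_seven]
  simp [M0, add_comm]

theorem low4 (S : Matrix (Fin ρ) (Fin ρ) (ZMod p)) (c : ZMod p)
    (v : Fin 7 × Fin ρ → ZMod p) (a : Fin ρ) :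
    (M0 S c *ᵥ v) (4, a) = (S *ᵥ fun b => v (4, b)) a + v (3, a) := by
  rw [row, ← diag S c v 4 a, Fin.sum_univ_seven]
  simp [M0, add_comm]

theorem low5 (S : Matrix (Fin ρ) (Fin ρ) (ZMod p)) (c : ZMod p)
    (v : Fin 7 × Fin ρ → ZMod p) (a : Fin ρ) :
    (M0 S c *ᵥ v) (5, a) = (S *ᵥ fun b => v (5, b)) a + v (4, a) := by
  rw [row, ← diag S c v 5 a, Fin.sum_univ_seven]
  simp [M0, add_comm]

theorem low6 (S : Matrix (Fin ρ) (Fin ρ) (ZMod p)) (c : ZMod p)
    (v : Fin 7 × Fin ρ → ZMod p) (a : Fin ρ) :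
    (M0 S c *ᵥ v) (6, a) = (S *ᵥ fun b => v (6, b)) a + v (5, a) := by
  rw [row, ← diag S c v 6 a, Fin.sum_univ_seven]
  simp [M0, add_comm]

theorem top (S : Matrix (Fin ρ) (Fin ρ) (ZMod p)) (c : ZMod p)
    (v : Fin 7 × Fin ρ → ZMod p) (a : Fin ρ) :
    (M0 S c *ᵥ v) (0, a) = (S *ᵥ fun b => v (0, b)) a + (XX ρ p *ᵥ fun b => v (2, b)) a +
      (YY ρ p *ᵥ fun b => v (4, b)) a + c * v (6, a) := by
  rw [row, Fin.sum_univ_seven]
  have e0 : ∑ b : Fin ρ, M0 S c (0, a) (0, b) * v (0, b) = (S *ᵥ fun b => v (0, b)) a :=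
    diag S c v 0 a
  have e1 : ∑ b : Fin ρ, M0 S c (0, a) (1, b) * v (1, b) = 0 := by
    simp [M0]
  have e2 : ∑ b : Fin ρ, M0 S c (0, a) (2, b) * v (2, b) = (XX ρ p *ᵥ fun b => v (2, b)) a := by
    simp [M0, XX, mulVec, dotProduct]
  have e3 : ∑ b : Fin ρ, M0 S c (0, a) (3, b) * v (3, b) = 0 := by
    simp [M0]
  have e4 : ∑ b : Fin ρ, M0 S c (0, a) (4, b) * v (4, b) = (YY ρ p *ᵥ fun b => v (4, b)) a := by
    simp [M0, YY, mulVec, dotProduct]
  have e5 : ∑ b : Fin ρ, M0 S c (0, a) (5, b) * v (5, b) = 0 := by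
    simp [M0]
  have e6 : ∑ b : Fin ρ, M0 S c (0, a) (6, b) * v (6, b) = c * v (6, a) := by
    simp [M0]
  rw [e0, e1, e2, e3, e4, e5, e6]
  ring

end DETx

theorem det_M0 : Stmt_DET := by
  intro ρ p _ S hρ
  set W : Matrix (Fin ρ) (Fin ρ) (ZMod p) :=
    S * S ^ 6 + DETx.XX ρ p * S ^ 4 + DETx.YY ρ p * S ^ 2 with hW
  -- the choice of `c`
  obtain ⟨c, hc⟩ : ∃ c : ZMod p, c ∉ insert 0 (-W).charpoly.roots.toFinset := by
    by_contra hcon
    push Not at hcon
    have h1 : (Finset.univ : Finset (ZMod p)) ⊆ insert 0 (-W).charpoly.roots.toFinset :=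
      fun c _ => hcon c
    have h2 := Finset.card_le_card h1
    rw [Finset.card_univ, ZMod.card] at h2
    have h3 : (-W).charpoly.roots.toFinset.card ≤ ρ := by
      refine (Multiset.toFinset_card_le _).trans ((Polynomial.card_roots' _).trans ?_)
      rw [Matrix.charpoly_natDegree_eq_dim, Fintype.card_fin]
    have h4 := Finset.card_insert_le (0 : ZMod p) (-W).charpoly.roots.toFinset
    omega
  rw [Finset.mem_insert, Multiset.mem_toFinset] at hc
  push Not at hc
  have hdet : (Matrix.scalar (Fin ρ) c + W).det ≠ 0 := by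
    intro h
    refine hc.2 ((Polynomial.mem_roots (Matrix.charpoly_monic _).ne_zero).2 ?_)
    rw [Polynomial.IsRoot, Matrix.eval_charpoly, sub_neg_eq_add, h]
  refine ⟨c, hc.1, fun h0 => ?_⟩
  obtain ⟨v, hv, hM⟩ := Matrix.exists_mulVec_eq_zero_iff.2 h0
  have r5 : (fun b => v (5, b)) = -(S *ᵥ fun b => v (6, b)) := by
    funext a
    have := DETx.low6 S c v a
    rw [hM, Pi.zero_apply] at this
    rw [Pi.neg_apply]
    linear_combination -this
  have r4 : (fun b => v (4, b)) = -(S *ᵥ fun b => v (5, b)) := by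
    funext a
    have := DETx.low5 S c v a
    rw [hM, Pi.zero_apply] at this
    rw [Pi.neg_apply]
    linear_combination -this
  have r3 : (fun b => v (3, b)) = -(S *ᵥ fun b => v (4, b)) := by
    funext a
    have := DETx.low4 S c v a
    rw [hM, Pi.zero_apply] at this
    rw [Pi.neg_apply]
    linear_combination -this
  have r2 : (fun b => v (2, b)) = -(S *ᵥ fun b => v (3, b)) := by
    funext a
    have := DETx.low3 S c v a
    rw [hM, Pi.zero_apply] at this
    rw [Pi.neg_apply]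
    linear_combination -this
  have r1 : (fun b => v (1, b)) = -(S *ᵥ fun b => v (2, b)) := by
    funext a
    have := DETx.low2 S c v a
    rw [hM, Pi.zero_apply] at this
    rw [Pi.neg_apply]
    linear_combination -this
  have r0 : (fun b => v (0, b)) = -(S *ᵥ fun b => v (1, b)) := by
    funext a
    have := DETx.low1 S c v a
    rw [hM, Pi.zero_apply] at this
    rw [Pi.neg_apply]
    linear_combination -this
  have s4 : (fun b => v (4, b)) = S ^ 2 *ᵥ fun b => v (6, b) := by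
    rw [r4, r5, mulVec_neg, neg_neg, mulVec_mulVec, ← pow_two]
  have s2 : (fun b => v (2, b)) = S ^ 4 *ᵥ fun b => v (6, b) := by
    rw [r2, r3, s4, mulVec_neg, neg_neg, mulVec_mulVec, mulVec_mulVec,
      show S * S * S ^ 2 = S ^ 4 by noncomm_ring]
  have s0 : (fun b => v (0, b)) = S ^ 6 *ᵥ fun b => v (6, b) := by
    rw [r0, r1, s2, mulVec_neg, neg_neg, mulVec_mulVec, mulVec_mulVec,
      show S * S * S ^ 4 = S ^ 6 by noncomm_ring]
  have hz : (Matrix.scalar (Fin ρ) c + W) *ᵥ (fun b => v (6, b)) = 0 := by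
    funext a
    have := DETx.top S c v a
    rw [hM, Pi.zero_apply, s0, s2, s4] at this
    rw [hW, add_mulVec, add_mulVec, add_mulVec, ← mulVec_mulVec, ← mulVec_mulVec, ← mulVec_mulVec]
    simp only [Pi.add_apply, Pi.zero_apply]
    have e : (Matrix.scalar (Fin ρ) c *ᵥ fun b => v (6, b)) a = c * v (6, a) := by
      rw [Matrix.scalar_apply, mulVec_diagonal]
    rw [e]
    linear_combination -this
  have h6 : (fun b => v (6, b)) = 0 := by
    by_contra hne
    exact hdet (Matrix.exists_mulVec_eq_zero_iff.1 ⟨_, hne, hz⟩)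
  have h5 : (fun b => v (5, b)) = 0 := by rw [r5, h6, mulVec_zero, neg_zero]
  have h4 : (fun b => v (4, b)) = 0 := by rw [r4, h5, mulVec_zero, neg_zero]
  have h3 : (fun b => v (3, b)) = 0 := by rw [r3, h4, mulVec_zero, neg_zero]
  have h2 : (fun b => v (2, b)) = 0 := by rw [r2, h3, mulVec_zero, neg_zero]
  have h1 : (fun b => v (1, b)) = 0 := by rw [r1, h2, mulVec_zero, neg_zero]
  have h00 : (fun b => v (0, b)) = 0 := by rw [r0, h1, mulVec_zero, neg_zero]
  refine hv (funext fun x => ?_)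
  obtain ⟨i, a⟩ := x
  fin_cases i
  · exact congrFun h00 a
  · exact congrFun h1 a
  · exact congrFun h2 a
  · exact congrFun h3 a
  · exact congrFun h4 a
  · exact congrFun h5 a
  · exact congrFun h6 a

end Pool.Agent.Work.MP_936a99_bb
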