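import Pool.Agent.Work.MP_936a99_bb.Interface

/-!
# Block ESC: steering of seven group elements
-/

set_option autoImplicit false

namespace Pool.Agent.Work.MP_936a99_bb

open Matrix Pool.Agent.Work.MP_936a99_al_h7

namespace Esc

section field

variable {K : Type} [Field K] {n ρ : ℕ}

/-- As a function of each coordinate separately, `F` is a polynomial of degree at most `d` in the
base functions. -/
def DegLe {t : ℕ} (d : ℕ) (F : (Fin t → SLn n K) → K) : Prop :=
  ∀ (h : Fin t → SLn n K) (j : Fin t), (fun x => F (Function.update h j x)) ∈ (BS n K) ^ d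

theorem DegLe.mul {t d e : ℕ} {F G : (Fin t → SLn n K) → K} (hF : DegLe d F) (hG : DegLe e G) :
    DegLe (d + e) (fun h => F h * G h) :=
  fun h j => mul_mem_pow (hF h j) (hG h j)

theorem DegLe.pow {t d : ℕ} {F : (Fin t → SLn n K) → K} (hF : DegLe d F) (k : ℕ) :
    DegLe (d * k) (fun h => F h ^ k) := by
  intro h j
  have h1 := Submodule.pow_mem_pow _ (hF h j) k
  rw [← pow_mul] at h1
  exact h1

theorem degLe_one {t : ℕ} (d : ℕ) : DegLe d (fun _ : Fin t → SLn n K => (1 : K)) :=
  fun _ _ => one_mem_pow d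

theorem DegLe.mono {t d e : ℕ} {F : (Fin t → SLn n K) → K} (hF : DegLe d F) (h : d ≤ e) :
    DegLe e F := fun g j => pow_mono (hF g j) h

theorem DegLe.const_mul {t d : ℕ} {F : (Fin t → SLn n K) → K} (c : K) (hF : DegLe d F) :
    DegLe d (fun h => c * F h) := fun h j => Submodule.smul_mem _ c (hF h j)

theorem DegLe.sum {t d : ℕ} {κ : Type*} {s : Finset κ} {F : κ → (Fin t → SLn n K) → K}
    (hF : ∀ i ∈ s, DegLe d (F i)) : DegLe d (fun h => ∑ i ∈ s, F i h) := by
  intro h j
  have h1 : (fun x => ∑ i ∈ s, F i (Function.update h j x)) =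
      ∑ i ∈ s, (fun x => F i (Function.update h j x)) := by
    funext x
    rw [Finset.sum_apply]
  rw [h1]
  exact Submodule.sum_mem _ fun i hi => hF i hi h j

theorem DegLe.prod_pow {t : ℕ} {κ : Type*} (s : Finset κ) {F : κ → (Fin t → SLn n K) → K}
    (hF : ∀ i, DegLe 1 (F i)) (m : κ → ℕ) :
    DegLe (∑ i ∈ s, m i) (fun h => ∏ i ∈ s, F i h ^ m i) := by
  classical
  induction s using Finset.induction_on with
  | empty =>
    simp only [Finset.prod_empty]
    exact degLe_one _
  | insert a s ha ih =>
    have h1 : (fun h => ∏ i ∈ insert a s, F i h ^ m i) =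
        fun h => F a h ^ m a * ∏ i ∈ s, F i h ^ m i := by
      funext h
      rw [Finset.prod_insert ha]
    rw [h1, Finset.sum_insert ha]
    refine DegLe.mul ?_ ih
    have h2 := (hF a).pow (m a)
    rwa [one_mul] at h2

/-- the entries of the matrix of pairings -/
theorem degLe_Mh (P Q : Fin ρ → (Fin n → K)) {t : ℕ} (x y : Fin t × Fin ρ) :
    DegLe 1 (fun h : Fin t → SLn n K => Mh P Q h x y) := by
  intro h j
  change (fun z => kk (Q x.2) (Function.update h j z x.1) ⬝ᵥ
    vv (P y.2) (Function.update h j z y.1)) ∈ _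
  apply mem_pow_one
  by_cases hx : x.1 = j
  · by_cases hy : y.1 = j
    · have h1 : (fun z => kk (Q x.2) (Function.update h j z x.1) ⬝ᵥ
          vv (P y.2) (Function.update h j z y.1)) = fun _ => Q x.2 ⬝ᵥ P y.2 := by
        funext z
        rw [hx, hy, Function.update_self, kk_dot_vv]
      rw [h1]
      exact const_mem_BS _
    · have h1 : (fun z => kk (Q x.2) (Function.update h j z x.1) ⬝ᵥ
          vv (P y.2) (Function.update h j z y.1)) =
          fun z => kk (Q x.2) z ⬝ᵥ vv (P y.2) (h y.1) := by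
        funext z
        rw [hx, Function.update_self, Function.update_of_ne hy]
      rw [h1]
      exact kk_mem _ _
  · by_cases hy : y.1 = j
    · have h1 : (fun z => kk (Q x.2) (Function.update h j z x.1) ⬝ᵥ
          vv (P y.2) (Function.update h j z y.1)) =
          fun z => kk (Q x.2) (h x.1) ⬝ᵥ vv (P y.2) z := by
        funext z
        rw [hy, Function.update_self, Function.update_of_ne hx]
      rw [h1]
      exact vv_mem _ _
    · have h1 : (fun z => kk (Q x.2) (Function.update h j z x.1) ⬝ᵥ
          vv (P y.2) (Function.update h j z y.1)) =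
          fun _ => kk (Q x.2) (h x.1) ⬝ᵥ vv (P y.2) (h y.1) := by
        funext z
        rw [Function.update_of_ne hx, Function.update_of_ne hy]
      rw [h1]
      exact const_mem_BS _

/-- the value of a polynomial of total degree at most `D` at the matrix of pairings -/
theorem degLe_eval (P Q : Fin ρ → (Fin n → K)) {t D : ℕ}
    (Ψ : MvPolynomial ((Fin t × Fin ρ) × (Fin t × Fin ρ)) K) (hΨ : Ψ.totalDegree ≤ D) :
    DegLe D (fun h : Fin t → SLn n K => MvPolynomial.eval (fun x => Mh P Q h x.1 x.2) Ψ) := by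
  have h1 : (fun h : Fin t → SLn n K => MvPolynomial.eval (fun x => Mh P Q h x.1 x.2) Ψ) =
      fun h => ∑ m ∈ Ψ.support, Ψ.coeff m * ∏ i ∈ m.support, Mh P Q h i.1 i.2 ^ m i := by
    funext h
    rw [MvPolynomial.eval_eq]
  rw [h1]
  refine DegLe.sum fun m hm => DegLe.const_mul _ ?_
  refine (DegLe.prod_pow m.support (fun i => degLe_Mh P Q i.1 i.2) m).mono ?_
  refine le_trans ?_ hΨ
  exact MvPolynomial.le_totalDegree hm

end field

end Esc

theorem esc : Stmt_ESC := by
  intro n ρ p D _ A P Q Ψ g hA hΨ hg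
  have hdeg := Esc.degLe_eval P Q Ψ hΨ
  set F : (Fin 7 → SLn n (ZMod p)) → ZMod p :=
    fun h => MvPolynomial.eval (fun x => Mh P Q h x.1 x.2) Ψ with hF
  have key : ∀ s : Finset (Fin 7), ∃ h : Fin 7 → SLn n (ZMod p),
      (∀ i ∈ s, Reach A ((2 * n ^ 2 + 1) ^ D) (h i)) ∧ F h ≠ 0 := by
    intro s
    induction s using Finset.induction_on with
    | empty => exact ⟨g, by simp, hg⟩
    | insert j s hj ih =>
      obtain ⟨h, h1, h2⟩ := ih
      obtain ⟨w, hw, hw'⟩ := open_steer hA (hdeg h j) (h := h j) (by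
        rw [Function.update_eq_self]
        exact h2)
      refine ⟨Function.update h j w, ?_, hw'⟩
      intro i hi
      by_cases hij : i = j
      · subst hij
        rw [Function.update_self]
        exact hw
      · rw [Function.update_of_ne hij]
        exact h1 i (Finset.mem_of_mem_insert_of_ne hi hij)
  obtain ⟨h, h1, h2⟩ := key Finset.univ
  exact ⟨h, fun i => h1 i (Finset.mem_univ i), h2⟩

end Pool.Agent.Work.MP_936a99_bb
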