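import Pool.Agent.Work.MP_936a99_bb.Interface

/-!
# Block IRR: the full special linear group is irreducible on the matrices of trace zero
-/

namespace Pool.Agent.Work.MP_936a99_bb.IRR

open Matrix Pool.Agent.Work.MP_936a99_al_h7 Pool.Agent.Work.MP_936a99_bb

variable {ι : Type} [Fintype ι] [DecidableEq ι] {p : ℕ} [Fact p.Prime]

/-- span of the conjugates -/
def W (X : Matrix ι ι (ZMod p)) : Submodule (ZMod p) (Matrix ι ι (ZMod p)) :=
  Submodule.span (ZMod p) {Z : Matrix ι ι (ZMod p) | ∃ g ∈ (⊤ : Subgroup (SLI ι p)),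
      Z = (g : Matrix ι ι (ZMod p)) * X * ((g⁻¹ : SLI ι p) : Matrix ι ι (ZMod p))}

lemma self_mem (X : Matrix ι ι (ZMod p)) : X ∈ W X :=
  Submodule.subset_span ⟨1, Subgroup.mem_top _, by simp⟩

lemma conj_mem (X : Matrix ι ι (ZMod p)) (g : SLI ι p) {Z : Matrix ι ι (ZMod p)} (hZ : Z ∈ W X) :
    (g : Matrix ι ι (ZMod p)) * Z * ((g⁻¹ : SLI ι p) : Matrix ι ι (ZMod p)) ∈ W X := by
  unfold W at hZ ⊢
  induction hZ using Submodule.span_induction with
  | mem Z h =>
    obtain ⟨k, -, rfl⟩ := h
    refine Submodule.subset_span ⟨g * k, Subgroup.mem_top _, ?_⟩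
    rw [_root_.mul_inv_rev, Matrix.SpecialLinearGroup.coe_mul, Matrix.SpecialLinearGroup.coe_mul]
    simp only [Matrix.mul_assoc]
  | zero => simp
  | add Z Z' _ _ h h' =>
    rw [Matrix.mul_add, Matrix.add_mul]
    exact Submodule.add_mem _ h h'
  | smul c Z _ h =>
    rw [Matrix.mul_smul, Matrix.smul_mul]
    exact Submodule.smul_mem _ c h

lemma single_sq {i j : ι} (hij : i ≠ j) (a b : ZMod p) :
    (Matrix.single i j a) * (Matrix.single i j b) = 0 := by
  rw [Matrix.single_mul_single_of_ne]
  exact fun h => hij h.symm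

lemma two_ne (h3 : 3 ≤ p) : (2 : ZMod p) ≠ 0 := by
  intro h
  have h2 : ((2 : ℕ) : ZMod p) = 0 := by exact_mod_cast h
  rw [ZMod.natCast_eq_zero_iff] at h2
  exact absurd (Nat.le_of_dvd (by norm_num) h2) (by omega)

/-- both bracket and sandwich with a matrix unit stay in the span -/
lemma brk (h3 : 3 ≤ p) (X : Matrix ι ι (ZMod p)) {i j : ι} (hij : i ≠ j)
    {Z : Matrix ι ι (ZMod p)} (hZ : Z ∈ W X) :
    (Matrix.single i j 1 * Z - Z * Matrix.single i j 1 ∈ W X) ∧
      (Matrix.single i j 1 * Z * Matrix.single i j 1 ∈ W X) := by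
  set E : Matrix ι ι (ZMod p) := Matrix.single i j 1 with hE
  have hneg : (Matrix.single i j (-1 : ZMod p)) = -E := by
    rw [hE, ← Matrix.single_neg]
  have h1 := conj_mem X (Matrix.SpecialLinearGroup.transvection hij (1 : ZMod p)) hZ
  have h2 := conj_mem X (Matrix.SpecialLinearGroup.transvection hij (-1 : ZMod p)) hZ
  rw [Matrix.SpecialLinearGroup.transvection_inv, Matrix.SpecialLinearGroup.transvection_coe,
    Matrix.SpecialLinearGroup.transvection_coe] at h1
  rw [Matrix.SpecialLinearGroup.transvection_inv, Matrix.SpecialLinearGroup.transvection_coe,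
    Matrix.SpecialLinearGroup.transvection_coe, neg_neg] at h2
  rw [hneg, ← hE] at h1 h2
  have e1 : (1 + E) * Z * (1 + -E) = Z + (E * Z - Z * E) - E * Z * E := by noncomm_ring
  have e2 : (1 + -E) * Z * (1 + E) = Z - (E * Z - Z * E) - E * Z * E := by noncomm_ring
  rw [e1] at h1
  rw [e2] at h2
  have h2' := two_ne (p := p) h3
  constructor
  · have h := Submodule.smul_mem _ ((2 : ZMod p)⁻¹) (Submodule.sub_mem _ h1 h2)
    have e : (2 : ZMod p)⁻¹ • (Z + (E * Z - Z * E) - E * Z * E - (Z - (E * Z - Z * E) - E * Z * E))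
        = E * Z - Z * E := by
      have : Z + (E * Z - Z * E) - E * Z * E - (Z - (E * Z - Z * E) - E * Z * E)
          = (2 : ZMod p) • (E * Z - Z * E) := by rw [two_smul]; abel
      rw [this, smul_smul, inv_mul_cancel₀ h2', one_smul]
    rwa [e] at h
  · have h := Submodule.smul_mem _ ((2 : ZMod p)⁻¹) (Submodule.sub_mem _ (Submodule.smul_mem _ (2 : ZMod p) hZ)
      (Submodule.add_mem _ h1 h2))
    have e : (2 : ZMod p)⁻¹ • ((2 : ZMod p) • Z - (Z + (E * Z - Z * E) - E * Z * E
        + (Z - (E * Z - Z * E) - E * Z * E))) = E * Z * E := by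
      have : (2 : ZMod p) • Z - (Z + (E * Z - Z * E) - E * Z * E
        + (Z - (E * Z - Z * E) - E * Z * E)) = (2 : ZMod p) • (E * Z * E) := by
        rw [two_smul, two_smul]; abel
      rw [this, smul_smul, inv_mul_cancel₀ h2', one_smul]
    rwa [e] at h

lemma mem_of_smul (X : Matrix ι ι (ZMod p)) {Z : Matrix ι ι (ZMod p)} {c : ZMod p} (hc : c ≠ 0)
    (h : c • Z ∈ W X) : Z ∈ W X := by
  have := Submodule.smul_mem _ c⁻¹ h
  rwa [smul_smul, inv_mul_cancel₀ hc, one_smul] at this

/-- left move -/
lemma left (h3 : 3 ≤ p) (X : Matrix ι ι (ZMod p)) {i j k : ι} (hkj : k ≠ j)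
    (h : (Matrix.single i j 1 : Matrix ι ι (ZMod p)) ∈ W X) :
    (Matrix.single k j 1 : Matrix ι ι (ZMod p)) ∈ W X := by
  by_cases hki : k = i
  · subst hki; exact h
  have := (brk h3 X hki h).1
  rw [Matrix.single_mul_single_same, Matrix.single_mul_single_of_ne (h := fun h => hkj h.symm), sub_zero,
    one_mul] at this
  exact this

lemma right (h3 : 3 ≤ p) (X : Matrix ι ι (ZMod p)) {i j l : ι} (hil : i ≠ l)
    (h : (Matrix.single i j 1 : Matrix ι ι (ZMod p)) ∈ W X) :
    (Matrix.single i l 1 : Matrix ι ι (ZMod p)) ∈ W X := by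
  by_cases hjl : j = l
  · subst hjl; exact h
  have := (brk h3 X hjl h).1
  rw [Matrix.single_mul_single_same, Matrix.single_mul_single_of_ne (h := fun h => hil h.symm), zero_sub,
    one_mul] at this
  exact neg_mem_iff.mp this

lemma swap (h3 : 3 ≤ p) (X : Matrix ι ι (ZMod p)) {i j : ι} (hij : i ≠ j)
    (h : (Matrix.single i j 1 : Matrix ι ι (ZMod p)) ∈ W X) :
    (Matrix.single j i 1 : Matrix ι ι (ZMod p)) ∈ W X := by
  have := (brk h3 X hij.symm h).2
  rw [Matrix.single_mul_single_same, Matrix.single_mul_single_same, one_mul, one_mul] at this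
  exact this

lemma all_units (h3 : 3 ≤ p) (X : Matrix ι ι (ZMod p)) {i j : ι} (hij : i ≠ j)
    (h : (Matrix.single i j 1 : Matrix ι ι (ZMod p)) ∈ W X) {k l : ι} (hkl : k ≠ l) :
    (Matrix.single k l 1 : Matrix ι ι (ZMod p)) ∈ W X := by
  by_cases hkj : k = j
  · subst hkj
    exact right h3 X hkl (swap h3 X hij h)
  · exact right h3 X hkl (left h3 X hkj h)

lemma diag_units (h3 : 3 ≤ p) (X : Matrix ι ι (ZMod p)) {i j : ι} (hij : i ≠ j)
    (h : (Matrix.single i j 1 : Matrix ι ι (ZMod p)) ∈ W X) (k l : ι) :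
    (Matrix.single k k 1 : Matrix ι ι (ZMod p)) - Matrix.single l l 1 ∈ W X := by
  by_cases hkl : k = l
  · subst hkl; simp
  have h1 := all_units h3 X hij h (k := l) (l := k) (fun h => hkl h.symm)
  have := (brk h3 X hkl h1).1
  rw [Matrix.single_mul_single_same, Matrix.single_mul_single_same, one_mul] at this
  exact this

/-- there is a matrix unit in the span -/
lemma exists_unit (h3 : 3 ≤ p) (hm : Fintype.card ι < p) (X : Matrix ι ι (ZMod p)) (hX : X ≠ 0)
    (htr : X.trace = 0) : ∃ i j : ι, i ≠ j ∧ (Matrix.single i j 1 : Matrix ι ι (ZMod p)) ∈ W X := by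
  by_cases hd : ∃ i j : ι, i ≠ j ∧ X j i ≠ 0
  · obtain ⟨i, j, hij, hne⟩ := hd
    refine ⟨i, j, hij, ?_⟩
    have h := (brk h3 X hij (self_mem X)).2
    have e : Matrix.single i j 1 * X * Matrix.single i j 1 = X j i • Matrix.single i j 1 := by
      rw [Matrix.single_mul_mul_single]
      simp
    rw [e] at h
    exact mem_of_smul X hne h
  · push Not at hd
    have hdiag : ∃ i j : ι, X j j - X i i ≠ 0 := by
      by_contra hcon
      push Not at hcon
      apply hX
      ext a b
      by_cases hab : a = b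
      · subst hab
        have hs : X.trace = (Fintype.card ι : ZMod p) * X a a := by
          rw [Matrix.trace, Finset.sum_congr rfl (fun i _ => show X.diag i = X a a from
            sub_eq_zero.mp (hcon a i)), Finset.sum_const, Finset.card_univ, nsmul_eq_mul]
        rw [htr] at hs
        have hc : (Fintype.card ι : ZMod p) ≠ 0 := by
          intro h
          rw [ZMod.natCast_eq_zero_iff] at h
          exact absurd (Nat.le_of_dvd (Fintype.card_pos_iff.mpr ⟨a⟩) h) (by omega)
        rcases mul_eq_zero.mp hs.symm with h | h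
        · exact absurd h hc
        · simpa using h
      · simpa using hd b a (fun h => hab h.symm)
    obtain ⟨i, j, hne⟩ := hdiag
    have hij : i ≠ j := by rintro rfl; exact hne (sub_self _)
    refine ⟨i, j, hij, ?_⟩
    have h := (brk h3 X hij (self_mem X)).1
    have e : Matrix.single i j 1 * X - X * Matrix.single i j 1
        = (X j j - X i i) • Matrix.single i j 1 := by
      ext a b
      rw [Matrix.sub_apply, Matrix.smul_apply]
      by_cases ha : a = i
      · subst ha
        rw [Matrix.single_mul_apply_same]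
        by_cases hb : b = j
        · subst hb
          rw [Matrix.mul_single_apply_same, Matrix.single_apply_same]
          simp
        · rw [Matrix.mul_single_apply_of_ne (hbj := hb), Matrix.single_apply_of_ne,
            hd b j hb]
          · simp
          · exact fun h => hb h.2.symm
      · rw [Matrix.single_mul_apply_of_ne (h := ha), Matrix.single_apply_of_ne]
        · by_cases hb : b = j
          · subst hb
            rw [Matrix.mul_single_apply_same, hd i a (fun h => ha h.symm)]
            simp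
          · rw [Matrix.mul_single_apply_of_ne (hbj := hb)]
            simp
        · exact fun h => ha h.1.symm
    rw [e] at h
    exact mem_of_smul X hne h

lemma sum_decomp (Y : Matrix ι ι (ZMod p)) (htr : Y.trace = 0) (o : ι) :
    Y = ∑ i, ∑ j, Y i j • ((Matrix.single i j 1 : Matrix ι ι (ZMod p))
      - if i = j then Matrix.single o o 1 else 0) := by
  have h1 : ∑ i, ∑ j, Y i j • ((Matrix.single i j 1 : Matrix ι ι (ZMod p))
      - if i = j then Matrix.single o o 1 else 0) =
      (∑ i, ∑ j, Y i j • (Matrix.single i j 1 : Matrix ι ι (ZMod p)))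
      - Y.trace • Matrix.single o o 1 := by
    simp only [smul_sub, Finset.sum_sub_distrib]
    congr 1
    rw [Matrix.trace, Finset.sum_smul]
    refine Finset.sum_congr rfl fun i _ => ?_
    rw [Finset.sum_eq_single i]
    · simp
    · intro j _ hj
      rw [if_neg (fun h => hj h.symm), smul_zero]
    · intro h; exact absurd (Finset.mem_univ i) h
  rw [h1, htr, zero_smul, sub_zero]
  conv_lhs => rw [Matrix.matrix_eq_sum_single Y]
  refine Finset.sum_congr rfl fun i _ => Finset.sum_congr rfl fun j _ => ?_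
  rw [Matrix.smul_single]
  simp

end Pool.Agent.Work.MP_936a99_bb.IRR

namespace Pool.Agent.Work.MP_936a99_bb

open Matrix Pool.Agent.Work.MP_936a99_al_h7 IRR

theorem irr_top : Stmt_IRR := by
  intro ι _ _ p _ h3 hm X hX htr Y hY
  obtain ⟨i, j, hij, h⟩ := exists_unit h3 hm X hX htr
  change Y ∈ W X
  rw [sum_decomp Y hY i]
  refine Submodule.sum_mem _ fun a _ => Submodule.sum_mem _ fun b _ => Submodule.smul_mem _ _ ?_
  by_cases hab : a = b
  · subst hab
    rw [if_pos rfl]
    exact diag_units h3 X hij h a i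
  · rw [if_neg hab, sub_zero]
    exact all_units h3 X hij h hab

end Pool.Agent.Work.MP_936a99_bb
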