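import Pool.Agent.Work.MP_936a99_bb.Interface

/-!
# MP_936a99_al: block MIN (a nonvanishing minor), helper89
-/

set_option autoImplicit false

namespace Pool.Agent.Work.MP_936a99_bb

open Matrix

theorem min_minor : Stmt_MIN := by
  classical
  intro K _ X _ q v hv
  have := Fintype.ofFinite X
  set A : Matrix X (Fin q) K := Matrix.of (fun x j => v j x) with hA
  have hAt : A.transpose.rank = q := by
    have h1 : LinearIndependent K A.transpose.row := hv
    have := h1.rank_matrix
    rwa [Fintype.card_fin] at this
  have hr : A.rank = q := by
    rw [← Matrix.rank_transpose]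
    exact hAt
  have hfr : Module.finrank K (Submodule.span K (Set.range A.row)) = q := by
    rw [← Matrix.rank_eq_finrank_span_row]
    exact hr
  obtain ⟨f, hf1, _, hf3⟩ := Submodule.exists_fun_fin_finrank_span_eq K (Set.range A.row)
  choose e he using hf1
  refine ⟨fun i => e (Fin.cast hfr.symm i), ?_⟩
  have hli : LinearIndependent K (fun i : Fin q => f (Fin.cast hfr.symm i)) :=
    hf3.comp _ (Fin.cast_injective _)
  have hli' : LinearIndependent K
      (Matrix.of (fun i j => v j (e (Fin.cast hfr.symm i))) : Matrix (Fin q) (Fin q) K).row := by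
    have : (Matrix.of (fun i j => v j (e (Fin.cast hfr.symm i))) : Matrix (Fin q) (Fin q) K).row =
        (fun i : Fin q => f (Fin.cast hfr.symm i)) := by
      funext i
      rw [← he]
      rfl
    rw [this]
    exact hli
  have h2 := Matrix.linearIndependent_rows_iff_isUnit.1 hli'
  rw [Matrix.isUnit_iff_isUnit_det] at h2
  exact h2.ne_zero

end Pool.Agent.Work.MP_936a99_bb
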