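import Pool.Agent.Work.MP_936a99_bb.Interface

/-!
# MP_936a99_al, project bb: block NOP

An irreducible subgroup with enough elements has order divisible by `p`.
-/

set_option autoImplicit false

namespace Pool.Agent.Work.MP_936a99_bb

open Matrix

namespace NOPx

variable {ι : Type} [Fintype ι] [DecidableEq ι] {p : ℕ}

theorem map_inj {R S : Type} [CommRing R] [CommRing S] (f : R →+* S) (hf : Function.Injective f) :
    Function.Injective (Matrix.GeneralLinearGroup.map (n := ι) f) := by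
  intro A B h
  refine Matrix.GeneralLinearGroup.ext fun i j => hf ?_
  rw [← Matrix.GeneralLinearGroup.map_apply, ← Matrix.GeneralLinearGroup.map_apply, h]

/-- all elements of the span of a commuting set commute -/
theorem comm_span {S : Set (Matrix ι ι (ZMod p))} (h : ∀ A ∈ S, ∀ B ∈ S, A * B = B * A)
    {A B : Matrix ι ι (ZMod p)} (hA : A ∈ Submodule.span (ZMod p) S)
    (hB : B ∈ Submodule.span (ZMod p) S) : A * B = B * A := by
  induction hA using Submodule.span_induction with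
  | mem A hA =>
    induction hB using Submodule.span_induction with
    | mem B hB => exact h A hA B hB
    | zero => simp
    | add x y _ _ hx hy => rw [mul_add, add_mul, hx, hy]
    | smul a x _ hx => rw [Algebra.mul_smul_comm, Algebra.smul_mul_assoc, hx]
  | zero => simp
  | add x y _ _ hx hy => rw [mul_add, add_mul, hx, hy]
  | smul a x _ hx => rw [Algebra.mul_smul_comm, Algebra.smul_mul_assoc, hx]

theorem comm_coe {H : Subgroup (SLI ι p)} {u v : H} (h : u * v = v * u) :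
    ((u : SLI ι p) : Matrix ι ι (ZMod p)) * ((v : SLI ι p) : Matrix ι ι (ZMod p)) =
      ((v : SLI ι p) : Matrix ι ι (ZMod p)) * ((u : SLI ι p) : Matrix ι ι (ZMod p)) := by
  rw [← Matrix.SpecialLinearGroup.coe_mul, ← Matrix.SpecialLinearGroup.coe_mul,
    ← Subgroup.coe_mul, ← Subgroup.coe_mul, h]

/-- in an irreducible subgroup the elements of abelian normal subgroups are scalar -/
theorem scalar_of_normal [Fact p.Prime] (hι : 2 ≤ Fintype.card ι) {H : Subgroup (SLI ι p)}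
    (hp : Fintype.card ι < p) (hirr : Irr H) {N : Subgroup H} (hN : N.Normal)
    (hab : ∀ a ∈ N, ∀ b ∈ N, a * b = b * a) {a : H} (ha : a ∈ N) :
    ∃ d : ZMod p, ((a : SLI ι p) : Matrix ι ι (ZMod p)) = d • 1 := by
  by_contra hcon
  push Not at hcon
  set A : Matrix ι ι (ZMod p) := ((a : SLI ι p) : Matrix ι ι (ZMod p)) with hA
  have hm : ((Fintype.card ι : ℕ) : ZMod p) ≠ 0 := by
    intro h
    rw [ZMod.natCast_eq_zero_iff] at h
    exact absurd (Nat.le_of_dvd (by omega) h) (by omega)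
  set τ : ZMod p := A.trace / (Fintype.card ι : ZMod p) with hτ
  set X : Matrix ι ι (ZMod p) := A - τ • 1 with hX
  have hX0 : X ≠ 0 := fun h => hcon τ (sub_eq_zero.1 h)
  have hXt : X.trace = 0 := by
    rw [hX, trace_sub, trace_smul, trace_one, smul_eq_mul, hτ, div_mul_cancel₀ _ hm, sub_self]
  have key := hirr X hX0 hXt
  -- conjugates of `X` commute
  have hcomm : ∀ Z₁ ∈ {Z : Matrix ι ι (ZMod p) | ∃ g ∈ H,
      Z = (g : Matrix ι ι (ZMod p)) * X * ((g⁻¹ : SLI ι p) : Matrix ι ι (ZMod p))},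
      ∀ Z₂ ∈ {Z : Matrix ι ι (ZMod p) | ∃ g ∈ H,
      Z = (g : Matrix ι ι (ZMod p)) * X * ((g⁻¹ : SLI ι p) : Matrix ι ι (ZMod p))},
      Z₁ * Z₂ = Z₂ * Z₁ := by
    have conj : ∀ g : H, ((g : SLI ι p) : Matrix ι ι (ZMod p)) * X *
        (((g : SLI ι p)⁻¹ : SLI ι p) : Matrix ι ι (ZMod p)) =
        (((g * a * g⁻¹ : H) : SLI ι p) : Matrix ι ι (ZMod p)) - τ • 1 := by
      intro g
      have e1 : ((g : SLI ι p) : Matrix ι ι (ZMod p)) *
          (((g : SLI ι p)⁻¹ : SLI ι p) : Matrix ι ι (ZMod p)) = 1 := by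
        rw [← Matrix.SpecialLinearGroup.coe_mul, mul_inv_cancel, Matrix.SpecialLinearGroup.coe_one]
      rw [hX, mul_sub, sub_mul, Algebra.mul_smul_comm, Algebra.smul_mul_assoc, mul_one, e1]
      rw [Subgroup.coe_mul, Subgroup.coe_mul, Subgroup.coe_inv, Matrix.SpecialLinearGroup.coe_mul,
        Matrix.SpecialLinearGroup.coe_mul]
    rintro Z₁ ⟨g₁, hg₁, rfl⟩ Z₂ ⟨g₂, hg₂, rfl⟩
    have c1 := conj ⟨g₁, hg₁⟩
    have c2 := conj ⟨g₂, hg₂⟩
    simp only at c1 c2
    rw [c1, c2]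
    have h1 : (⟨g₁, hg₁⟩ * a * (⟨g₁, hg₁⟩ : H)⁻¹ : H) ∈ N := hN.conj_mem a ha _
    have h2 : (⟨g₂, hg₂⟩ * a * (⟨g₂, hg₂⟩ : H)⁻¹ : H) ∈ N := hN.conj_mem a ha _
    have h4 := comm_coe (hab _ h1 _ h2)
    generalize (((⟨g₁, hg₁⟩ * a * (⟨g₁, hg₁⟩ : H)⁻¹ : H) : SLI ι p) : Matrix ι ι (ZMod p)) = U at h4 ⊢
    generalize (((⟨g₂, hg₂⟩ * a * (⟨g₂, hg₂⟩ : H)⁻¹ : H) : SLI ι p) : Matrix ι ι (ZMod p)) = V at h4 ⊢
    rw [sub_mul, mul_sub, sub_mul, mul_sub, h4]
    simp only [Algebra.mul_smul_comm, Algebra.smul_mul_assoc, mul_one, one_mul, mul_sub]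
    abel
  -- two matrix units
  obtain ⟨i, j, hij⟩ := Fintype.exists_pair_of_one_lt_card (show 1 < Fintype.card ι by omega)
  have t1 : (single i j (1 : ZMod p)).trace = 0 := by
    rw [Matrix.trace]
    refine Finset.sum_eq_zero fun k _ => ?_
    rw [diag_apply, single_apply, if_neg]
    rintro ⟨h1, h2⟩
    exact hij (h1.trans h2.symm)
  have t2 : (single j i (1 : ZMod p)).trace = 0 := by
    rw [Matrix.trace]
    refine Finset.sum_eq_zero fun k _ => ?_
    rw [diag_apply, single_apply, if_neg]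
    rintro ⟨h1, h2⟩
    exact hij (h2.trans h1.symm)
  have e := comm_span hcomm (key _ t1) (key _ t2)
  rw [single_mul_single_same, single_mul_single_same] at e
  have e2 := congrFun (congrFun e i) i
  rw [single_apply, single_apply, if_pos ⟨rfl, rfl⟩, if_neg (fun h => hij h.1.symm)] at e2
  norm_num at e2

end NOPx

theorem nop (hJ : Stmt_JORC) (hL : Stmt_LIFTP) (hE : Stmt_EMB) : Stmt_NOP := by
  intro ι _ _ hι
  obtain ⟨J, hJ'⟩ := hJ ι
  refine ⟨J, fun p _ H hp hirr hc => ?_⟩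
  by_contra hnd
  obtain ⟨c, hcH, hns⟩ := hc
  have : Finite (SLI ι p) := Subtype.finite
  have : Finite H := Subtype.finite
  let φ : H →* Matrix.GeneralLinearGroup ι (ZMod p) :=
    (Matrix.SpecialLinearGroup.toGL).comp H.subtype
  have hφ : Function.Injective φ :=
    Matrix.SpecialLinearGroup.toGL_injective.comp H.subtype_injective
  obtain ⟨ψ, hψ⟩ := hL ι p H φ hnd hφ
  obtain ⟨f, hf⟩ := hE p
  obtain ⟨N, hN, hab, hidx⟩ := hJ' H ((Matrix.GeneralLinearGroup.map f).comp ψ)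
    ((NOPx.map_inj f hf).comp hψ)
  obtain ⟨s, hs0, hsJ, hsN⟩ := Subgroup.exists_pow_mem_of_index_ne_zero
    (Subgroup.FiniteIndex.index_ne_zero (H := N)) (⟨c, hcH⟩ : H)
  obtain ⟨d, hd⟩ := NOPx.scalar_of_normal hι hp hirr hN hab hsN
  refine hns s hs0 (hsJ.trans hidx) d ?_
  rw [← hd]
  rfl

end Pool.Agent.Work.MP_936a99_bb
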