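import Pool.Agent.Work.MP_936a99_bb.Interface

/-!
# MP_936a99_al: block REAL (every matrix is a matrix of pairings), helper89
-/

set_option autoImplicit false

namespace Pool.Agent.Work.MP_936a99_bb

open Matrix Pool.Agent.Work.MP_936a99_al_h7

namespace REAL

variable {n : ℕ} {K : Type} [Field K]

/-- functionals with given values on an independent family -/
theorem exists_vals {κ : Type} [Finite κ] (x : κ → (Fin n → K)) (hx : LinearIndependent K x)
    (y : κ → K) : ∃ φ : Fin n → K, ∀ k, φ ⬝ᵥ x k = y k := by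
  classical
  let f : Submodule.span K (Set.range x) →ₗ[K] K :=
    (Finsupp.linearCombination K y).comp hx.repr
  obtain ⟨g, hg⟩ := LinearMap.exists_extend f
  obtain ⟨φ, hφ⟩ := exists_dot g
  refine ⟨φ, fun k => ?_⟩
  rw [← hφ]
  have hk : x k ∈ Submodule.span K (Set.range x) := Submodule.subset_span (Set.mem_range_self k)
  have h1 : g (x k) = f ⟨x k, hk⟩ := by
    rw [← hg]
    rfl
  rw [h1]
  show Finsupp.linearCombination K y (hx.repr ⟨x k, hk⟩) = y k
  rw [hx.repr_eq_single k ⟨x k, hk⟩ rfl]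
  simp

/-- the algebra -/
theorem algebra_id {ρ : ℕ} (S Mi : Matrix (Fin ρ) (Fin ρ) K) (A A' : Matrix (Fin n) (Fin ρ) K)
    (B B' : Matrix (Fin ρ) (Fin n) K) (P : Matrix (Fin n) (Fin ρ) K)
    (Q : Matrix (Fin ρ) (Fin n) K) (h1 : Q * P = S) (h2 : Q * A = 1) (h2' : Q * A' = 1)
    (h3 : B * P = 1) (h3' : B' * P = 1) (h4 : B * A' = S - Mi) :
    (Q * (1 - A * B)) * ((1 + A' * B') * P) = Mi := by
  have e1 : Q * (1 - A * B) = Q - B := by
    rw [Matrix.mul_sub, Matrix.mul_one, ← Matrix.mul_assoc, h2, Matrix.one_mul]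
  have e2 : (1 + A' * B') * P = P + A' := by
    rw [Matrix.add_mul, Matrix.one_mul, Matrix.mul_assoc, h3', Matrix.mul_one]
  rw [e1, e2, Matrix.sub_mul, Matrix.mul_add, Matrix.mul_add, h1, h2', h3, h4]
  abel

end REAL

open REAL in
theorem real_ex : Stmt_REAL := by
  classical
  intro n ρ p _ P Q M hn hP hQ hM
  -- the dual vectors
  have hR : ∀ b : Fin ρ, ∃ r : Fin n → ZMod p, ∀ a, Q a ⬝ᵥ r = if a = b then 1 else 0 := by
    intro b
    obtain ⟨r, hr⟩ := exists_vals Q hQ (fun a => if a = b then 1 else 0)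
    refine ⟨r, fun a => ?_⟩
    rw [dotProduct_comm]
    exact hr a
  choose R hR using hR
  set U : Submodule (ZMod p) (Fin n → ZMod p) :=
    Submodule.span (ZMod p) (Set.range P) ⊔ Submodule.span (ZMod p) (Set.range R) with hU
  have hUr : Module.finrank (ZMod p) U ≤ ρ + ρ := by
    refine (Submodule.finrank_add_le_finrank_add_finrank _ _).trans ?_
    have h1 := finrank_range_le_card (R := ZMod p) P
    have h2 := finrank_range_le_card (R := ZMod p) R
    rw [Set.finrank, Fintype.card_fin] at h1 h2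
    exact Nat.add_le_add h1 h2
  have hW := finrank_kerAll Q
  obtain ⟨Z, hZ1, hZ2⟩ := exists_indep_mod (kerAll Q) U (7 * ρ) (by omega)
  have hPU : ∀ j, P j ∈ U := fun j =>
    Submodule.mem_sup_left (Submodule.subset_span (Set.mem_range_self j))
  have hRU : ∀ j, R j ∈ U := fun j =>
    Submodule.mem_sup_right (Submodule.subset_span (Set.mem_range_self j))
  -- the columns
  set A : Fin 7 × Fin ρ → (Fin n → ZMod p) := fun x => Z (finProdFinEquiv x) + R x.2 with hA
  have hZ2' : ∀ c : Fin 7 × Fin ρ → ZMod p,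
      (∑ x, c x • Z (finProdFinEquiv x)) ∈ U → c = 0 := by
    intro c hc
    have h1 : ∑ j, c (finProdFinEquiv.symm j) • Z j ∈ U := by
      have e : ∑ j, c (finProdFinEquiv.symm j) • Z j = ∑ x, c x • Z (finProdFinEquiv x) := by
        rw [← Equiv.sum_comp finProdFinEquiv]
        simp
      rw [e]
      exact hc
    have h2 := hZ2 _ h1
    funext x
    have h3 := congrFun h2 (finProdFinEquiv x)
    simpa using h3
  let x : (Fin 7 × Fin ρ) ⊕ Fin ρ → (Fin n → ZMod p) := Sum.elim A P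
  have hx : LinearIndependent (ZMod p) x := by
    rw [Fintype.linearIndependent_iff]
    intro c hc
    rw [Fintype.sum_sum_type] at hc
    simp only [x, Sum.elim_inl, Sum.elim_inr, hA, smul_add, Finset.sum_add_distrib] at hc
    have h1 : (fun j => c (Sum.inl j)) = 0 := by
      apply hZ2'
      have h2 : ∑ j : Fin 7 × Fin ρ, c (Sum.inl j) • Z (finProdFinEquiv j)
          = -(∑ j : Fin 7 × Fin ρ, c (Sum.inl j) • R j.2 + ∑ j, c (Sum.inr j) • P j) := by
        rw [add_assoc] at hc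
        exact eq_neg_of_add_eq_zero_left hc
      rw [h2]
      refine U.neg_mem (U.add_mem (U.sum_mem fun j _ => ?_) (U.sum_mem fun j _ => ?_))
      · exact U.smul_mem _ (hRU _)
      · exact U.smul_mem _ (hPU j)
    have h1' : ∀ j, c (Sum.inl j) = 0 := fun j => congrFun h1 j
    simp only [h1', zero_smul, Finset.sum_const_zero, zero_add] at hc
    have h3 := Fintype.linearIndependent_iff.1 hP _ hc
    rintro (j | j)
    · exact h1' j
    · exact h3 j
  -- the rows
  have hB : ∀ (i : Fin 7) (a : Fin ρ), ∃ φ : Fin n → ZMod p,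
      (∀ j b, φ ⬝ᵥ A (j, b) = Sm P Q a b - M (i, a) (j, b)) ∧
      ∀ b, φ ⬝ᵥ P b = if a = b then 1 else 0 := by
    intro i a
    obtain ⟨φ, hφ⟩ := exists_vals x hx (Sum.elim
      (fun y => Sm P Q a y.2 - M (i, a) y) (fun b => if a = b then 1 else 0))
    exact ⟨φ, fun j b => hφ (Sum.inl (j, b)), fun b => hφ (Sum.inr b)⟩
  choose B hB1 hB2 using hB
  -- matrices
  set Am : Fin 7 → Matrix (Fin n) (Fin ρ) (ZMod p) := fun i => Matrix.of fun k a => A (i, a) k
    with hAm
  set Bm : Fin 7 → Matrix (Fin ρ) (Fin n) (ZMod p) := fun i => Matrix.of fun a k => B i a k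
    with hBm
  set Pm : Matrix (Fin n) (Fin ρ) (ZMod p) := Matrix.of fun k b => P b k with hPm
  set Qm : Matrix (Fin ρ) (Fin n) (ZMod p) := Matrix.of fun a k => Q a k with hQm
  have e1 : Qm * Pm = Sm P Q := by
    ext a b
    rfl
  have e2 : ∀ i, Qm * Am i = 1 := by
    intro i
    ext a b
    have h1 : (Qm * Am i) a b = Q a ⬝ᵥ A (i, b) := rfl
    rw [h1, hA]
    simp only
    rw [dotProduct_add, hZ1 _ a, zero_add, hR, Matrix.one_apply]
  have e3 : ∀ i, Bm i * Pm = 1 := by
    intro i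
    ext a b
    have h1 : (Bm i * Pm) a b = B i a ⬝ᵥ P b := rfl
    rw [h1, hB2, Matrix.one_apply]
  have e4 : ∀ i j, Bm i * Am j = Sm P Q - Matrix.of (fun a b => M (i, a) (j, b)) := by
    intro i j
    ext a b
    have h1 : (Bm i * Am j) a b = B i a ⬝ᵥ A (j, b) := rfl
    rw [h1, hB1]
    rfl
  have e5 : ∀ i, Bm i * Am i = 0 := by
    intro i
    rw [e4]
    ext a b
    rw [Matrix.sub_apply, Matrix.of_apply, hM i a b, sub_self, Matrix.zero_apply]
  have hdet : ∀ i, (1 + Am i * Bm i).det = 1 := by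
    intro i
    rw [Matrix.det_one_add_mul_comm, e5, add_zero, Matrix.det_one]
  have hsq : ∀ i, (Am i * Bm i) * (Am i * Bm i) = 0 := by
    intro i
    rw [Matrix.mul_assoc, ← Matrix.mul_assoc (Bm i), e5, Matrix.zero_mul, Matrix.mul_zero]
  refine ⟨fun i => ⟨1 + Am i * Bm i, hdet i⟩, ?_⟩
  ext ⟨i, a⟩ ⟨j, b⟩
  have k1 : (Qm * (1 - Am i * Bm i)) * ((1 + Am j * Bm j) * Pm) =
      Matrix.of (fun a b => M (i, a) (j, b)) :=
    algebra_id (Sm P Q) _ (Am i) (Am j) (Bm i) (Bm j) Pm Qm e1 (e2 i) (e2 j) (e3 i) (e3 j)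
      (e4 i j)
  have k2 := congrFun (congrFun k1 a) b
  have k3 : ((((⟨1 + Am i * Bm i, hdet i⟩ : SLn n (ZMod p))⁻¹ : SLn n (ZMod p)) :
      Matrix (Fin n) (Fin n) (ZMod p))) = 1 - Am i * Bm i :=
    inv_coe_of_sq_zero rfl (hsq i)
  have k4 : Mh P Q (fun i => (⟨1 + Am i * Bm i, hdet i⟩ : SLn n (ZMod p))) (i, a) (j, b) =
      ((Qm * (1 - Am i * Bm i)) * ((1 + Am j * Bm j) * Pm) : Matrix (Fin ρ) (Fin ρ) (ZMod p))
        a b := by
    rw [← k3]
    rfl
  rw [k4, k2]
  rfl

end Pool.Agent.Work.MP_936a99_bb
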