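import Pool.Agent.Work.MP_936a99_bb.Interface

/-!
# Block THETA: transfer of transvections from the small group
-/

namespace Pool.Agent.Work.MP_936a99_bb

open Matrix Pool.Agent.Work.MP_936a99_al_h7

section theta

variable {t ρ n p : ℕ} [hp : Fact p.Prime]

/-- the columns `h_j P_b` -/
def thU (P : Fin ρ → (Fin n → ZMod p)) (h : Fin t → SLn n (ZMod p)) :
    Matrix (Fin n) (Fin t × Fin ρ) (ZMod p) :=
  Matrix.of fun r y => vv (P y.2) (h y.1) r

/-- the rows `Q_a h_i⁻¹` -/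
def thF (Q : Fin ρ → (Fin n → ZMod p)) (h : Fin t → SLn n (ZMod p)) :
    Matrix (Fin t × Fin ρ) (Fin n) (ZMod p) :=
  Matrix.of fun x c => kk (Q x.2) (h x.1) c

theorem thF_mul_thU (P Q : Fin ρ → (Fin n → ZMod p)) (h : Fin t → SLn n (ZMod p)) :
    thF Q h * thU P h = Mh P Q h := by
  ext x y
  rfl

/-- the transfer on matrices -/
def thm (P : Fin ρ → (Fin n → ZMod p)) (h : Fin t → SLn n (ZMod p))
    (W : Matrix (Fin t × Fin ρ) (Fin n) (ZMod p))
    (g : Matrix (Fin t × Fin ρ) (Fin t × Fin ρ) (ZMod p)) : Matrix (Fin n) (Fin n) (ZMod p) :=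
  1 + thU P h * ((g - 1) * W)

theorem thm_mul {P : Fin ρ → (Fin n → ZMod p)} {h : Fin t → SLn n (ZMod p)}
    {W : Matrix (Fin t × Fin ρ) (Fin n) (ZMod p)} (hW : W * thU P h = 1)
    (g g' : Matrix (Fin t × Fin ρ) (Fin t × Fin ρ) (ZMod p)) :
    thm P h W (g * g') = thm P h W g * thm P h W g' := by
  unfold thm
  have h1 : (thU P h * ((g - 1) * W)) * (thU P h * ((g' - 1) * W))
      = thU P h * ((g - 1) * ((g' - 1) * W)) := by
    have e1 : (thU P h * ((g - 1) * W)) * (thU P h * ((g' - 1) * W))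
        = thU P h * ((g - 1) * ((W * thU P h) * ((g' - 1) * W))) := by
      simp only [Matrix.mul_assoc]
    rw [e1, hW, Matrix.one_mul]
  rw [Matrix.add_mul, Matrix.one_mul, Matrix.mul_add, Matrix.mul_one, h1]
  have h2 : g * g' - 1 = (g - 1) + (g' - 1) + (g - 1) * (g' - 1) := by noncomm_ring
  rw [h2, Matrix.add_mul, Matrix.add_mul, Matrix.mul_add, Matrix.mul_add, Matrix.mul_assoc (g - 1)]
  abel

theorem thm_det {P : Fin ρ → (Fin n → ZMod p)} {h : Fin t → SLn n (ZMod p)}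
    {W : Matrix (Fin t × Fin ρ) (Fin n) (ZMod p)} (hW : W * thU P h = 1)
    (g : Matrix (Fin t × Fin ρ) (Fin t × Fin ρ) (ZMod p)) :
    (thm P h W g).det = g.det := by
  unfold thm
  rw [Matrix.det_one_add_mul_comm, Matrix.mul_assoc, hW, Matrix.mul_one]
  congr 1
  abel

/-- the transfer homomorphism -/
def thH {P : Fin ρ → (Fin n → ZMod p)} {h : Fin t → SLn n (ZMod p)}
    {W : Matrix (Fin t × Fin ρ) (Fin n) (ZMod p)} (hW : W * thU P h = 1) :
    SLI (Fin t × Fin ρ) p →* SLn n (ZMod p) where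
  toFun g := ⟨thm P h W (g : Matrix (Fin t × Fin ρ) (Fin t × Fin ρ) (ZMod p)), by
    rw [thm_det hW]; exact g.2⟩
  map_one' := by
    apply Subtype.ext
    show thm P h W ((1 : SLI (Fin t × Fin ρ) p) : Matrix _ _ (ZMod p)) = _
    rw [Matrix.SpecialLinearGroup.coe_one, Matrix.SpecialLinearGroup.coe_one]
    unfold thm
    rw [sub_self, Matrix.zero_mul, Matrix.mul_zero, add_zero]
  map_mul' g g' := by
    apply Subtype.ext
    show thm P h W ((g * g' : SLI (Fin t × Fin ρ) p) : Matrix _ _ (ZMod p)) = _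
    rw [Matrix.SpecialLinearGroup.coe_mul, Matrix.SpecialLinearGroup.coe_mul]
    exact thm_mul hW _ _

theorem thH_coe {P : Fin ρ → (Fin n → ZMod p)} {h : Fin t → SLn n (ZMod p)}
    {W : Matrix (Fin t × Fin ρ) (Fin n) (ZMod p)} (hW : W * thU P h = 1)
    (g : SLI (Fin t × Fin ρ) p) :
    ((thH hW g : SLn n (ZMod p)) : Matrix (Fin n) (Fin n) (ZMod p))
      = thm P h W (g : Matrix (Fin t × Fin ρ) (Fin t × Fin ρ) (ZMod p)) := rfl

theorem wh_sub_one (M : Matrix (Fin t × Fin ρ) (Fin t × Fin ρ) (ZMod p)) (i : Fin t) :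
    wh M i - 1 = Matrix.diagonal (fun x : Fin t × Fin ρ => if x.1 = i then (1 : ZMod p) else 0)
      * M := by
  ext x y
  rw [Matrix.diagonal_mul]
  unfold wh
  rw [add_sub_cancel_left, Matrix.of_apply]
  by_cases hx : x.1 = i
  · rw [if_pos hx, if_pos hx, one_mul]
  · rw [if_neg hx, if_neg hx, zero_mul]

theorem th_block (P Q : Fin ρ → (Fin n → ZMod p)) (h : Fin t → SLn n (ZMod p)) (i : Fin t) :
    thU P h * (Matrix.diagonal (fun x : Fin t × Fin ρ => if x.1 = i then (1 : ZMod p) else 0)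
      * thF Q h) = ∑ a, vecMulVec (vv (P a) (h i)) (kk (Q a) (h i)) := by
  ext r c
  rw [Matrix.mul_apply, Matrix.sum_apply, Fintype.sum_prod_type, Finset.sum_eq_single i]
  · refine Finset.sum_congr rfl fun a _ => ?_
    rw [Matrix.diagonal_mul, if_pos rfl, one_mul, Matrix.vecMulVec_apply]
    rfl
  · intro j _ hj
    refine Finset.sum_eq_zero fun a _ => ?_
    rw [Matrix.diagonal_mul, if_neg hj, zero_mul, mul_zero]
  · intro hi
    exact absurd (Finset.mem_univ i) hi

theorem th_conj {P Q : Fin ρ → (Fin n → ZMod p)} {g0 : SLn n (ZMod p)}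
    (hg0 : (g0 : Matrix (Fin n) (Fin n) (ZMod p)) = 1 + ∑ a, vecMulVec (P a) (Q a))
    (h : SLn n (ZMod p)) :
    ((h * g0 * h⁻¹ : SLn n (ZMod p)) : Matrix (Fin n) (Fin n) (ZMod p))
      = 1 + ∑ a, vecMulVec (vv (P a) h) (kk (Q a) h) := by
  rw [Matrix.SpecialLinearGroup.coe_mul, Matrix.SpecialLinearGroup.coe_mul, hg0, Matrix.mul_add,
    Matrix.add_mul, Matrix.mul_one, coe_mul_inv, Matrix.mul_sum, Matrix.sum_mul]
  congr 1
  refine Finset.sum_congr rfl fun a _ => ?_
  rw [Matrix.mul_vecMulVec, Matrix.vecMulVec_mul]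
  rfl

end theta

/-- THETA: transfer of transvections from the small group. -/
theorem theta : Stmt_THETA := by
  intro n ρ p L l N _ A P Q g0 h hρ hg0 hl hL hdet hN
  have hunit : IsUnit (Mh P Q h).det := isUnit_iff_ne_zero.2 hdet
  obtain ⟨W, hWdef⟩ : ∃ W, W = (Mh P Q h)⁻¹ * thF Q h := ⟨_, rfl⟩
  have hW : W * thU P h = 1 := by
    rw [hWdef, Matrix.mul_assoc, thF_mul_thU, Matrix.nonsing_inv_mul _ hunit]
  have hMW : Mh P Q h * W = thF Q h := by
    rw [hWdef, ← Matrix.mul_assoc, Matrix.mul_nonsing_inv _ hunit, Matrix.one_mul]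
  -- images of the generators
  have hgen : ∀ x ∈ gens (Mh P Q h), Reach A (2 * L + l) (thH hW x) := by
    rintro x ⟨i, hi⟩
    have h1 : thH hW x = h i * g0 * (h i)⁻¹ := by
      apply Subtype.ext
      show thm P h W (x : Matrix _ _ (ZMod p)) = _
      rw [th_conj hg0, hi]
      unfold thm
      rw [wh_sub_one, Matrix.mul_assoc, hMW, th_block]
    rw [h1]
    exact (((hL i).mul hl).mul (hL i).inv).mono (by omega)
  have hall : ∀ x : SLI (Fin 7 × Fin ρ) p, Reach A (N * (2 * L + l)) (thH hW x) := by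
    intro x
    obtain ⟨w, hw1, hw2, hw3⟩ := hN x
    rw [← hw3, map_list_prod]
    refine (Reach.listProd (L := 2 * L + l) _ ?_).mono
      (Nat.mul_le_mul_right _ (by rw [List.length_map]; exact hw1))
    intro g hg
    obtain ⟨y, hy, rfl⟩ := List.mem_map.1 hg
    rcases hw2 y hy with h1 | h1
    · exact hgen y h1
    · have := (hgen _ h1).inv
      rwa [map_inv, inv_inv] at this
  -- the transvections
  have hρ0 : 0 < ρ := hρ
  obtain ⟨i, hi⟩ : ∃ i : Fin 7 × Fin ρ, i = (0, ⟨0, hρ0⟩) := ⟨_, rfl⟩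
  obtain ⟨j, hj⟩ : ∃ j : Fin 7 × Fin ρ, j = (1, ⟨0, hρ0⟩) := ⟨_, rfl⟩
  have hij : i ≠ j := by
    intro h0
    rw [hi, hj] at h0
    have h1 : (0 : Fin 7) = 1 := congrArg Prod.fst h0
    exact absurd h1 (by decide)
  have hentry : ∀ a b : Fin 7 × Fin ρ, (fun c => W a c) ⬝ᵥ (fun r => thU P h r b)
      = (1 : Matrix (Fin 7 × Fin ρ) (Fin 7 × Fin ρ) (ZMod p)) a b := by
    intro a b
    rw [← hW]
    rfl
  refine ⟨fun r => thU P h r i, fun c => W j c, ?_, ?_, ?_, ?_⟩
  · intro h0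
    have h1 := hentry i i
    rw [h0, dotProduct_zero, Matrix.one_apply_eq] at h1
    exact zero_ne_one h1
  · intro h0
    have h1 := hentry j j
    rw [h0, zero_dotProduct, Matrix.one_apply_eq] at h1
    exact zero_ne_one h1
  · have h1 := hentry j i
    rw [Matrix.one_apply_ne hij.symm] at h1
    exact h1
  · intro s
    refine ⟨thH hW (Matrix.SpecialLinearGroup.transvection hij s), hall _, ?_⟩
    rw [thH_coe, Matrix.SpecialLinearGroup.transvection_coe]
    unfold thm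
    rw [add_sub_cancel_left]
    congr 1
    ext r c
    rw [Matrix.mul_apply, Finset.sum_eq_single i, Matrix.single_mul_apply_same,
      Matrix.vecMulVec_apply]
    · rfl
    · intro b _ hb
      rw [Matrix.single_mul_apply_of_ne _ _ _ _ _ hb, mul_zero]
    · intro h0
      exact absurd (Finset.mem_univ i) h0

end Pool.Agent.Work.MP_936a99_bb
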