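import Pool.Agent.Work.MP_936a99_bb.Interface

/-!
# Block TR: from one root subgroup to all transvections, length polynomial in `n`
-/

namespace Pool.Agent.Work.MP_936a99_bb

open Matrix Pool.Agent.Work.MP_936a99_al_h7

section tr

variable {n p : ℕ} [hp : Fact p.Prime]

/-- conjugating all scalar multiples -/
theorem tr_conj {A : Set (SLn n (ZMod p))} {L S : ℕ} {u f : Fin n → ZMod p}
    (ht : ∀ s : ZMod p, TRe A L u (s • f)) {h : SLn n (ZMod p)} (hh : Reach A S h) (s : ZMod p) :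
    TRe A (2 * S + L) (vv u h) (s • kk f h) := by
  have h1 := (ht s).conj hh
  rw [Matrix.smul_vecMul] at h1
  exact h1

theorem tr_conj_tre {A : Set (SLn n (ZMod p))} {L L' : ℕ} {v k x w : Fin n → ZMod p}
    (h1 : ∀ s : ZMod p, TRe A L v (s • k))
    (h2 : TRe A L' x w) (h3 : w ⬝ᵥ x = 0) (s : ZMod p) :
    TRe A (2 * L' + L) (v + (w ⬝ᵥ v) • x) (s • (k - (k ⬝ᵥ x) • w)) := by
  have h4 := conj_tre (h1 s) h2 h3
  have h5 : s • k - ((s • k) ⬝ᵥ x) • w = s • (k - (k ⬝ᵥ x) • w) := by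
    rw [smul_dotProduct, smul_sub, smul_eq_mul, mul_smul]
  rw [h5] at h4
  exact h4

/-- Step A, one functional: all scalar multiples at the same cost -/
theorem tr_stepA {A : Set (SLn n (ZMod p))} (hA : Subgroup.closure A = ⊤) (hn : 4 ≤ n)
    {u f : Fin n → ZMod p} {L0 : ℕ} (ht : ∀ s : ZMod p, TRe A L0 u (s • f)) (hu : u ≠ 0)
    (hf : f ≠ 0) (hfu : f ⬝ᵥ u = 0) {v0 k0 z : Fin n → ZMod p} {L : ℕ}
    (ht0 : ∀ s : ZMod p, TRe A L v0 (s • k0))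
    (hv0 : v0 ≠ 0) (hk0 : k0 ≠ 0) (hkv : k0 ⬝ᵥ v0 = 0)
    (hz : z ∉ Submodule.span (ZMod p) ({v0} : Set (Fin n → ZMod p))) :
    ∃ k, (∀ s : ZMod p, TRe A (2 * L + 2 * (3 * (2 * S5 n + L0))) v0 (s • k)) ∧
      k ⬝ᵥ v0 = 0 ∧ k ⬝ᵥ z ≠ 0 := by
  obtain ⟨h, h', hh, hh', c1, c2, c3, c4⟩ := stepA_choice hA hn hu hf hfu hv0 hk0 hz
  have t1 := tr_conj ht hh
  have t2 := tr_conj ht hh'
  have hwx : kk f h' ⬝ᵥ vv u h' = 0 := by rw [kk_dot_vv, hfu]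
  have hkv' : kk f h ⬝ᵥ vv u h = 0 := by rw [kk_dot_vv, hfu]
  generalize hv : vv u h = v at *
  generalize hk : kk f h = k at *
  generalize hx : vv u h' = x at *
  generalize hw : kk f h' = w at *
  obtain ⟨s, hs⟩ : ∃ s : ZMod p, s = (k ⬝ᵥ v0) / ((k ⬝ᵥ x) * (w ⬝ᵥ v0)) := ⟨_, rfl⟩
  have hswx : (s • w) ⬝ᵥ x = 0 := by rw [smul_dotProduct, hwx, smul_zero]
  have t4 := tr_conj_tre t1 (t2 s) hswx
  have hd := conj_dot hswx hkv'
  have e1 : (k - (k ⬝ᵥ x) • (s • w)) ⬝ᵥ v0 = 0 := by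
    rw [sub_dotProduct, smul_dotProduct, smul_dotProduct, hs]
    simp only [smul_eq_mul]
    field_simp
    ring
  have e2 : (k - (k ⬝ᵥ x) • (s • w)) ⬝ᵥ z ≠ 0 := by
    have : (k - (k ⬝ᵥ x) • (s • w)) ⬝ᵥ z
        = ((k ⬝ᵥ z) * (w ⬝ᵥ v0) - (k ⬝ᵥ v0) * (w ⬝ᵥ z)) / (w ⬝ᵥ v0) := by
      rw [sub_dotProduct, smul_dotProduct, smul_dotProduct, hs]
      simp only [smul_eq_mul]
      field_simp
    rw [this]
    exact div_ne_zero c3 c2
  have e3 : k0 ⬝ᵥ (v + ((s • w) ⬝ᵥ v) • x) ≠ 0 := by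
    have : k0 ⬝ᵥ (v + ((s • w) ⬝ᵥ v) • x) = ((k0 ⬝ᵥ v) * (k ⬝ᵥ x) * (w ⬝ᵥ v0)
        + (k ⬝ᵥ v0) * (w ⬝ᵥ v) * (k0 ⬝ᵥ x)) / ((k ⬝ᵥ x) * (w ⬝ᵥ v0)) := by
      rw [dotProduct_add, dotProduct_smul, smul_dotProduct, hs]
      simp only [smul_eq_mul]
      field_simp
    rw [this]
    exact div_ne_zero c4 (mul_ne_zero c1 c2)
  have t4' : TRe A (2 * (2 * S5 n + L0) + (2 * S5 n + L0)) (v + ((s • w) ⬝ᵥ v) • x)
      (k - (k ⬝ᵥ x) • (s • w)) := by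
    have := t4 1
    rwa [one_smul] at this
  refine ⟨(k0 ⬝ᵥ (v + ((s • w) ⬝ᵥ v) • x)) • (k - (k ⬝ᵥ x) • (s • w)), ?_, ?_, ?_⟩
  · intro r
    have hr : (r • k0) ⬝ᵥ v0 = 0 := by rw [smul_dotProduct, hkv, smul_zero]
    have t5 := (ht0 r).comm t4' hr hd e1
    rw [smul_dotProduct, smul_assoc] at t5
    exact t5.mono (by omega)
  · rw [smul_dotProduct, e1, smul_zero]
  · rw [smul_dotProduct]
    exact mul_ne_zero e3 e2

/-- Step A: all transvections with the centre `v0` -/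
theorem tr_stepA_all {A : Set (SLn n (ZMod p))} (hA : Subgroup.closure A = ⊤) (hn : 4 ≤ n)
    {u f : Fin n → ZMod p} {L0 : ℕ} (ht : ∀ s : ZMod p, TRe A L0 u (s • f)) (hu : u ≠ 0)
    (hf : f ≠ 0) (hfu : f ⬝ᵥ u = 0) {v0 k0 : Fin n → ZMod p} {L : ℕ}
    (ht0 : ∀ s : ZMod p, TRe A L v0 (s • k0))
    (hv0 : v0 ≠ 0) (hk0 : k0 ≠ 0) (hkv : k0 ⬝ᵥ v0 = 0) {y : Fin n → ZMod p}
    (hy : y ⬝ᵥ v0 = 0) :
    TRe A (n * (2 * L + 2 * (3 * (2 * S5 n + L0)))) v0 y := by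
  obtain ⟨M, hM⟩ : ∃ M, M = 2 * L + 2 * (3 * (2 * S5 n + L0)) := ⟨_, rfl⟩
  rw [← hM]
  have hmem : y ∈ Submodule.span (ZMod p)
      {k : Fin n → ZMod p | (∀ s : ZMod p, TRe A M v0 (s • k)) ∧ k ⬝ᵥ v0 = 0} := by
    by_contra hcon
    obtain ⟨z, hz1, hz2⟩ := exists_sep hcon
    have hz : z ∉ Submodule.span (ZMod p) ({v0} : Set (Fin n → ZMod p)) := by
      intro hz
      rw [Submodule.mem_span_singleton] at hz
      obtain ⟨c, rfl⟩ := hz
      rw [smul_dotProduct, dotProduct_comm, hy, smul_zero] at hz1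
      exact zero_ne_one hz1
    obtain ⟨k, hk1, hk2, hk3⟩ := tr_stepA hA hn ht hu hf hfu ht0 hv0 hk0 hkv hz
    apply hk3
    rw [dotProduct_comm]
    rw [← hM] at hk1
    exact hz2 k (Submodule.subset_span ⟨hk1, hk2⟩)
  obtain ⟨c, hc1, hc2, hc3⟩ := Submodule.mem_span_set_iff_exists_finsupp_le_finrank.1 hmem
  rw [← hc3, Finsupp.sum]
  refine (TRe.sum_right (L := M) c.support (fun m => c m • m) ?_ ?_).mono
    (Nat.mul_le_mul_right _ (hc1.trans (finrank_le_n _)))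
  · intro m hm
    exact (hc2 hm).1 (c m)
  · intro m hm
    rw [smul_dotProduct, (hc2 hm).2, smul_zero]

end tr

/-- TR: from one root subgroup to all transvections, length polynomial in `n`. -/
theorem tr : Stmt_TR := by
  intro n p L0 _ A u f hA hn hu hf hfu ht x0 y hxy
  by_cases hy : y = 0
  · rw [hy]; exact (tre_zero_right A x0).mono (Nat.zero_le _)
  obtain ⟨M, hM⟩ : ∃ M, M = 2 * S5 n + L0 := ⟨_, rfl⟩
  have hmem : x0 ∈ Submodule.span (ZMod p)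
      {v : Fin n → ZMod p | (∀ s : ZMod p, TRe A (n * (12 * M)) v (s • y)) ∧ y ⬝ᵥ v = 0} := by
    by_contra hcon
    obtain ⟨z, hz1, hz2⟩ := exists_sep hcon
    have hz : z ∉ Submodule.span (ZMod p) ({y} : Set (Fin n → ZMod p)) := by
      intro hz
      rw [Submodule.mem_span_singleton] at hz
      obtain ⟨c, rfl⟩ := hz
      rw [smul_dotProduct, hxy, smul_zero] at hz1
      exact zero_ne_one hz1
    obtain ⟨h, h', hh, hh', c1, c2, c3⟩ := stepB_choice hA hn hu hf hfu hy hz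
    have t1 := tr_conj ht hh
    have t2 := tr_conj ht hh'
    have hwx : kk f h' ⬝ᵥ vv u h' = 0 := by rw [kk_dot_vv, hfu]
    have hkv' : kk f h ⬝ᵥ vv u h = 0 := by rw [kk_dot_vv, hfu]
    have hk0' := kk_ne_zero hf h
    generalize hv : vv u h = v at *
    generalize hk : kk f h = k at *
    generalize hx : vv u h' = x at *
    generalize hw : kk f h' = w at *
    obtain ⟨s, hs⟩ : ∃ s : ZMod p, s = -(y ⬝ᵥ v) / ((w ⬝ᵥ v) * (y ⬝ᵥ x)) := ⟨_, rfl⟩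
    have hswx : (s • w) ⬝ᵥ x = 0 := by rw [smul_dotProduct, hwx, smul_zero]
    have t4 := tr_conj_tre t1 (t2 s) hswx
    have hd := conj_dot hswx hkv'
    have hk0 := conj_ne_zero hswx hk0'
    have e1 : y ⬝ᵥ (v + ((s • w) ⬝ᵥ v) • x) = 0 := by
      rw [dotProduct_add, dotProduct_smul, smul_dotProduct, hs]
      simp only [smul_eq_mul]
      field_simp
      ring
    have e2 : z ⬝ᵥ (v + ((s • w) ⬝ᵥ v) • x) ≠ 0 := by
      have : z ⬝ᵥ (v + ((s • w) ⬝ᵥ v) • x)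
          = ((z ⬝ᵥ v) * (y ⬝ᵥ x) - (y ⬝ᵥ v) * (z ⬝ᵥ x)) / (y ⬝ᵥ x) := by
        rw [dotProduct_add, dotProduct_smul, smul_dotProduct, hs]
        simp only [smul_eq_mul]
        field_simp
        ring
      rw [this]
      exact div_ne_zero c3 c2
    have hv'0 : v + ((s • w) ⬝ᵥ v) • x ≠ 0 := by
      intro h0
      rw [h0, dotProduct_zero] at e2
      exact e2 rfl
    apply e2
    refine hz2 _ (Submodule.subset_span ⟨?_, e1⟩)
    intro r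
    have e1' : (r • y) ⬝ᵥ (v + ((s • w) ⬝ᵥ v) • x) = 0 := by
      rw [smul_dotProduct, e1, smul_zero]
    have t5 := tr_stepA_all hA hn ht hu hf hfu t4 hv'0 hk0 hd e1'
    refine t5.mono (Nat.mul_le_mul_left _ ?_)
    omega
  obtain ⟨c, hc1, hc2, hc3⟩ := Submodule.mem_span_set_iff_exists_finsupp_le_finrank.1 hmem
  rw [← hc3, Finsupp.sum]
  refine (TRe.sum_left (L := n * (12 * M)) c.support (fun m => c m • m) ?_ ?_).mono ?_
  · intro m hm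
    rw [tre_smul_comm]
    exact (hc2 hm).1 (c m)
  · intro m hm
    rw [dotProduct_smul, (hc2 hm).2, smul_zero]
  · refine (Nat.mul_le_mul_right _ (hc1.trans (finrank_le_n _))).trans ?_
    have h1 : n * (n * (12 * M)) = n ^ 2 * (12 * M) := by ring
    have h2 : 100 * n ^ 2 * (S5 n + L0) = n ^ 2 * (100 * (S5 n + L0)) := by ring
    rw [h1, h2, hM]
    exact Nat.mul_le_mul_left _ (by omega)

end Pool.Agent.Work.MP_936a99_bb
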