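import Pool.Agent.Work.MP_936a99_bb.Interface

/-!
# Block UNI (helper24)
-/

set_option autoImplicit false

namespace Pool.Agent.Work.MP_936a99_bb

open Matrix Polynomial

namespace UNI

/-- the power of a nilpotent matrix to the size is zero -/
lemma pow_card_zero {ι : Type} [Fintype ι] [DecidableEq ι] {K : Type} [Field K]
    {N : Matrix ι ι K} (h : IsNilpotent N) : N ^ Fintype.card ι = 0 := by
  have h1 := Matrix.isNilpotent_charpoly_sub_pow_of_isNilpotent h
  have h2 : N.charpoly - X ^ Fintype.card ι = 0 := h1.eq_zero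
  have h3 : N.charpoly = X ^ Fintype.card ι := sub_eq_zero.1 h2
  have h4 := Matrix.aeval_self_charpoly N
  rw [h3, map_pow, aeval_X] at h4
  exact h4

/-- the coefficients of the powers of `N` -/
noncomputable def d (p : ℕ) [Fact p.Prime] (i j : ℕ) : ZMod p :=
  (descPochhammer (ZMod p) i).coeff j / (i.factorial : ZMod p)

lemma fact_ne {p : ℕ} [hp : Fact p.Prime] {i : ℕ} (hi : i < p) : (i.factorial : ZMod p) ≠ 0 := by
  intro h
  rw [ZMod.natCast_eq_zero_iff] at h
  have := (hp.out.dvd_factorial).1 h
  omega

lemma choose_eq {p : ℕ} [hp : Fact p.Prime] {i m : ℕ} (hi : i < m) (hm : m ≤ p) (a : ℕ) :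
    ((a.choose i : ℕ) : ZMod p) = ∑ j ∈ Finset.range m, (a : ZMod p) ^ j * d p i j := by
  have hf := fact_ne (p := p) (i := i) (by omega)
  have h1 : ((i.factorial : ℕ) : ZMod p) * ((a.choose i : ℕ) : ZMod p) =
      (descPochhammer (ZMod p) i).eval (a : ZMod p) := by
    rw [descPochhammer_eval_eq_descFactorial, Nat.descFactorial_eq_factorial_mul_choose]
    push_cast
    ring
  have h2 : (descPochhammer (ZMod p) i).eval (a : ZMod p) =
      ∑ j ∈ Finset.range m, (descPochhammer (ZMod p) i).coeff j * (a : ZMod p) ^ j := by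
    refine Polynomial.eval_eq_sum_range' ?_ _
    rw [descPochhammer_natDegree]
    exact hi
  unfold d
  have h3 : ((a.choose i : ℕ) : ZMod p) =
      (descPochhammer (ZMod p) i).eval (a : ZMod p) / (i.factorial : ZMod p) := by
    rw [← h1]
    field_simp
  rw [h3, h2, Finset.sum_div]
  refine Finset.sum_congr rfl fun j _ => ?_
  ring

end UNI

open UNI

theorem uni : Stmt_UNI := by
  intro ι _ _ p hpf u hcard hup hu
  have hp : p.Prime := hpf.out
  set m := Fintype.card ι with hm
  set N : Matrix ι ι (ZMod p) := u - 1 with hN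
  have huN : u = N + 1 := by rw [hN]; abel
  have hNne : N ≠ 0 := fun h => hu (sub_eq_zero.1 h)
  have hne : Nonempty ι := by
    by_contra hem
    rw [not_nonempty_iff] at hem
    exact hNne (Subsingleton.elim _ _)
  have hNp : N ^ p = 0 := by
    rw [hN, sub_pow_char_of_commute p (Commute.one_right u), hup, one_pow, sub_self]
  have hnil : IsNilpotent N := ⟨p, hNp⟩
  have hNm : N ^ m = 0 := pow_card_zero hnil
  have hm1 : 1 < m := by
    by_contra hcon
    have h1 : 1 ≤ m := Fintype.card_pos
    have h2 : m = 1 := by omega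
    rw [h2, pow_one] at hNm
    exact hNne hNm
  have hNge : ∀ i, m ≤ i → N ^ i = 0 := by
    intro i hi
    obtain ⟨t, rfl⟩ := Nat.exists_eq_add_of_le hi
    rw [pow_add, hNm, zero_mul]
  refine ⟨fun j => ∑ i ∈ Finset.range m, d p i j • N ^ i, ?_, ?_, ?_, ?_⟩
  · intro a
    have h1 : u ^ a = ∑ i ∈ Finset.range m, ((a.choose i : ℕ) : ZMod p) • N ^ i := by
      rw [huN, (Commute.one_right N).add_pow]
      have h2 : ∀ i ∈ Finset.range (a + 1), N ^ i * 1 ^ (a - i) * ((a.choose i : ℕ) :
          Matrix ι ι (ZMod p)) = ((a.choose i : ℕ) : ZMod p) • N ^ i := by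
        intro i _
        rw [one_pow, mul_one]
        rw [Nat.cast_smul_eq_nsmul, nsmul_eq_mul, (Nat.cast_commute (a.choose i) (N ^ i)).eq]
      rw [Finset.sum_congr rfl h2]
      rcases le_total m (a + 1) with hle | hle
      · symm
        refine Finset.sum_subset (Finset.range_subset_range.2 hle) ?_
        intro i _ hi
        rw [Finset.mem_range, not_lt] at hi
        rw [hNge i hi, smul_zero]
      · refine Finset.sum_subset (Finset.range_subset_range.2 hle) ?_
        intro i _ hi
        rw [Finset.mem_range, not_lt] at hi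
        rw [Nat.choose_eq_zero_of_lt (by omega), Nat.cast_zero, zero_smul]
    rw [h1]
    have h3 : ∀ i ∈ Finset.range m, ((a.choose i : ℕ) : ZMod p) • N ^ i =
        ∑ j ∈ Finset.range m, (a : ZMod p) ^ j • (d p i j • N ^ i) := by
      intro i hi
      rw [choose_eq (Finset.mem_range.1 hi) hcard.le a, Finset.sum_smul]
      refine Finset.sum_congr rfl fun j _ => ?_
      rw [mul_smul]
    rw [Finset.sum_congr rfl h3, Finset.sum_comm]
    refine Finset.sum_congr rfl fun j _ => ?_
    rw [Finset.smul_sum]
  · change ∑ i ∈ Finset.range m, d p i 0 • N ^ i = 1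
    rw [Finset.sum_eq_single_of_mem 0 (Finset.mem_range.2 (by omega))]
    · unfold d
      rw [descPochhammer_zero, Polynomial.coeff_one_zero, Nat.factorial_zero, Nat.cast_one,
        div_one, one_smul, pow_zero]
    · intro i _ hi
      unfold d
      rw [Polynomial.coeff_zero_eq_eval_zero, descPochhammer_ne_zero_eval_zero _ hi, zero_div,
        zero_smul]
  all_goals
    set P : (ZMod p)[X] := ∑ i ∈ Finset.range m, C (d p i 1) * X ^ i with hP
    have hPc : ∀ n, n < m → P.coeff n = d p n 1 := by
      intro n hn
      rw [hP, Polynomial.finsetSum_coeff]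
      rw [Finset.sum_eq_single_of_mem n (Finset.mem_range.2 hn)]
      · rw [Polynomial.coeff_C_mul, Polynomial.coeff_X_pow_self, mul_one]
      · intro i _ hi
        rw [Polynomial.coeff_C_mul, Polynomial.coeff_X_pow, if_neg (Ne.symm hi), mul_zero]
    have hP0 : P.coeff 0 = 0 := by
      rw [hPc 0 (by omega)]
      unfold d
      rw [descPochhammer_zero, Polynomial.coeff_one]
      simp
    have hP1 : P.coeff 1 = 1 := by
      rw [hPc 1 hm1]
      unfold d
      rw [descPochhammer_one, Polynomial.coeff_X_one]
      simp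
    have hPN : ∑ i ∈ Finset.range m, d p i 1 • N ^ i = aeval N P := by
      rw [hP, map_sum]
      refine Finset.sum_congr rfl fun i _ => ?_
      rw [map_mul, aeval_C, map_pow, aeval_X, Algebra.smul_def]
    have hdec : P = divX P * X := by
      have := Polynomial.divX_mul_X_add P
      rw [hP0, map_zero, add_zero] at this
      exact this.symm
    have hfac : aeval N P = aeval N (divX P) * N := by
      rw [congrArg (aeval N) hdec, map_mul, aeval_X]
    have hcomm : ∀ q : (ZMod p)[X], Commute (aeval N q) N := by
      intro q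
      have h := (Commute.all q (X : (ZMod p)[X])).map (aeval N)
      rw [aeval_X] at h
      exact h
  · change ∑ i ∈ Finset.range m, d p i 1 • N ^ i ≠ 0
    rw [hPN, hfac]
    intro h0
    have hdec2 : divX P = divX (divX P) * X + 1 := by
      have := Polynomial.divX_mul_X_add (divX P)
      rw [Polynomial.coeff_divX, zero_add, hP1, map_one] at this
      exact this.symm
    have hunit : IsUnit (aeval N (divX P)) := by
      rw [congrArg (aeval N) hdec2, map_add, map_mul, aeval_X, map_one]
      refine IsNilpotent.isUnit_add_one ?_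
      refine Commute.isNilpotent_mul_left ?_ hnil
      exact hcomm _
    have := (hunit.mul_right_eq_zero).1 h0
    exact hNne this
  · change (∑ i ∈ Finset.range m, d p i 1 • N ^ i).trace = 0
    rw [hPN, hfac]
    have h1 : IsNilpotent (aeval N (divX P) * N) := by
      refine Commute.isNilpotent_mul_left ?_ hnil
      exact hcomm _
    exact (Matrix.isNilpotent_trace_of_isNilpotent h1).eq_zero

end Pool.Agent.Work.MP_936a99_bb
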