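import Pool.Agent.Work.MP_936a99_bb.Interface

/-!
# MP_936a99_al, block WHL: determinant and inverse of the generators
-/

namespace Pool.Agent.Work.MP_936a99_bb

open Matrix Pool.Agent.Work.MP_936a99_al_h7

namespace WHL

variable {t ρ : ℕ} {R : Type} [CommRing R]

/-- embedding of the `i`-th block -/
def em (R : Type) [CommRing R] (t ρ : ℕ) (i : Fin t) : Matrix (Fin t × Fin ρ) (Fin ρ) R :=
  Matrix.of fun x a => if x = (i, a) then 1 else 0

/-- `i`-th block row -/
def rw (M : Matrix (Fin t × Fin ρ) (Fin t × Fin ρ) R) (i : Fin t) :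
    Matrix (Fin ρ) (Fin t × Fin ρ) R :=
  Matrix.of fun a y => M (i, a) y

theorem em_mul (i : Fin t) {ι : Type} [Fintype ι] (X : Matrix (Fin ρ) ι R)
    (x : Fin t × Fin ρ) (y : ι) :
    (em R t ρ i * X) x y = if x.1 = i then X x.2 y else 0 := by
  rw [Matrix.mul_apply]
  by_cases h : x.1 = i
  · rw [if_pos h, Finset.sum_eq_single x.2]
    · simp [em, ← h]
    · intro b _ hb
      have : x ≠ (i, b) := fun e => hb (by rw [e])
      simp [em, this]
    · intro h'; exact absurd (Finset.mem_univ _) h'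
  · rw [if_neg h]
    refine Finset.sum_eq_zero fun b _ => ?_
    have : x ≠ (i, b) := fun e => h (by rw [e])
    simp [em, this]

theorem mul_em (i : Fin t) {ι : Type} [Fintype ι] (X : Matrix ι (Fin t × Fin ρ) R)
    (x : ι) (b : Fin ρ) :
    (X * em R t ρ i) x b = X x (i, b) := by
  rw [Matrix.mul_apply, Finset.sum_eq_single (i, b)]
  · simp [em]
  · intro y _ hy
    simp [em, hy]
  · intro h'; exact absurd (Finset.mem_univ _) h'

theorem wh_eq (M : Matrix (Fin t × Fin ρ) (Fin t × Fin ρ) R) (i : Fin t) :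
    wh M i = 1 + em R t ρ i * rw M i := by
  ext x y
  rw [wh, Matrix.add_apply, Matrix.add_apply, em_mul]
  congr 1
  simp only [Matrix.of_apply, rw]
  by_cases h : x.1 = i
  · rw [if_pos h, if_pos h, ← h]
  · rw [if_neg h, if_neg h]

theorem whi_eq (T : Matrix (Fin ρ) (Fin ρ) R) (M : Matrix (Fin t × Fin ρ) (Fin t × Fin ρ) R)
    (i : Fin t) : whi T M i = 1 - em R t ρ i * (T * rw M i) := by
  ext x y
  rw [whi, Matrix.sub_apply, Matrix.sub_apply, em_mul]
  congr 1

theorem rw_em (S : Matrix (Fin ρ) (Fin ρ) R) (M : Matrix (Fin t × Fin ρ) (Fin t × Fin ρ) R)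
    (i : Fin t) (h : DiagS S M) : rw M i * em R t ρ i = S := by
  ext a b
  rw [mul_em]
  exact h i a b

end WHL

open WHL in
/-- WHL -/
theorem whl : Stmt_WHL := by
  intro t ρ R _ S T M i h
  constructor
  · rw [wh_eq, Matrix.det_one_add_mul_comm, rw_em S M i h]
  · intro hT
    rw [wh_eq, whi_eq]
    have key : em R t ρ i * WHL.rw M i * (em R t ρ i * (T * WHL.rw M i)) =
        em R t ρ i * (S * T * WHL.rw M i) := by
      rw [← rw_em S M i h]
      simp only [Matrix.mul_assoc]
    have hST : S * T = 1 - T := by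
      have : (1 + S) * T = T + S * T := by rw [add_mul, one_mul]
      rw [this] at hT
      rw [← hT]; abel
    rw [mul_sub, mul_one, add_mul, one_mul, key, hST, Matrix.sub_mul, Matrix.one_mul,
      Matrix.mul_sub]
    abel

end Pool.Agent.Work.MP_936a99_bb
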