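import Pool.Agent.Work.MP_936a99_bb.Interface

/-!
# Block WSP (helper93): short words with linearly independent images
-/

namespace Pool.Agent.Work.MP_936a99_bb

open Matrix Pool.Agent.Work.MP_936a99_al_h7

namespace WSP

variable {K : Type} [Field K] {G : Type} [Group G] {E : Type} [Ring E] [Algebra K E]

/-- images of the words of length at most `j` -/
def W (A : Set G) (φ : G →* E) (j : ℕ) : Set E :=
  {z | ∃ l : List G, (∀ x ∈ l, x ∈ A) ∧ l.length ≤ j ∧ z = φ l.prod}

lemma W_mono (A : Set G) (φ : G →* E) {i j : ℕ} (h : i ≤ j) : W A φ i ⊆ W A φ j := by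
  rintro z ⟨l, h1, h2, h3⟩
  exact ⟨l, h1, h2.trans h, h3⟩

lemma mul_mem_W (A : Set G) (φ : G →* E) (j : ℕ) {a : G} (ha : a ∈ A) {z : E}
    (hz : z ∈ W A φ j) : φ a * z ∈ W A φ (j + 1) := by
  obtain ⟨l, h1, h2, rfl⟩ := hz
  refine ⟨a :: l, ?_, ?_, ?_⟩
  · intro x hx
    rcases List.mem_cons.1 hx with rfl | hx
    · exact ha
    · exact h1 x hx
  · simpa using h2
  · simp

lemma mul_mem_span (A : Set G) (φ : G →* E) (j : ℕ) {a : G} (ha : a ∈ A) {z : E}
    (hz : z ∈ Submodule.span K (W A φ j)) : φ a * z ∈ Submodule.span K (W A φ (j + 1)) := by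
  have h : Submodule.span K (W A φ j) ≤
      (Submodule.span K (W A φ (j + 1))).comap (LinearMap.mulLeft K (φ a)) := by
    rw [Submodule.span_le]
    intro w hw
    exact Submodule.subset_span (mul_mem_W A φ j ha hw)
  exact h hz

lemma stable [Finite G] (A : Set G) (φ : G →* E) (hA : Subgroup.closure A = ⊤) (j : ℕ)
    (h : Submodule.span K (W A φ (j + 1)) ≤ Submodule.span K (W A φ j)) :
    Submodule.span K (Set.range φ) ≤ Submodule.span K (W A φ j) := by
  rw [Submodule.span_le]
  rintro _ ⟨g, rfl⟩
  have hg : g ∈ Submonoid.closure A := by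
    have h1 : (Subgroup.closure A).toSubmonoid = Submonoid.closure A :=
      Subgroup.closure_toSubmonoid_of_finite
    rw [← h1, hA]
    trivial
  induction hg using Submonoid.closure_induction_left with
  | one =>
    exact Submodule.subset_span ⟨[], by simp, by simp, by simp⟩
  | mul_left a ha b _ hb =>
    rw [map_mul]
    exact h (mul_mem_span A φ j ha hb)

lemma W_le (A : Set G) (φ : G →* E) (j : ℕ) :
    Submodule.span K (W A φ j) ≤ Submodule.span K (Set.range φ) := by
  apply Submodule.span_mono
  rintro z ⟨l, _, _, rfl⟩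
  exact ⟨_, rfl⟩

lemma grow [Finite G] [FiniteDimensional K E] (A : Set G) (φ : G →* E)
    (hA : Subgroup.closure A = ⊤) (j : ℕ) :
    Submodule.span K (W A φ j) = Submodule.span K (Set.range φ) ∨
      j ≤ Module.finrank K (Submodule.span K (W A φ j)) := by
  induction j with
  | zero => right; simp
  | succ j ih =>
    have hmono : Submodule.span K (W A φ j) ≤ Submodule.span K (W A φ (j + 1)) :=
      Submodule.span_mono (W_mono A φ (Nat.le_succ j))
    rcases ih with ih | ih
    · left
      exact le_antisymm (W_le A φ _) (ih ▸ hmono)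
    · by_cases hst : Submodule.span K (W A φ (j + 1)) ≤ Submodule.span K (W A φ j)
      · left
        exact le_antisymm (W_le A φ _) ((stable A φ hA j hst).trans hmono)
      · right
        have hlt : Submodule.span K (W A φ j) < Submodule.span K (W A φ (j + 1)) :=
          lt_of_le_of_ne hmono (fun h => hst h.ge)
        have := Submodule.finrank_lt_finrank_of_lt hlt
        omega

end WSP

open WSP in
theorem wsp : Stmt_WSP := by
  intro K _ G _ _ A E _ _ _ φ hA
  set q := Module.finrank K (Submodule.span K (Set.range φ)) with hq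
  have hfull : Submodule.span K (W A φ q) = Submodule.span K (Set.range φ) := by
    rcases grow (K := K) A φ hA q with h | h
    · exact h
    · exact Submodule.eq_of_le_of_finrank_le (W_le A φ q) (by rw [← hq]; exact h)
  obtain ⟨b, hbs, hspan, hli⟩ := exists_linearIndependent K (W A φ q)
  have hbfin : b.Finite := hli.setFinite
  have : Fintype b := hbfin.fintype
  have hcard : Fintype.card b = q := by
    have h1 := finrank_span_set_eq_card hli
    rw [hspan, hfull, ← hq] at h1
    rw [h1, Set.toFinset_card]
  let eqv : Fin q ≃ b := (Fintype.equivFinOfCardEq hcard).symm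
  have hch : ∀ j : Fin q, ∃ l : List G, (∀ x ∈ l, x ∈ A) ∧ l.length ≤ q ∧
      ((eqv j : b) : E) = φ l.prod := fun j => hbs (eqv j).2
  choose w h1 h2 h3 using hch
  refine ⟨w, h1, h2, ?_⟩
  have h4 : (fun j => φ (w j).prod) = (fun x : b => (x : E)) ∘ eqv := by
    funext j
    exact (h3 j).symm
  rw [h4]
  exact hli.comp _ eqv.injective

end Pool.Agent.Work.MP_936a99_bb
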