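import Pool.Agent.Work.MP_936a99_bb.LogForm
import Pool.Agent.Work.MP_936a99_bb.BIG
import Pool.Agent.Work.MP_936a99_bb.CERT
import Pool.Agent.Work.MP_936a99_bb.CLO
import Pool.Agent.Work.MP_936a99_bb.COM
import Pool.Agent.Work.MP_936a99_bb.Cnt
import Pool.Agent.Work.MP_936a99_bb.DET
import Pool.Agent.Work.MP_936a99_bb.EMB
import Pool.Agent.Work.MP_936a99_bb.ESC
import Pool.Agent.Work.MP_936a99_bb.IRR
import Pool.Agent.Work.MP_936a99_bb.JORC
import Pool.Agent.Work.MP_936a99_bb.LIFTP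
import Pool.Agent.Work.MP_936a99_bb.MIN
import Pool.Agent.Work.MP_936a99_bb.NOP
import Pool.Agent.Work.MP_936a99_bb.REAL
import Pool.Agent.Work.MP_936a99_bb.THETA
import Pool.Agent.Work.MP_936a99_bb.TR
import Pool.Agent.Work.MP_936a99_bb.UNI
import Pool.Agent.Work.MP_936a99_bb.WHL
import Pool.Agent.Work.MP_936a99_bb.WSP
import Pool.Agent.Work.MP_936a99_bb3.Tgen
import Pool.Agent.Work.MP_936a99_bb3.Idx

/-!
# The uniform bounded rank theorem
-/

namespace Pool.Agent.Work.MP_936a99_bb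

theorem gen_thm : Stmt_GEN :=
  gen (big cnt uni) (Pool.Agent.Work.MP_936a99_bb3.idx Pool.Agent.Work.MP_936a99_bb3.tgen)
    (nop jorc liftp emb)

theorem fin_thm : Stmt_FIN :=
  fin_of gen_thm irr_top det_M0 com (clo whl Pool.Agent.Work.MP_936a99_bb3.tgen)
    (cert whl wsp min_minor) real_ex esc theta tr

end Pool.Agent.Work.MP_936a99_bb
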