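import Pool.Agent.Work.MP_936a99_bb.Interface

/-!
# Assembly of the uniform bounded rank theorem
-/

namespace Pool.Agent.Work.MP_936a99_bb

open Matrix Pool.Agent.Work.MP_936a99_al_h7

theorem gen (hB : Stmt_BIG) (hI : Stmt_IDX) (hN : Stmt_NOP) : Stmt_GEN := by
  intro ι _ _ hι
  obtain ⟨B, hB⟩ := hB ι hι
  obtain ⟨P1, hP1⟩ := hI ι hι B
  obtain ⟨J, hJ⟩ := hN ι hι
  refine ⟨max P1 (Fintype.card ι), J, fun p _ H hp hirr hc => ?_⟩
  have h1 : P1 < p := lt_of_le_of_lt (le_max_left _ _) hp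
  have h2 : Fintype.card ι < p := lt_of_le_of_lt (le_max_right _ _) hp
  exact hP1 p H h1 (hB p H h2 hirr (hJ p H h2 hirr hc))

/-! ## transport between index types -/

theorem reach_equiv {G G' : Type*} [Group G] [Group G'] (e : G ≃* G') {B : Set G} {L : ℕ} {x : G}
    (h : Reach (e '' B) L (e x)) : Reach B L x := by
  obtain ⟨l, h1, h2, h3⟩ := h
  refine ⟨l.map e.symm, by simpa using h1, ?_, ?_⟩
  · intro y hy
    obtain ⟨z, hz, rfl⟩ := List.mem_map.1 hy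
    rcases h2 z hz with ⟨b, hb, rfl⟩ | ⟨b, hb, hb'⟩
    · left; simpa using hb
    · right
      have hz' : z = (e b)⁻¹ := by rw [hb', inv_inv]
      rw [hz']
      simpa using hb
  · rw [← map_list_prod, h3, MulEquiv.symm_apply_apply]

/-- reindexing of the special linear group -/
def slEquiv {ι κ : Type} [Fintype ι] [DecidableEq ι] [Fintype κ] [DecidableEq κ] (e : ι ≃ κ)
    (p : ℕ) : SLI ι p ≃* SLI κ p where
  toFun g := ⟨(g : Matrix ι ι (ZMod p)).submatrix e.symm e.symm, by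
    rw [Matrix.det_submatrix_equiv_self]; exact g.2⟩
  invFun g := ⟨(g : Matrix κ κ (ZMod p)).submatrix e e, by
    rw [Matrix.det_submatrix_equiv_self]; exact g.2⟩
  left_inv g := by
    apply Subtype.ext
    ext i j
    simp
  right_inv g := by
    apply Subtype.ext
    ext i j
    simp
  map_mul' a b := by
    apply Subtype.ext
    change ((a : Matrix ι ι (ZMod p)) * (b : Matrix ι ι (ZMod p))).submatrix e.symm e.symm
      = (a : Matrix ι ι (ZMod p)).submatrix e.symm e.symm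
        * (b : Matrix ι ι (ZMod p)).submatrix e.symm e.symm
    rw [Matrix.submatrix_mul_equiv]

theorem diam_transport {ι : Type} [Fintype ι] [DecidableEq ι] {p N : ℕ}
    (h : DiamLe (Fintype.card ι) p N) (B : Set (SLI ι p)) (hB : Subgroup.closure B = ⊤)
    (x : SLI ι p) : Reach B N x := by
  let e := slEquiv (Fintype.equivFin ι) p
  apply reach_equiv e
  apply h
  have h1 := MonoidHom.map_closure e.toMonoidHom B
  rw [hB] at h1
  have h2 : (e.toMonoidHom '' B) = (e '' B) := rfl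
  rw [← h2, ← h1]
  rw [← MonoidHom.range_eq_map]
  exact MonoidHom.range_eq_top.2 e.surjective

/-! ## the main case -/

theorem det_Sm {n ρ p : ℕ} [Fact p.Prime] {P Q : Fin ρ → (Fin n → ZMod p)}
    {g0 : SLn n (ZMod p)}
    (h : (g0 : Matrix (Fin n) (Fin n) (ZMod p)) = 1 + ∑ a, vecMulVec (P a) (Q a)) :
    (1 + Sm P Q).det = 1 := by
  let PP : Matrix (Fin n) (Fin ρ) (ZMod p) := Matrix.of fun i a => P a i
  let QQ : Matrix (Fin ρ) (Fin n) (ZMod p) := Matrix.of fun a i => Q a i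
  have h1 : ∑ a, vecMulVec (P a) (Q a) = PP * QQ := by
    ext i j
    rw [Matrix.sum_apply, Matrix.mul_apply]
    rfl
  have h2 : QQ * PP = Sm P Q := by
    ext a b
    rw [Matrix.mul_apply]
    rfl
  have h3 : (g0 : Matrix (Fin n) (Fin n) (ZMod p)).det = 1 := g0.2
  rw [h, h1, Matrix.det_one_add_mul_comm, h2] at h3
  exact h3

theorem diagS_Mh {n ρ p : ℕ} [Fact p.Prime] (P Q : Fin ρ → (Fin n → ZMod p))
    (h : Fin 7 → SLn n (ZMod p)) : DiagS (Sm P Q) (Mh P Q h) := by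
  intro i a b
  exact kk_dot_vv _ _ _

theorem diagS_M0 {ρ p : ℕ} (S : Matrix (Fin ρ) (Fin ρ) (ZMod p)) (c : ZMod p) :
    DiagS S (M0 S c) := by
  intro i a b
  simp [M0]

theorem main_case (hG : Stmt_GEN) (hIrr : Stmt_IRR) (hDet : Stmt_DET) (hCom : Stmt_COM)
    (hClo : Stmt_CLO) (hCert : Stmt_CERT) (hReal : Stmt_REAL) (hEsc : Stmt_ESC)
    (hTheta : Stmt_THETA) (hTr : Stmt_TR) (ρ : ℕ) (hρ : 1 ≤ ρ) :
    ∃ D P0 : ℕ, ∀ (n p N l : ℕ) [Fact p.Prime], P0 < p → DiamLe (7 * ρ) p N → 10 * ρ ≤ n →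
      ∀ (A : Set (SLn n (ZMod p))), Subgroup.closure A = ⊤ → ∀ g0 : SLn n (ZMod p),
      Reach A l g0 → ((g0 : Matrix (Fin n) (Fin n) (ZMod p)) - 1).rank = ρ →
      ∀ g : SLn n (ZMod p),
        Reach A (2 * n * (100 * n ^ 2 * (S5 n + N * (2 * (2 * n ^ 2 + 1) ^ D + l)))) g := by
  have hcard : Fintype.card (Fin 7 × Fin ρ) = 7 * ρ := by simp
  obtain ⟨P1, J, hG⟩ := hG (Fin 7 × Fin ρ) (by rw [hcard]; omega)
  obtain ⟨D, P2, hC⟩ := hCert ρ J hρ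
  refine ⟨D, P1 + P2 + 7 * ρ + 3, ?_⟩
  intro n p N l _ hp hN hn A hA g0 hg0 hrank g
  obtain ⟨P, Q, hP, hQ, hPQ⟩ := rank_fact' ((g0 : Matrix (Fin n) (Fin n) (ZMod p)) - 1) hrank
  have hg0' : (g0 : Matrix (Fin n) (Fin n) (ZMod p)) = 1 + ∑ a, vecMulVec (P a) (Q a) := by
    rw [← hPQ]; abel
  have hS := det_Sm hg0'
  obtain ⟨c, hc, hdet⟩ := hDet ρ p (Sm P Q) (by omega)
  have hclo := hClo ρ p (Sm P Q) c hρ hS hc hdet
  have hcom := hCom ρ p (Sm P Q) c hρ hS hc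
  obtain ⟨Ψ, hΨ1, hΨ2, hΨ3⟩ := hC p (by omega)
    (hIrr (Fin 7 × Fin ρ) p (by omega) (by rw [hcard]; omega)) (Sm P Q) (M0 (Sm P Q) c) hS
    (diagS_M0 _ _) hdet hclo hcom
  obtain ⟨g1, hg1⟩ := hReal n ρ p P Q (M0 (Sm P Q) c) hn hP hQ (diagS_M0 _ _)
  obtain ⟨h, hh1, hh2⟩ := hEsc n ρ p D A P Q Ψ g1 hA hΨ1 (by rw [hg1]; exact hΨ2)
  obtain ⟨hM1, hM2, hM3⟩ := hΨ3 (Mh P Q h) (diagS_Mh P Q h) hh2
  have hM4 := hG p _ (by omega) hM2 hM3
  obtain ⟨u, f, hu, hf, hfu, ht⟩ := hTheta n ρ p ((2 * n ^ 2 + 1) ^ D) l N A P Q g0 h hρ hg0' hg0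
    hh1 hM1 (fun x => diam_transport (by rw [hcard]; exact hN) _ hM4 x)
  have hall := hTr n p _ A u f hA (by omega) hu hf hfu ht
  exact gen_by_transvections hall g

/-! ## numerical bounds -/

theorem le_pow_self' {n : ℕ} (hn : 2 ≤ n) (a : ℕ) : a ≤ n ^ a :=
  (Nat.lt_two_pow_self.le).trans (Nat.pow_le_pow_left hn a)

theorem sq_bound {n : ℕ} (hn : 2 ≤ n) : 2 * n ^ 2 + 1 ≤ n ^ 4 := by
  have h1 : 4 ≤ n ^ 2 := by nlinarith
  nlinarith [Nat.pow_le_pow_left hn 2]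

theorem boundC {n D l N : ℕ} (hn : 2 ≤ n) (hl : 1 ≤ l) (hN : 1 ≤ N) :
    2 * n * (100 * n ^ 2 * (S5 n + N * (2 * (2 * n ^ 2 + 1) ^ D + (2 * l + 2))))
      ≤ l * n ^ (4 * D + 34) * N := by
  have h1 : S5 n ≤ n ^ 20 := by
    calc S5 n = (2 * n ^ 2 + 1) ^ 5 := rfl
      _ ≤ (n ^ 4) ^ 5 := Nat.pow_le_pow_left (sq_bound hn) 5
      _ = n ^ 20 := by ring
  have h2 : (2 * n ^ 2 + 1) ^ D ≤ n ^ (4 * D) := by
    calc (2 * n ^ 2 + 1) ^ D ≤ (n ^ 4) ^ D := Nat.pow_le_pow_left (sq_bound hn) D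
      _ = n ^ (4 * D) := by rw [← pow_mul]
  have hn1 : 1 ≤ n := by omega
  have h3 : n ^ 20 ≤ n ^ (4 * D + 20) := Nat.pow_le_pow_right hn1 (by omega)
  have h4 : n ^ (4 * D) ≤ n ^ (4 * D + 20) := Nat.pow_le_pow_right hn1 (by omega)
  have h5 : 1 ≤ n ^ (4 * D + 20) := Nat.one_le_pow _ _ (by omega)
  set X := n ^ (4 * D + 20) with hX
  have hlN : 1 ≤ l * N := Nat.one_le_iff_ne_zero.2 (by positivity)
  have e1 : S5 n + N * (2 * (2 * n ^ 2 + 1) ^ D + (2 * l + 2)) ≤ 7 * (l * N * X) := by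
    have a1 : S5 n ≤ l * N * X := by
      calc S5 n ≤ X := h1.trans h3
        _ = 1 * X := (one_mul _).symm
        _ ≤ l * N * X := Nat.mul_le_mul_right _ hlN
    have a2 : N * (2 * (2 * n ^ 2 + 1) ^ D) ≤ 2 * (l * N * X) := by
      calc N * (2 * (2 * n ^ 2 + 1) ^ D) ≤ N * (2 * X) := by
            gcongr; exact h2.trans h4
        _ = 1 * (2 * (N * X)) := by ring
        _ ≤ l * (2 * (N * X)) := Nat.mul_le_mul_right _ hl
        _ = 2 * (l * N * X) := by ring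
    have a3 : N * (2 * l + 2) ≤ 4 * (l * N * X) := by
      calc N * (2 * l + 2) ≤ N * (4 * l) := Nat.mul_le_mul_left _ (by omega)
        _ = 4 * (l * N) * 1 := by ring
        _ ≤ 4 * (l * N) * X := Nat.mul_le_mul_left _ h5
        _ = 4 * (l * N * X) := by ring
    calc S5 n + N * (2 * (2 * n ^ 2 + 1) ^ D + (2 * l + 2))
        = S5 n + N * (2 * (2 * n ^ 2 + 1) ^ D) + N * (2 * l + 2) := by ring
      _ ≤ l * N * X + 2 * (l * N * X) + 4 * (l * N * X) := by gcongr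
      _ = 7 * (l * N * X) := by ring
  have h6 : 1400 ≤ n ^ 11 := by
    calc 1400 ≤ 2 ^ 11 := by norm_num
      _ ≤ n ^ 11 := Nat.pow_le_pow_left hn 11
  calc 2 * n * (100 * n ^ 2 * (S5 n + N * (2 * (2 * n ^ 2 + 1) ^ D + (2 * l + 2))))
      ≤ 2 * n * (100 * n ^ 2 * (7 * (l * N * X))) := by gcongr
    _ = 1400 * (n ^ 3 * (l * N * X)) := by ring
    _ ≤ n ^ 11 * (n ^ 3 * (l * N * X)) := Nat.mul_le_mul_right _ h6
    _ = l * n ^ (4 * D + 34) * N := by rw [hX]; ring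

theorem boundB {n p P0 ρ l : ℕ} (hn : 2 ≤ n) (hl : 1 ≤ l) (hp1 : 1 ≤ p) (hp : p ≤ P0) :
    2 * n * LT n p (4 * (2 * n ^ 2 + 1) ^ (2 * ρ ^ 2 * (p - 1)) + 4 * (2 * l + 2))
      ≤ l * n ^ (8 * ρ ^ 2 * P0 + P0 ^ 3 + 40) := by
  have h1 : S5 n ≤ n ^ 20 := by
    calc S5 n = (2 * n ^ 2 + 1) ^ 5 := rfl
      _ ≤ (n ^ 4) ^ 5 := Nat.pow_le_pow_left (sq_bound hn) 5
      _ = n ^ 20 := by ring
  have hn1 : 1 ≤ n := by omega
  have h2 : (2 * n ^ 2 + 1) ^ (2 * ρ ^ 2 * (p - 1)) ≤ n ^ (8 * ρ ^ 2 * P0) := by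
    calc (2 * n ^ 2 + 1) ^ (2 * ρ ^ 2 * (p - 1))
        ≤ (n ^ 4) ^ (2 * ρ ^ 2 * (p - 1)) := Nat.pow_le_pow_left (sq_bound hn) _
      _ = n ^ (8 * ρ ^ 2 * (p - 1)) := by rw [← pow_mul]; ring_nf
      _ ≤ n ^ (8 * ρ ^ 2 * P0) := Nat.pow_le_pow_right hn1 (Nat.mul_le_mul_left _ (by omega))
  set Y := n ^ (8 * ρ ^ 2 * P0 + 20) with hY
  have h3 : n ^ 20 ≤ Y := Nat.pow_le_pow_right hn1 (by omega)
  have h4 : n ^ (8 * ρ ^ 2 * P0) ≤ Y := Nat.pow_le_pow_right hn1 (by omega)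
  have h5 : 1 ≤ Y := Nat.one_le_pow _ _ (by omega)
  set L0 := 4 * (2 * n ^ 2 + 1) ^ (2 * ρ ^ 2 * (p - 1)) + 4 * (2 * l + 2) with hL0
  have e1 : 2 * S5 n + L0 ≤ 22 * (l * Y) := by
    have a1 : S5 n ≤ l * Y := by
      calc S5 n ≤ Y := h1.trans h3
        _ = 1 * Y := (one_mul _).symm
        _ ≤ l * Y := Nat.mul_le_mul_right _ hl
    have a2 : (2 * n ^ 2 + 1) ^ (2 * ρ ^ 2 * (p - 1)) ≤ l * Y := by
      calc (2 * n ^ 2 + 1) ^ (2 * ρ ^ 2 * (p - 1)) ≤ Y := h2.trans h4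
        _ = 1 * Y := (one_mul _).symm
        _ ≤ l * Y := Nat.mul_le_mul_right _ hl
    have a3 : l ≤ l * Y := Nat.le_mul_of_pos_right _ (by omega)
    rw [hL0]
    omega
  have e2 : LT n p L0 ≤ P0 ^ 3 * (n ^ 2 * (12 * (22 * (l * Y)))) := by
    have b1 : 2 * (p * (2 * S5 n + L0)) + (2 * S5 n + L0) ≤ 3 * (P0 * (22 * (l * Y))) := by
      have c1 : p * (2 * S5 n + L0) ≤ P0 * (22 * (l * Y)) := Nat.mul_le_mul hp e1
      have c2 : 2 * S5 n + L0 ≤ P0 * (22 * (l * Y)) := by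
        calc 2 * S5 n + L0 ≤ 1 * (22 * (l * Y)) := by rw [one_mul]; exact e1
          _ ≤ P0 * (22 * (l * Y)) := Nat.mul_le_mul_right _ (by omega)
      omega
    calc LT n p L0 = n * (p * (n * (p * (4 * (2 * (p * (2 * S5 n + L0)) + (2 * S5 n + L0)))))) := rfl
      _ ≤ n * (P0 * (n * (P0 * (4 * (3 * (P0 * (22 * (l * Y)))))))) := by gcongr
      _ = P0 ^ 3 * (n ^ 2 * (12 * (22 * (l * Y)))) := by ring
  have h6 : 528 ≤ n ^ 10 := by
    calc 528 ≤ 2 ^ 10 := by norm_num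
      _ ≤ n ^ 10 := Nat.pow_le_pow_left hn 10
  calc 2 * n * LT n p L0 ≤ 2 * n * (P0 ^ 3 * (n ^ 2 * (12 * (22 * (l * Y))))) := by gcongr
    _ = 528 * (P0 ^ 3 * (n ^ 3 * (l * Y))) := by ring
    _ ≤ n ^ 10 * (n ^ (P0 ^ 3) * (n ^ 3 * (l * Y))) :=
        Nat.mul_le_mul h6 (Nat.mul_le_mul_right _ (le_pow_self' hn _))
    _ = l * n ^ (8 * ρ ^ 2 * P0 + P0 ^ 3 + 33) := by rw [hY]; ring
    _ ≤ l * n ^ (8 * ρ ^ 2 * P0 + P0 ^ 3 + 40) := by
        gcongr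
        · omega

theorem one_le_diam {p N : ℕ} [Fact p.Prime] (h : DiamLe 2 p N) : 1 ≤ N := by
  by_contra hN
  have hN0 : N = 0 := by omega
  subst hN0
  have h01 : (0 : Fin 2) ≠ 1 := by decide
  obtain ⟨l, h1, -, h3⟩ := h Set.univ (Subgroup.closure_univ)
    (Matrix.SpecialLinearGroup.transvection h01 1)
  have hl : l = [] := List.length_eq_zero_iff.1 (Nat.le_zero.1 h1)
  rw [hl, List.prod_nil] at h3
  have h4 := congrArg (fun g : SLI (Fin 2) p => (g : Matrix (Fin 2) (Fin 2) (ZMod p)) 0 1) h3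
  simp [Matrix.SpecialLinearGroup.transvection_coe] at h4

theorem one_le_length {n p l : ℕ} [Fact p.Prime] {A : Set (SLn n (ZMod p))} {w : SLn n (ZMod p)}
    (hw : Reach A l w)
    (hns : ∀ d : ZMod p, (w : Matrix (Fin n) (Fin n) (ZMod p)) ≠ d • 1) : 1 ≤ l := by
  rw [Nat.one_le_iff_ne_zero]
  rintro rfl
  obtain ⟨v, h1, -, h3⟩ := hw
  have hv : v = [] := List.length_eq_zero_iff.1 (Nat.le_zero.1 h1)
  apply hns 1
  rw [← h3, hv]
  simp

/-- **Assembly.** -/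
theorem fin_of (hG : Stmt_GEN) (hIrr : Stmt_IRR) (hDet : Stmt_DET) (hCom : Stmt_COM)
    (hClo : Stmt_CLO) (hCert : Stmt_CERT) (hReal : Stmt_REAL) (hEsc : Stmt_ESC)
    (hTheta : Stmt_THETA) (hTr : Stmt_TR) : Stmt_FIN := by
  intro r
  have hmain := main_case hG hIrr hDet hCom hClo hCert hReal hEsc hTheta hTr
  choose! D P0 hDP using hmain
  -- uniform constants
  set DD := ∑ ρ ∈ Finset.range (2 * r + 1), D ρ with hDD
  set PP := ∑ ρ ∈ Finset.range (2 * r + 1), P0 ρ with hPP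
  have hDle : ∀ ρ ≤ 2 * r, D ρ ≤ DD := fun ρ hρ =>
    Finset.single_le_sum (f := D) (fun _ _ => Nat.zero_le _) (Finset.mem_range.2 (by omega))
  have hPle : ∀ ρ ≤ 2 * r, P0 ρ ≤ PP := fun ρ hρ =>
    Finset.single_le_sum (f := P0) (fun _ _ => Nat.zero_le _) (Finset.mem_range.2 (by omega))
  refine ⟨(4 * DD + 34) + (32 * r ^ 2 * PP + PP ^ 3 + 40) + 20 * r + 2, ?_⟩
  set C := (4 * DD + 34) + (32 * r ^ 2 * PP + PP ^ 3 + 40) + 20 * r + 2 with hC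
  intro n p N l _ hN A hA w hw c hrank hns g
  have hp2 : 2 ≤ p := (Fact.out : p.Prime).two_le
  have hl : 1 ≤ l := one_le_length hw hns
  have hN1 : 1 ≤ N := one_le_diam (hN 2 (by omega))
  have hn2 : 2 ≤ n := two_le_of_nonscalar hns
  have hCn : 1 ≤ C * n ^ C := Nat.one_le_iff_ne_zero.2 (by positivity)
  by_cases hnC : n ≤ C
  · have h1 : Reach A N g := hN n hnC A hA g
    refine h1.mono ?_
    calc N = 1 * 1 * N := by ring
      _ ≤ l * (C * n ^ C) * N := by gcongr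
      _ = l * C * n ^ C * N := by ring
  · obtain ⟨g0, hg0, hρ1, hρ2⟩ := exists_small_rank hA hw hrank hns
    set ρ := ((g0 : Matrix (Fin n) (Fin n) (ZMod p)) - 1).rank with hρ
    by_cases hp : P0 ρ < p
    · have h1 := hDP ρ hρ1 n p N (2 * l + 2) hp (hN _ (by omega)) (by omega) A hA g0 hg0 hρ.symm g
      refine h1.mono ((boundC hn2 hl hN1).trans ?_)
      have h2 : n ^ (4 * D ρ + 34) ≤ n ^ C :=
        Nat.pow_le_pow_right (by omega) (by have := hDle ρ hρ2; omega)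
      calc l * n ^ (4 * D ρ + 34) * N ≤ l * (1 * n ^ C) * N := by rw [one_mul]; gcongr
        _ ≤ l * (C * n ^ C) * N := by gcongr; omega
        _ = l * C * n ^ C * N := by ring
    · have hpP : p ≤ PP := (not_lt.1 hp).trans (hPle ρ hρ2)
      obtain ⟨u, f, hu, hf, hfu, ht⟩ := exists_transvection hA hg0 hρ.symm hρ1 (by omega)
      have hall := fun (x y : Fin n → ZMod p) (hxy : y ⬝ᵥ x = 0) =>
        all_transvections hA (by omega) ht hu hf hfu hxy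
      refine (gen_by_transvections hall g).mono ((boundB hn2 hl (by omega) hpP).trans ?_)
      have h3 : 8 * ρ ^ 2 * PP ≤ 32 * r ^ 2 * PP := by
        have : ρ ^ 2 ≤ (2 * r) ^ 2 := Nat.pow_le_pow_left hρ2 2
        calc 8 * ρ ^ 2 * PP ≤ 8 * (2 * r) ^ 2 * PP := by gcongr
          _ = 32 * r ^ 2 * PP := by ring
      have h2 : n ^ (8 * ρ ^ 2 * PP + PP ^ 3 + 40) ≤ n ^ C :=
        Nat.pow_le_pow_right (by omega) (by omega)
      calc l * n ^ (8 * ρ ^ 2 * PP + PP ^ 3 + 40) = l * (1 * n ^ (8 * ρ ^ 2 * PP + PP ^ 3 + 40)) * 1 := by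
            ring
        _ ≤ l * (C * n ^ C) * N := by gcongr; omega
        _ = l * C * n ^ C * N := by ring

end Pool.Agent.Work.MP_936a99_bb
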