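import Pool.Agent.Work.MP_936a99_bb.Interface

/-!
# IDX: a subgroup of `SL_m(F_p)` of small index is everything
-/

namespace Pool.Agent.Work.MP_936a99_bb

open Matrix

/-- powers of an elementary transvection -/
theorem IDX.transvection_pow {ι F : Type*} [Fintype ι] [DecidableEq ι] [Field F] {i j : ι}
    (hij : i ≠ j) (c : F) (n : ℕ) :
    (Matrix.SpecialLinearGroup.transvection hij c) ^ n =
      Matrix.SpecialLinearGroup.transvection hij ((n : F) * c) := by
  induction n with
  | zero =>
    rw [pow_zero, Nat.cast_zero, zero_mul, Matrix.SpecialLinearGroup.transvection_coeff_zero]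
  | succ n ih =>
    rw [pow_succ, ih, ← Matrix.SpecialLinearGroup.transvection_add]
    congr 1
    push_cast
    ring

/-- an element of order `p` lies in every subgroup of index smaller than `p` -/
theorem IDX.mem_of_index {G : Type*} [Group G] (H : Subgroup G) (p : ℕ) (hp : p.Prime)
    (h0 : H.index ≠ 0) (hlt : H.index < p) (x : G) (hx : x ^ p = 1) : x ∈ H := by
  obtain ⟨n, hn0, hn1, hn2⟩ := H.exists_pow_mem_of_index_ne_zero h0 x
  have hcop : Nat.Coprime n p := by
    rw [Nat.coprime_comm]
    exact hp.coprime_iff_not_dvd.2 fun h => by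
      have := Nat.le_of_dvd hn0 h
      omega
  have hb := Nat.gcd_eq_gcd_ab n p
  rw [Nat.Coprime] at hcop
  rw [hcop] at hb
  have hx1 : x = (x ^ n) ^ (Nat.gcdA n p) * (x ^ p) ^ (Nat.gcdB n p) := by
    rw [← zpow_natCast x n, ← zpow_natCast x p, ← _root_.zpow_mul, ← _root_.zpow_mul, ← _root_.zpow_add, ← hb,
      Nat.cast_one, zpow_one]
  rw [hx, _root_.one_zpow, mul_one] at hx1
  rw [hx1]
  exact H.zpow_mem hn2 _

/-- the order of `SL` -/
theorem IDX.card_le {ι : Type} [Fintype ι] [DecidableEq ι] [Nonempty ι] (p : ℕ) [Fact p.Prime] :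
    (p - 1) * Nat.card (SLI ι p) ≤ p ^ (Fintype.card ι ^ 2) := by
  classical
  obtain ⟨i0⟩ := ‹Nonempty ι›
  let f : (ZMod p)ˣ × SLI ι p → Matrix ι ι (ZMod p) := fun x =>
    diagonal (Function.update (fun _ => (1 : ZMod p)) i0 x.1) * (x.2 : Matrix ι ι (ZMod p))
  have hdet : ∀ c : (ZMod p)ˣ, (diagonal (Function.update (fun _ : ι => (1 : ZMod p)) i0 c)).det =
      c := by
    intro c
    rw [det_diagonal, Finset.prod_update_of_mem (Finset.mem_univ _), Finset.prod_const_one, mul_one]
  have hf : Function.Injective f := by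
    rintro ⟨c, g⟩ ⟨d, h⟩ hcd
    have h1 : (f (c, g)).det = (f (d, h)).det := by rw [hcd]
    have h2 : c = d := by
      simp only [f, det_mul, hdet, Matrix.SpecialLinearGroup.det_coe, mul_one] at h1
      exact Units.ext h1
    subst h2
    have h3 : (g : Matrix ι ι (ZMod p)) = h := by
      have hu : IsUnit (diagonal (Function.update (fun _ : ι => (1 : ZMod p)) i0 c)).det := by
        rw [hdet]; exact c.isUnit
      have h4 := congrArg (fun M => (diagonal (Function.update (fun _ : ι => (1 : ZMod p)) i0 c))⁻¹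
        * M) hcd
      simp only [f] at h4
      rwa [Matrix.nonsing_inv_mul_cancel_left _ _ hu, Matrix.nonsing_inv_mul_cancel_left _ _ hu]
        at h4
    exact Prod.ext rfl (Subtype.ext h3)
  have h5 := Nat.card_le_card_of_injective f hf
  rw [Nat.card_prod, Nat.card_eq_fintype_card (α := (ZMod p)ˣ), ZMod.card_units p] at h5
  have h6 : Nat.card (Matrix ι ι (ZMod p)) = p ^ (Fintype.card ι ^ 2) := by
    rw [Nat.card_congr (Matrix.of (m := ι) (n := ι) (α := ZMod p)).symm, Nat.card_fun,
      Nat.card_fun, Nat.card_zmod, Nat.card_eq_fintype_card, ← pow_mul, sq]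
  rw [h6] at h5
  exact h5

/-- IDX -/
theorem idx (htg : Stmt_TGEN) : Stmt_IDX := by
  intro ι _ _ hm B
  refine ⟨2 * B + 2, ?_⟩
  intro p hpp H hP hH
  have hp : p.Prime := hpp.out
  have hp2 := hp.two_le
  have : Nonempty ι := Fintype.card_pos_iff.1 (by omega)
  have hfin : Finite (SLI ι p) := inferInstance
  have h0 : H.index ≠ 0 := Subgroup.index_ne_zero_of_finite
  have hcard := IDX.card_le (ι := ι) p
  rw [← H.card_mul_index] at hcard
  have hHpos : 0 < Nat.card H := Nat.card_pos
  have hexp : p ^ (Fintype.card ι ^ 2) = p * p ^ (Fintype.card ι ^ 2 - 1) := by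
    rw [← pow_succ']
    congr 1
    have : 1 ≤ Fintype.card ι ^ 2 := Nat.one_le_pow _ _ (by omega)
    omega
  rw [hexp] at hcard
  have h1 : (p - 1) * (Nat.card H * H.index) ≤ p * (B * Nat.card H) :=
    hcard.trans (Nat.mul_le_mul_left _ hH)
  have h2 : (p - 1) * H.index ≤ p * B := by
    apply Nat.le_of_mul_le_mul_right _ hHpos
    calc (p - 1) * H.index * Nat.card H = (p - 1) * (Nat.card H * H.index) := by ring
      _ ≤ _ := h1
      _ = p * B * Nat.card H := by ring
  have h3 : H.index ≤ 2 * B := by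
    by_contra h
    push Not at h
    obtain ⟨q, rfl⟩ : ∃ q, p = q + 1 := ⟨p - 1, by omega⟩
    simp only [Nat.add_sub_cancel] at h2
    have : q * (2 * B + 1) ≤ (q + 1) * B := (Nat.mul_le_mul_left _ h).trans h2
    nlinarith
  apply htg ι p H
  intro i j hij c
  apply IDX.mem_of_index H p hp h0 (by omega)
  rw [IDX.transvection_pow, ZMod.natCast_self, zero_mul,
    Matrix.SpecialLinearGroup.transvection_coeff_zero]

end Pool.Agent.Work.MP_936a99_bb
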