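import Pool.Agent.Work.MP_936a99_al_h7.Bound

/-!
# Interface for the uniform bounded rank theorem (MP_936a99_al)

Every block proves one of the propositions `Stmt_XXX` below, in its own file, as a theorem
`theorem xxx : Stmt_XXX`.  Only this file (and Mathlib and the `MP_936a99_al_h7` files) is imported.
-/

namespace Pool.Agent.Work.MP_936a99_bb

open Matrix Pool.Agent.Work.MP_936a99_al_h7

/-- special linear group over `F_p` with an arbitrary index type -/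
abbrev SLI (ι : Type) [Fintype ι] [DecidableEq ι] (p : ℕ) := Matrix.SpecialLinearGroup ι (ZMod p)

/-! ## Part G: a generation criterion for `SL_m(F_p)`, `p` large in terms of `m` -/

/-- the conjugates under `H` of every nonzero matrix of trace zero span all matrices of trace
zero -/
def Irr {ι : Type} [Fintype ι] [DecidableEq ι] {p : ℕ} (H : Subgroup (SLI ι p)) : Prop :=
  ∀ X : Matrix ι ι (ZMod p), X ≠ 0 → X.trace = 0 → ∀ Y : Matrix ι ι (ZMod p), Y.trace = 0 →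
    Y ∈ Submodule.span (ZMod p) {Z : Matrix ι ι (ZMod p) | ∃ g ∈ H,
      Z = (g : Matrix ι ι (ZMod p)) * X * ((g⁻¹ : SLI ι p) : Matrix ι ι (ZMod p))}

/-- the powers `c, c ^ 2, ..., c ^ J` are not scalar -/
def NonscalarPowers {ι : Type} [Fintype ι] [DecidableEq ι] {p : ℕ} (J : ℕ) (c : SLI ι p) : Prop :=
  ∀ s : ℕ, 1 ≤ s → s ≤ J → ∀ d : ZMod p, ((c ^ s : SLI ι p) : Matrix ι ι (ZMod p)) ≠ d • 1

/-- CNT: a polynomial map `F_p ^ k → F_p ^ k` with components `X_j + (terms of order ≥ 2)` of degree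
at most `d` has an image with at least `p ^ k / (k d) ^ k` elements. -/
def Stmt_CNT : Prop := ∀ (k d p : ℕ) [Fact p.Prime] (f : Fin k → MvPolynomial (Fin k) (ZMod p)),
  1 ≤ d → (∀ j, (f j).totalDegree ≤ d) → (∀ j, (f j).coeff 0 = 0) →
  (∀ i j, (f j).coeff (Finsupp.single i 1) = if i = j then 1 else 0) →
  p ^ k ≤ (k * d) ^ k *
    (Finset.univ.image (fun x : Fin k → ZMod p => fun j => MvPolynomial.eval x (f j))).card

/-- UNI: powers of an element of order `p` are given by polynomials in the exponent. -/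
def Stmt_UNI : Prop := ∀ (ι : Type) [Fintype ι] [DecidableEq ι] (p : ℕ) [Fact p.Prime]
  (u : Matrix ι ι (ZMod p)), Fintype.card ι < p → u ^ p = 1 → u ≠ 1 →
  ∃ c : ℕ → Matrix ι ι (ZMod p),
    (∀ a : ℕ, u ^ a = ∑ j ∈ Finset.range (Fintype.card ι), ((a : ZMod p) ^ j) • c j) ∧
    c 0 = 1 ∧ c 1 ≠ 0 ∧ (c 1).trace = 0

/-- BIG: an irreducible subgroup of order divisible by `p` is big. -/
def Stmt_BIG : Prop := ∀ (ι : Type) [Fintype ι] [DecidableEq ι], 2 ≤ Fintype.card ι →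
  ∃ B : ℕ, ∀ (p : ℕ) [Fact p.Prime] (H : Subgroup (SLI ι p)), Fintype.card ι < p → Irr H →
    p ∣ Nat.card H → p ^ (Fintype.card ι ^ 2 - 1) ≤ B * Nat.card H

/-- TGEN: a subgroup containing all elementary transvections is everything. -/
def Stmt_TGEN : Prop := ∀ (ι : Type) [Fintype ι] [DecidableEq ι] (p : ℕ) [Fact p.Prime]
  (H : Subgroup (SLI ι p)),
  (∀ (i j : ι) (hij : i ≠ j) (c : ZMod p), Matrix.SpecialLinearGroup.transvection hij c ∈ H) →
  H = ⊤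

/-- IDX: a big subgroup is everything. -/
def Stmt_IDX : Prop := ∀ (ι : Type) [Fintype ι] [DecidableEq ι], 2 ≤ Fintype.card ι → ∀ B : ℕ,
  ∃ P0 : ℕ, ∀ (p : ℕ) [Fact p.Prime] (H : Subgroup (SLI ι p)), P0 < p →
    p ^ (Fintype.card ι ^ 2 - 1) ≤ B * Nat.card H → H = ⊤

/-- JORC: Jordan's theorem over the complex numbers. -/
def Stmt_JORC : Prop := ∀ (ι : Type) [Fintype ι] [DecidableEq ι], ∃ J : ℕ,
  ∀ (G : Type) [Group G] [Finite G] (φ : G →* Matrix.GeneralLinearGroup ι ℂ),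
    Function.Injective φ →
    ∃ N : Subgroup G, N.Normal ∧ (∀ a ∈ N, ∀ b ∈ N, a * b = b * a) ∧ N.index ≤ J

/-- LIFTP: representations of groups of order prime to `p` lift from `F_p` to `ℤ_p`. -/
def Stmt_LIFTP : Prop := ∀ (ι : Type) [Fintype ι] [DecidableEq ι] (p : ℕ) [Fact p.Prime]
  (G : Type) [Group G] [Finite G] (φ : G →* Matrix.GeneralLinearGroup ι (ZMod p)),
  ¬ p ∣ Nat.card G → Function.Injective φ →
  ∃ ψ : G →* Matrix.GeneralLinearGroup ι ℤ_[p], Function.Injective ψ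

/-- EMB: `ℤ_p` embeds in the complex numbers. -/
def Stmt_EMB : Prop := ∀ (p : ℕ) [Fact p.Prime], ∃ f : ℤ_[p] →+* ℂ, Function.Injective f

/-- NOP: an irreducible subgroup with enough elements has order divisible by `p`. -/
def Stmt_NOP : Prop := ∀ (ι : Type) [Fintype ι] [DecidableEq ι], 2 ≤ Fintype.card ι →
  ∃ J : ℕ, ∀ (p : ℕ) [Fact p.Prime] (H : Subgroup (SLI ι p)), Fintype.card ι < p → Irr H →
    (∃ c ∈ H, NonscalarPowers J c) → p ∣ Nat.card H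

/-- GEN: the generation criterion. -/
def Stmt_GEN : Prop := ∀ (ι : Type) [Fintype ι] [DecidableEq ι], 2 ≤ Fintype.card ι →
  ∃ P0 J : ℕ, ∀ (p : ℕ) [Fact p.Prime] (H : Subgroup (SLI ι p)), P0 < p → Irr H →
    (∃ c ∈ H, NonscalarPowers J c) → H = ⊤

/-- IRR: the full group is irreducible on the matrices of trace zero. -/
def Stmt_IRR : Prop := ∀ (ι : Type) [Fintype ι] [DecidableEq ι] (p : ℕ) [Fact p.Prime],
  3 ≤ p → Fintype.card ι < p → Irr (⊤ : Subgroup (SLI ι p))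

/-! ## Part C: the configuration -/

section config

variable {t ρ : ℕ} {R : Type} [CommRing R]

/-- the `i`-th generator `1 + π_i M` (`π_i` the projection to the `i`-th block) -/
def wh (M : Matrix (Fin t × Fin ρ) (Fin t × Fin ρ) R) (i : Fin t) :
    Matrix (Fin t × Fin ρ) (Fin t × Fin ρ) R :=
  1 + Matrix.of fun x y => if x.1 = i then M x y else 0

/-- its inverse `1 - T π_i M`, if `T (1 + S) = 1` and the `i`-th diagonal block of `M` is `S` -/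
def whi (T : Matrix (Fin ρ) (Fin ρ) R) (M : Matrix (Fin t × Fin ρ) (Fin t × Fin ρ) R) (i : Fin t) :
    Matrix (Fin t × Fin ρ) (Fin t × Fin ρ) R :=
  1 - Matrix.of fun x y => if x.1 = i then ∑ a, T x.2 a * M (i, a) y else 0

/-- all diagonal blocks of `M` are `S` -/
def DiagS (S : Matrix (Fin ρ) (Fin ρ) R) (M : Matrix (Fin t × Fin ρ) (Fin t × Fin ρ) R) : Prop :=
  ∀ i a b, M (i, a) (i, b) = S a b

/-- the commutator of the generators `0` and `1` -/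
def cm (T : Matrix (Fin ρ) (Fin ρ) R) (M : Matrix (Fin 7 × Fin ρ) (Fin 7 × Fin ρ) R) :
    Matrix (Fin 7 × Fin ρ) (Fin 7 × Fin ρ) R :=
  wh M 0 * wh M 1 * whi T M 0 * whi T M 1

/-- the set of the generators -/
def gens {p : ℕ} (M : Matrix (Fin t × Fin ρ) (Fin t × Fin ρ) (ZMod p)) :
    Set (SLI (Fin t × Fin ρ) p) :=
  {g | ∃ i, (g : Matrix (Fin t × Fin ρ) (Fin t × Fin ρ) (ZMod p)) = wh M i}

/-- the special configuration:
```
S 0 X 0 Y 0 c
1 S 0 0 0 0 0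
0 1 S 0 0 0 0
0 0 1 S 0 0 0
0 0 0 1 S 0 0
0 0 0 0 1 S 0
0 0 0 0 0 1 S
```
with `X` the matrix unit at `(0, 0)` and `Y` the cyclic permutation matrix. -/
def M0 {p : ℕ} (S : Matrix (Fin ρ) (Fin ρ) (ZMod p)) (c : ZMod p) :
    Matrix (Fin 7 × Fin ρ) (Fin 7 × Fin ρ) (ZMod p) :=
  Matrix.of fun x y =>
    if x.1 = y.1 then S x.2 y.2
    else if x.1 = 0 ∧ y.1 = 6 then (if x.2 = y.2 then c else 0)
    else if x.1 = y.1 + 1 then (if x.2 = y.2 then 1 else 0)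
    else if x.1 = 0 ∧ y.1 = 2 then (if x.2.val = 0 ∧ y.2.val = 0 then 1 else 0)
    else if x.1 = 0 ∧ y.1 = 4 then (if x.2.val = (y.2.val + 1) % ρ then 1 else 0)
    else 0

end config

/-- WHL: determinant and inverse of the generators. -/
def Stmt_WHL : Prop := ∀ (t ρ : ℕ) (R : Type) [CommRing R] (S T : Matrix (Fin ρ) (Fin ρ) R)
  (M : Matrix (Fin t × Fin ρ) (Fin t × Fin ρ) R) (i : Fin t), DiagS S M →
  (wh M i).det = (1 + S).det ∧ ((1 + S) * T = 1 → wh M i * whi T M i = 1)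

/-- DET: the special configuration can be made invertible. -/
def Stmt_DET : Prop := ∀ (ρ p : ℕ) [Fact p.Prime] (S : Matrix (Fin ρ) (Fin ρ) (ZMod p)),
  ρ + 1 < p → ∃ c : ZMod p, c ≠ 0 ∧ (M0 S c).det ≠ 0

/-- COM: the commutator in the special configuration. -/
def Stmt_COM : Prop := ∀ (ρ p : ℕ) [Fact p.Prime] (S : Matrix (Fin ρ) (Fin ρ) (ZMod p))
  (c : ZMod p), 1 ≤ ρ → (1 + S).det = 1 → c ≠ 0 →
  ∃ a b : Fin 7 × Fin ρ, a ≠ b ∧ ∀ s : ℕ, 1 ≤ s → s < p → (cm (1 + S)⁻¹ (M0 S c) ^ s) a b ≠ 0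

/-- CLO: the special configuration generates. -/
def Stmt_CLO : Prop := ∀ (ρ p : ℕ) [Fact p.Prime] (S : Matrix (Fin ρ) (Fin ρ) (ZMod p))
  (c : ZMod p), 1 ≤ ρ → (1 + S).det = 1 → c ≠ 0 → (M0 S c).det ≠ 0 →
  Subgroup.closure (gens (M0 S c)) = ⊤

/-- WSP: short words whose images are linearly independent. -/
def Stmt_WSP : Prop := ∀ (K : Type) [Field K] (G : Type) [Group G] [Finite G] (A : Set G)
  (E : Type) [Ring E] [Algebra K E] [FiniteDimensional K E] (φ : G →* E),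
  Subgroup.closure A = ⊤ →
  ∃ w : Fin (Module.finrank K (Submodule.span K (Set.range φ))) → List G,
    (∀ j, ∀ x ∈ w j, x ∈ A) ∧
    (∀ j, (w j).length ≤ Module.finrank K (Submodule.span K (Set.range φ))) ∧
    LinearIndependent K (fun j => φ (w j).prod)

/-- MIN: linearly independent vectors have a nonvanishing minor. -/
def Stmt_MIN : Prop := ∀ (K : Type) [Field K] (X : Type) [Finite X] (q : ℕ)
  (v : Fin q → (X → K)), LinearIndependent K v →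
  ∃ e : Fin q → X, (Matrix.of fun i j => v j (e i)).det ≠ 0

/-- CERT: a polynomial of bounded degree certifies irreducibility and many elements. -/
def Stmt_CERT : Prop := ∀ (ρ J : ℕ), 1 ≤ ρ → ∃ D P0 : ℕ, ∀ (p : ℕ) [Fact p.Prime], P0 < p →
  Irr (⊤ : Subgroup (SLI (Fin 7 × Fin ρ) p)) →
  ∀ (S : Matrix (Fin ρ) (Fin ρ) (ZMod p)) (M1 : Matrix (Fin 7 × Fin ρ) (Fin 7 × Fin ρ) (ZMod p)),
    (1 + S).det = 1 → DiagS S M1 → M1.det ≠ 0 → Subgroup.closure (gens M1) = ⊤ →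
    (∃ a b : Fin 7 × Fin ρ, a ≠ b ∧ ∀ s : ℕ, 1 ≤ s → s < p → (cm (1 + S)⁻¹ M1 ^ s) a b ≠ 0) →
    ∃ Ψ : MvPolynomial ((Fin 7 × Fin ρ) × (Fin 7 × Fin ρ)) (ZMod p),
      Ψ.totalDegree ≤ D ∧ MvPolynomial.eval (fun x => M1 x.1 x.2) Ψ ≠ 0 ∧
      ∀ M : Matrix (Fin 7 × Fin ρ) (Fin 7 × Fin ρ) (ZMod p), DiagS S M →
        MvPolynomial.eval (fun x => M x.1 x.2) Ψ ≠ 0 →
        M.det ≠ 0 ∧ Irr (Subgroup.closure (gens M)) ∧
          ∃ c ∈ Subgroup.closure (gens M), NonscalarPowers J c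

/-! ## Part R: realisation and steering in `SL_n` -/

section real

variable {t ρ n : ℕ} {K : Type} [Field K]

/-- the matrix of pairings `(Q_a h_i⁻¹) (h_j P_b)` -/
def Mh (P Q : Fin ρ → (Fin n → K)) (h : Fin t → SLn n K) :
    Matrix (Fin t × Fin ρ) (Fin t × Fin ρ) K :=
  Matrix.of fun x y => kk (Q x.2) (h x.1) ⬝ᵥ vv (P y.2) (h y.1)

/-- the matrix of pairings `Q_a P_b` -/
def Sm (P Q : Fin ρ → (Fin n → K)) : Matrix (Fin ρ) (Fin ρ) K :=
  Matrix.of fun a b => Q a ⬝ᵥ P b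

end real

/-- REAL: every matrix with diagonal blocks `S` is a matrix of pairings. -/
def Stmt_REAL : Prop := ∀ (n ρ p : ℕ) [Fact p.Prime] (P Q : Fin ρ → (Fin n → ZMod p))
  (M : Matrix (Fin 7 × Fin ρ) (Fin 7 × Fin ρ) (ZMod p)), 10 * ρ ≤ n →
  LinearIndependent (ZMod p) P → LinearIndependent (ZMod p) Q → DiagS (Sm P Q) M →
  ∃ h : Fin 7 → SLn n (ZMod p), Mh P Q h = M

/-- ESC: steering of seven group elements. -/
def Stmt_ESC : Prop := ∀ (n ρ p D : ℕ) [Fact p.Prime] (A : Set (SLn n (ZMod p)))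
  (P Q : Fin ρ → (Fin n → ZMod p)) (Ψ : MvPolynomial ((Fin 7 × Fin ρ) × (Fin 7 × Fin ρ)) (ZMod p))
  (g : Fin 7 → SLn n (ZMod p)), Subgroup.closure A = ⊤ → Ψ.totalDegree ≤ D →
  MvPolynomial.eval (fun x => Mh P Q g x.1 x.2) Ψ ≠ 0 →
  ∃ h : Fin 7 → SLn n (ZMod p), (∀ i, Reach A ((2 * n ^ 2 + 1) ^ D) (h i)) ∧
    MvPolynomial.eval (fun x => Mh P Q h x.1 x.2) Ψ ≠ 0

/-- THETA: transfer of transvections from the small group. -/
def Stmt_THETA : Prop := ∀ (n ρ p L l N : ℕ) [Fact p.Prime] (A : Set (SLn n (ZMod p)))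
  (P Q : Fin ρ → (Fin n → ZMod p)) (g0 : SLn n (ZMod p)) (h : Fin 7 → SLn n (ZMod p)), 1 ≤ ρ →
  (g0 : Matrix (Fin n) (Fin n) (ZMod p)) = 1 + ∑ a, vecMulVec (P a) (Q a) → Reach A l g0 →
  (∀ i, Reach A L (h i)) → (Mh P Q h).det ≠ 0 →
  (∀ x : SLI (Fin 7 × Fin ρ) p, Reach (gens (Mh P Q h)) N x) →
  ∃ u f : Fin n → ZMod p, u ≠ 0 ∧ f ≠ 0 ∧ f ⬝ᵥ u = 0 ∧
    ∀ s : ZMod p, TRe A (N * (2 * L + l)) u (s • f)

/-- TR: from one root subgroup to all transvections, length polynomial in `n`. -/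
def Stmt_TR : Prop := ∀ (n p L0 : ℕ) [Fact p.Prime] (A : Set (SLn n (ZMod p)))
  (u f : Fin n → ZMod p), Subgroup.closure A = ⊤ → 4 ≤ n → u ≠ 0 → f ≠ 0 → f ⬝ᵥ u = 0 →
  (∀ s : ZMod p, TRe A L0 u (s • f)) →
  ∀ x y : Fin n → ZMod p, y ⬝ᵥ x = 0 → TRe A (100 * n ^ 2 * (S5 n + L0)) x y

/-! ## Final statement -/

/-- every Cayley graph of `SL_m(F_p)` has diameter at most `N` -/
def DiamLe (m p N : ℕ) : Prop := ∀ B : Set (SLI (Fin m) p), Subgroup.closure B = ⊤ →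
  ∀ g : SLI (Fin m) p, Reach B N g

/-- FIN: the uniform bounded rank theorem. -/
def Stmt_FIN : Prop := ∀ r : ℕ, ∃ C : ℕ, ∀ (n p N l : ℕ) [Fact p.Prime],
  (∀ m ≤ C, DiamLe m p N) →
  ∀ (A : Set (SLn n (ZMod p))), Subgroup.closure A = ⊤ →
  ∀ w : SLn n (ZMod p), Reach A l w →
  ∀ c : ZMod p, ((w : Matrix (Fin n) (Fin n) (ZMod p)) - c • 1).rank ≤ r →
  (∀ d : ZMod p, (w : Matrix (Fin n) (Fin n) (ZMod p)) ≠ d • 1) →
  ∀ g : SLn n (ZMod p), Reach A (l * C * n ^ C * N) g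

end Pool.Agent.Work.MP_936a99_bb
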