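import Pool.Agent.Work.MP_936a99_bb.Fin

/-!
# Logarithmic form of the uniform bounded rank theorem
-/

namespace Pool.Agent.Work.MP_936a99_bb

open Matrix Pool.Agent.Work.MP_936a99_al_h7

/-- `p ^ n - 1 ≤ |SL_n(F_p)|` -/
theorem ppow_le_card {n p : ℕ} [hp : Fact p.Prime] (hn : 2 ≤ n) :
    p ^ n ≤ Nat.card (SLn n (ZMod p)) + 1 := by
  classical
  have hp2 : 2 ≤ p := hp.out.two_le
  let e : Fin n → ZMod p := Pi.single ⟨0, by omega⟩ 1
  have he : e ≠ 0 := by
    intro h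
    have := congrFun h ⟨0, by omega⟩
    simp [e] at this
  have hsurj : Function.Surjective (fun g : SLn n (ZMod p) =>
      (⟨vv e g, vv_ne_zero he g⟩ : {v : Fin n → ZMod p // v ≠ 0})) := by
    rintro ⟨v, hv⟩
    have li1 : ∀ u : Fin n → ZMod p, u ≠ 0 → LinearIndependent (ZMod p) ![u] := by
      intro u hu
      rw [Fintype.linearIndependent_iff]
      intro g hg i
      fin_cases i
      have h1 : g 0 • u = 0 := by simpa using hg
      exact (smul_eq_zero.1 h1).resolve_right hu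
    obtain ⟨h, hh⟩ := exists_SL_map (by simp; omega) ![e] ![v] (li1 e he) (li1 v hv)
    refine ⟨h, Subtype.ext ?_⟩
    exact hh 0
  have h1 := Nat.card_le_card_of_surjective _ hsurj
  have h2 : Nat.card {v : Fin n → ZMod p // v ≠ 0} + 1 = p ^ n := by
    rw [Nat.card_eq_fintype_card, Fintype.card_subtype_compl, Fintype.card_subtype_eq]
    simp only [Fintype.card_pi, ZMod.card, Finset.prod_const, Finset.card_univ, Fintype.card_fin]
    have : 1 ≤ p ^ n := Nat.one_le_pow _ _ (by omega)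
    omega
  omega

/-- the bounds on `n` and `p` in terms of `log |SL_n(F_p)|` -/
theorem log_bounds {n p : ℕ} [hp : Fact p.Prime] (hn : 2 ≤ n) :
    Real.log 3 ≤ Real.log (Nat.card (SLn n (ZMod p))) ∧
    Real.log p ≤ Real.log (Nat.card (SLn n (ZMod p))) ∧
    (n : ℝ) ≤ 3 * Real.log (Nat.card (SLn n (ZMod p))) := by
  have hp2 : 2 ≤ p := hp.out.two_le
  have h := ppow_le_card (p := p) hn
  set c := Nat.card (SLn n (ZMod p)) with hc
  have h2n : 2 ^ n ≤ p ^ n := Nat.pow_le_pow_left hp2 n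
  have h4 : 4 ≤ 2 ^ n := by
    calc 4 = 2 ^ 2 := by norm_num
      _ ≤ 2 ^ n := Nat.pow_le_pow_right (by norm_num) hn
  have h3 : (3 : ℝ) ≤ c := by
    have : 3 ≤ c := by omega
    exact_mod_cast this
  have hpc : (p : ℝ) ≤ c := by
    have h5 : p ^ 2 ≤ p ^ n := Nat.pow_le_pow_right (by omega) hn
    have h6 : p + 1 ≤ p ^ 2 := by nlinarith
    have : p ≤ c := by omega
    exact_mod_cast this
  have a1 : Real.log 3 ≤ Real.log c := Real.log_le_log (by norm_num) h3
  have a2 : Real.log p ≤ Real.log c :=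
    Real.log_le_log (by exact_mod_cast (by omega : 0 < p)) hpc
  refine ⟨a1, a2, ?_⟩
  have h7 : (2 : ℝ) ^ (n - 1) ≤ c := by
    have h8 : 2 ^ n = 2 * 2 ^ (n - 1) := by
      rw [← pow_succ', Nat.sub_add_cancel (by omega)]
    have h9 : 1 ≤ 2 ^ (n - 1) := Nat.one_le_two_pow
    have : 2 ^ (n - 1) ≤ c := by omega
    exact_mod_cast this
  have h8 : ((n : ℝ) - 1) * Real.log 2 ≤ Real.log c := by
    have h9 := Real.log_le_log (by positivity) h7
    rw [Real.log_pow, Nat.cast_sub (by omega), Nat.cast_one] at h9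
    exact h9
  have h9 := Real.log_two_gt_d9
  have h10 : 1 ≤ Real.log c := by
    have h11 : (1 : ℝ) ≤ Real.log 3 := by
      have h12 := Real.exp_one_lt_d9
      rw [Real.le_log_iff_exp_le (by norm_num)]
      linarith
    linarith
  have h11 : (2 : ℝ) ≤ n := by exact_mod_cast hn
  nlinarith

theorem card_le_pow' {m p : ℕ} [hp : Fact p.Prime] :
    Real.log (Nat.card (SLn m (ZMod p))) ≤ (m : ℝ) ^ 2 * Real.log p := by
  have h1 : (Nat.card (SLn m (ZMod p)) : ℝ) ≤ (p : ℝ) ^ (m ^ 2) := by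
    exact_mod_cast card_le_pow (n := m) (p := p)
  have h0 : (0 : ℝ) < Nat.card (SLn m (ZMod p)) := by
    exact_mod_cast Nat.card_pos
  have h2 := Real.log_le_log h0 h1
  rw [Real.log_pow] at h2
  exact_mod_cast h2

/-- Babai's bound in fixed dimension (known: Breuillard-Green-Tao, Pyber-Szabo) -/
def FixedDim : Prop := ∀ m : ℕ, ∃ c : ℕ, ∀ (p : ℕ) [Fact p.Prime] (B : Set (SLn m (ZMod p))),
  Subgroup.closure B = ⊤ → ∀ g : SLn m (ZMod p),
    ∃ L : ℕ, Reach B L g ∧ (L : ℝ) ≤ Real.log (Nat.card (SLn m (ZMod p))) ^ c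

theorem log_form (hfin : Stmt_FIN) (hF : FixedDim) : ∀ r : ℕ, ∃ C : ℕ,
    ∀ (n p l : ℕ) [Fact p.Prime] (A : Set (SLn n (ZMod p))), Subgroup.closure A = ⊤ →
    ∀ w : SLn n (ZMod p), Reach A l w →
    ∀ c : ZMod p, ((w : Matrix (Fin n) (Fin n) (ZMod p)) - c • 1).rank ≤ r →
    (∀ d : ZMod p, (w : Matrix (Fin n) (Fin n) (ZMod p)) ≠ d • 1) →
    ∀ g : SLn n (ZMod p), ∃ L : ℕ, Reach A L g ∧
      (L : ℝ) ≤ l * Real.log (Nat.card (SLn n (ZMod p))) ^ C := by
  intro r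
  obtain ⟨C, hC⟩ := hfin r
  choose c hc using hF
  set cc := ∑ m ∈ Finset.range (C + 1), c m with hcc
  have hcle : ∀ m ≤ C, c m ≤ cc := fun m hm =>
    Finset.single_le_sum (f := c) (fun _ _ => Nat.zero_le _) (Finset.mem_range.2 (by omega))
  set K := C * 3 ^ C * (C + 1) ^ (2 * cc) with hK
  refine ⟨8 * K + C + cc, ?_⟩
  intro n p l hp A hA w hw s hrank hns g
  have hn2 : 2 ≤ n := two_le_of_nonscalar hns
  obtain ⟨x3, xp, xn⟩ := log_bounds (p := p) hn2
  set x := Real.log (Nat.card (SLn n (ZMod p))) with hx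
  have hx1 : 1 ≤ x := by
    have h11 : (1 : ℝ) ≤ Real.log 3 := by
      have h12 := Real.exp_one_lt_d9
      rw [Real.le_log_iff_exp_le (by norm_num)]
      linarith
    linarith
  have hx0 : 0 ≤ x := by linarith
  have hx8 : (2 : ℝ) ≤ x ^ 8 := by
    refine log_three_pow.trans ?_
    gcongr
  set y : ℝ := ((C : ℝ) + 1) ^ 2 * x with hy
  have hy1 : 1 ≤ y := by
    have h1 : (1 : ℝ) ≤ ((C : ℝ) + 1) ^ 2 := one_le_pow₀ (by
      have : (0 : ℝ) ≤ C := Nat.cast_nonneg _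
      linarith)
    nlinarith
  have hy0 : 0 ≤ y := by linarith
  have hlogp : 0 ≤ Real.log p := Real.log_nonneg (by exact_mod_cast hp.out.one_lt.le)
  set N := ⌊y ^ cc⌋₊ with hN
  have hdiam : ∀ m ≤ C, DiamLe m p N := by
    intro m hm B hB g'
    obtain ⟨L, hL1, hL2⟩ := hc m p B hB g'
    refine Reach.mono hL1 ?_
    rw [hN]
    apply Nat.le_floor
    refine hL2.trans ?_
    have h1 : Real.log (Nat.card (SLn m (ZMod p))) ≤ y := by
      refine card_le_pow'.trans ?_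
      have h2 : (m : ℝ) ^ 2 ≤ ((C : ℝ) + 1) ^ 2 := by
        have : (m : ℝ) ≤ C := by exact_mod_cast hm
        gcongr
        linarith
      calc (m : ℝ) ^ 2 * Real.log p ≤ ((C : ℝ) + 1) ^ 2 * x := by gcongr
        _ = y := rfl
    have h0 : 0 ≤ Real.log (Nat.card (SLn m (ZMod p))) := Real.log_nonneg (by
      have : 1 ≤ Nat.card (SLn m (ZMod p)) := Nat.card_pos
      exact_mod_cast this)
    calc Real.log (Nat.card (SLn m (ZMod p))) ^ c m ≤ y ^ c m := by gcongr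
      _ ≤ y ^ cc := pow_le_pow_right₀ hy1 (hcle m hm)
  refine ⟨l * C * n ^ C * N, hC n p N l hdiam A hA w hw s hrank hns g, ?_⟩
  have hNy : (N : ℝ) ≤ y ^ cc := Nat.floor_le (by positivity)
  have hKx : (K : ℝ) ≤ x ^ (8 * K) := by
    calc (K : ℝ) ≤ 2 ^ K := by exact_mod_cast (Nat.lt_two_pow_self (n := K)).le
      _ ≤ (x ^ 8) ^ K := by gcongr
      _ = x ^ (8 * K) := by rw [← pow_mul]
  have hKK : (K : ℝ) = C * 3 ^ C * ((C : ℝ) + 1) ^ (2 * cc) := by
    rw [hK]; push_cast; ring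
  push_cast
  calc (l : ℝ) * C * n ^ C * N ≤ l * C * (3 * x) ^ C * y ^ cc := by gcongr
    _ = l * (C * 3 ^ C * ((C : ℝ) + 1) ^ (2 * cc)) * x ^ (C + cc) := by
        rw [hy, mul_pow, mul_pow, ← pow_mul, pow_add]; ring
    _ = l * K * x ^ (C + cc) := by rw [hKK]
    _ ≤ l * x ^ (8 * K) * x ^ (C + cc) := by gcongr
    _ = l * x ^ (8 * K + C + cc) := by rw [mul_assoc, ← pow_add, ← add_assoc]

end Pool.Agent.Work.MP_936a99_bb

namespace Pool.Agent.Work.MP_936a99_bb

open Matrix Pool.Agent.Work.MP_936a99_al_h7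

/-- unconditional form, with the trivial bound for the diameters in bounded dimension -/
theorem uncond_form (hfin : Stmt_FIN) : ∀ r : ℕ, ∃ C : ℕ,
    ∀ (n p l : ℕ) [Fact p.Prime] (A : Set (SLn n (ZMod p))), Subgroup.closure A = ⊤ →
    ∀ w : SLn n (ZMod p), Reach A l w →
    ∀ c : ZMod p, ((w : Matrix (Fin n) (Fin n) (ZMod p)) - c • 1).rank ≤ r →
    (∀ d : ZMod p, (w : Matrix (Fin n) (Fin n) (ZMod p)) ≠ d • 1) →
    ∀ g : SLn n (ZMod p), Reach A (l * (n * p) ^ C) g := by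
  intro r
  obtain ⟨C, hC⟩ := hfin r
  refine ⟨2 * C + C ^ 2, ?_⟩
  intro n p l hp A hA w hw s hrank hns g
  have hn2 : 2 ≤ n := two_le_of_nonscalar hns
  have hp2 : 2 ≤ p := hp.out.two_le
  have hdiam : ∀ m ≤ C, DiamLe m p (p ^ (C ^ 2)) := by
    intro m hm B hB g'
    refine (reach_card hB g').mono ?_
    refine card_le_pow.trans ?_
    exact Nat.pow_le_pow_right (by omega) (Nat.pow_le_pow_left hm 2)
  refine (hC n p _ l hdiam A hA w hw s hrank hns g).mono ?_
  calc l * C * n ^ C * p ^ (C ^ 2) ≤ l * n ^ C * n ^ C * p ^ (C ^ 2) := by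
        gcongr
        exact le_pow_self' hn2 C
    _ = l * n ^ (2 * C) * p ^ (C ^ 2) := by ring
    _ ≤ l * n ^ (2 * C + C ^ 2) * p ^ (2 * C + C ^ 2) := by
        gcongr
        · omega
        · omega
        · omega
        · omega
    _ = l * (n * p) ^ (2 * C + C ^ 2) := by rw [mul_pow]; ring

end Pool.Agent.Work.MP_936a99_bb
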