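import Pool.Agent.Work.MP_936a99_bb.Interface

/-!
# TGEN: a subgroup of `SL` over a field containing all elementary transvections is everything
-/

namespace Pool.Agent.Work.MP_936a99_bb

open Matrix

/-- the computation in an abstract algebra -/
theorem TGEN.alg {F A : Type*} [Field F] [Ring A] [Algebra F A] (E E' P Q : A)
    (h1 : E * E' = P) (h2 : E' * E = Q) (h3 : E * E = 0) (h4 : E' * E' = 0)
    (h5 : P * E = E) (h6 : Q * E' = E') (h7 : E * Q = E) (h8 : E' * P = E')
    (h9 : P * P = P) (h10 : Q * Q = Q) (h11 : P * Q = 0) (h12 : Q * P = 0)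
    (h13 : E * P = 0) (h14 : P * E' = 0) (h15 : Q * E = 0) (h16 : E' * Q = 0)
    (a : F) (ha : a ≠ 0) :
    (1 + a • E) * (1 + (-a⁻¹) • E') * (1 + a • E) *
      (1 + (-1 : F) • E) * (1 + (1 : F) • E') * (1 + (-1 : F) • E) =
      1 + (a - 1) • P + (a⁻¹ - 1) • Q := by
  have e : ∀ b : F, b ≠ 0 → (1 + b • E) * (1 + (-b⁻¹) • E') * (1 + b • E) =
      1 + b • E + (-b⁻¹) • E' - P - Q := by
    intro b hb
    simp only [add_mul, mul_add, one_mul, mul_one, smul_mul_smul_comm, h1, h2, h3, h5, smul_zero]
    match_scalars <;> field_simp <;> ring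
  have e2 := e (-1) (by simp)
  have e3 : -(-1 : F)⁻¹ = 1 := by norm_num
  rw [e3] at e2
  have e4 : (1 + a • E) * (1 + (-a⁻¹) • E') * (1 + a • E) *
      (1 + (-1 : F) • E) * (1 + (1 : F) • E') * (1 + (-1 : F) • E) =
      ((1 + a • E) * (1 + (-a⁻¹) • E') * (1 + a • E)) *
      ((1 + (-1 : F) • E) * (1 + (1 : F) • E') * (1 + (-1 : F) • E)) := by
    simp only [mul_assoc]
  rw [e4, e a ha, e2]
  simp only [add_mul, mul_add, sub_mul, mul_sub, one_mul, mul_one, smul_mul_smul_comm,
    smul_mul_assoc, mul_smul_comm, h1, h2, h3, h4, h5, h6, h7, h8, h9, h10, h11, h12, h13, h14,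
    h15, h16, smul_zero]
  match_scalars <;> field_simp <;> ring

/-- a diagonal matrix with entries `a`, `a⁻¹` at two places is a product of six transvections -/
theorem TGEN.diag2n_eq {ι F : Type*} [Fintype ι] [DecidableEq ι] [Field F] {i j : ι} (hij : i ≠ j)
    (a : F) (ha : a ≠ 0) :
    Matrix.SpecialLinearGroup.diag2n hij a ha =
      Matrix.SpecialLinearGroup.transvection hij a *
      Matrix.SpecialLinearGroup.transvection hij.symm (- a⁻¹) *
      Matrix.SpecialLinearGroup.transvection hij a *
      Matrix.SpecialLinearGroup.transvection hij (-1) *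
      Matrix.SpecialLinearGroup.transvection hij.symm 1 *
      Matrix.SpecialLinearGroup.transvection hij (-1) := by
  apply Subtype.ext
  have hT : ∀ {i j : ι} (hij : i ≠ j) (c : F), (Matrix.SpecialLinearGroup.transvection hij c).1 =
      1 + c • single i j (1 : F) := by
    intro i j hij c
    rw [Matrix.SpecialLinearGroup.transvection_coe, smul_single, smul_eq_mul, mul_one]
  simp only [Matrix.SpecialLinearGroup.coe_mul, hT]
  rw [TGEN.alg (single i j (1 : F)) (single j i (1 : F)) (single i i (1 : F)) (single j j (1 : F))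
    (by rw [single_mul_single_same, mul_one]) (by rw [single_mul_single_same, mul_one])
    (single_mul_single_of_ne _ _ _ _ hij.symm _) (single_mul_single_of_ne _ _ _ _ hij _)
    (by rw [single_mul_single_same, mul_one]) (by rw [single_mul_single_same, mul_one])
    (by rw [single_mul_single_same, mul_one]) (by rw [single_mul_single_same, mul_one])
    (by rw [single_mul_single_same, mul_one]) (by rw [single_mul_single_same, mul_one])
    (single_mul_single_of_ne _ _ _ _ hij _) (single_mul_single_of_ne _ _ _ _ hij.symm _)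
    (single_mul_single_of_ne _ _ _ _ hij.symm _) (single_mul_single_of_ne _ _ _ _ hij _)
    (single_mul_single_of_ne _ _ _ _ hij.symm _) (single_mul_single_of_ne _ _ _ _ hij _) a ha]
  rw [Matrix.SpecialLinearGroup.diag2n_coe]
  rw [← diagonal_one, ← diagonal_single, ← diagonal_single, ← diagonal_smul, ← diagonal_smul,
    diagonal_add, diagonal_add]
  congr 1
  funext k
  simp only [Pi.add_apply, Pi.smul_apply, Pi.single_apply, smul_eq_mul, mul_ite, mul_one, mul_zero]
  by_cases h1 : k = i
  · have h2 : k ≠ j := by rw [h1]; exact hij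
    simp [h1, hij]
  · by_cases h2 : k = j
    · simp [h2, hij.symm]
    · simp [h1, h2]

/-- TGEN -/
theorem tgen : Stmt_TGEN := by
  intro ι _ _ p _ H hH
  rw [eq_top_iff]
  intro g _
  rcases subsingleton_or_nontrivial ι with hs | hn
  · rw [Subsingleton.elim g 1]
    exact H.one_mem
  · refine Matrix.SpecialLinearGroup.diagonal_transvection_induction' (fun g => g ∈ H) g ?_ ?_ ?_
    · intro i j hij c hc
      rw [TGEN.diag2n_eq hij c hc]
      exact H.mul_mem (H.mul_mem (H.mul_mem (H.mul_mem (H.mul_mem (hH _ _ hij _)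
        (hH _ _ hij.symm _)) (hH _ _ hij _)) (hH _ _ hij _)) (hH _ _ hij.symm _)) (hH _ _ hij _)
    · intro i j hij a
      exact hH i j hij a
    · intro A B hA hB
      exact H.mul_mem hA hB

end Pool.Agent.Work.MP_936a99_bb
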